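import Pool.Agent.H1.ED.Ke

/-!
ROW C1. Integrate `kernel` against an integrable field on the ellipse (`hasSum_integral_of_summable_integral_norm` or `hasSum_integral_of_dominated_convergence`
with `‖G w dC (n+1) w s⁻ⁿ⁻¹‖ ≤ ‖G w‖ (n+1)² (e^x/‖s‖)^(n+1)/‖b‖`, summable).
-/

set_option autoImplicit false

namespace ED1

open Complex Set Filter Topology MeasureTheory
open scoped ComplexConjugate ContDiff Real

theorem C1 {z₀ b : ℂ} (hb : b ≠ 0) {x : ℝ} (hx : 0 ≤ x) {G : ℂ → ℂ} (hG : IntegrableOn G (De z₀ b x))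
    {s : ℂ} (hs : Real.exp x < ‖s‖) :
    HasSum (fun n : ℕ => (∫ w in De z₀ b x, G w * dC z₀ b (n + 1) w) * s⁻¹ ^ (n + 1))
      (b * (s - s⁻¹) * ∫ w in De z₀ b x, G w / (J z₀ b s - w) ^ 2) := by
  have hb0 : 0 < ‖b‖ := norm_pos_iff.2 hb
  have hs0 : 0 < ‖s‖ := (Real.exp_pos x).trans hs
  have hlv : Continuous fun z : ℂ => lv z₀ b z := by
    unfold lv
    fun_prop
  have hDe : MeasurableSet (De z₀ b x) := (isOpen_lt hlv continuous_const).measurableSet
  have hdC : ∀ n : ℕ, Continuous fun w : ℂ => dC z₀ b n w := by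
    intro n
    unfold dC
    exact ((Polynomial.continuous _).comp (by fun_prop)).div_const b
  obtain ⟨ρ, hρ⟩ : ∃ ρ, ρ = Real.exp x / ‖s‖ := ⟨_, rfl⟩
  have hρ0 : 0 ≤ ρ := by
    rw [hρ]
    positivity
  have hρ1 : ρ < 1 := by
    rw [hρ, div_lt_one hs0]
    exact hs
  obtain ⟨c, hc⟩ : ∃ c : ℕ → ℝ, c = fun n => ((n + 1 : ℕ) : ℝ) ^ 2 * ρ ^ (n + 1) / ‖b‖ := ⟨_, rfl⟩
  have hcs : Summable c := by
    rw [hc]
    refine Summable.div_const ?_ _
    have h1 := summable_pow_mul_geometric_of_norm_lt_one 2 (r := ρ) (by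
      rw [Real.norm_eq_abs, abs_of_nonneg hρ0]
      exact hρ1)
    exact (summable_nat_add_iff (f := fun n : ℕ => (n : ℝ) ^ 2 * ρ ^ n) 1).2 h1
  have hbd : ∀ n : ℕ, ∀ w ∈ De z₀ b x, ‖G w * dC z₀ b (n + 1) w * s⁻¹ ^ (n + 1)‖ ≤ ‖G w‖ * c n := by
    intro n w hw
    have h1 := dC_bound (z₀ := z₀) hb hx (n + 1) (w := w) (le_of_lt hw)
    have h2 : ‖s⁻¹ ^ (n + 1)‖ = (‖s‖ ^ (n + 1))⁻¹ := by
      rw [norm_pow, norm_inv, inv_pow]
    have h3 : c n = ((n + 1 : ℕ) : ℝ) ^ 2 * Real.exp ((n + 1 : ℕ) * x) / ‖b‖ * (‖s‖ ^ (n + 1))⁻¹ := by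
      have h4 : c n = ((n + 1 : ℕ) : ℝ) ^ 2 * ρ ^ (n + 1) / ‖b‖ := by rw [hc]
      rw [h4, hρ, div_pow, Real.exp_nat_mul]
      field_simp
    rw [norm_mul, norm_mul, h2, h3, mul_assoc]
    gcongr
  have key := hasSum_integral_of_dominated_convergence (μ := volume.restrict (De z₀ b x))
    (F := fun (n : ℕ) w => G w * dC z₀ b (n + 1) w * s⁻¹ ^ (n + 1))
    (f := fun w => b * (s - s⁻¹) * (G w / (J z₀ b s - w) ^ 2))
    (fun n w => ‖G w‖ * c n)
    (fun n => (hG.aestronglyMeasurable.mul (hdC (n + 1)).aestronglyMeasurable).mul_const _)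
    (fun n => by
      filter_upwards [ae_restrict_mem hDe] with w hw
      exact hbd n w hw)
    (Filter.Eventually.of_forall fun w => hcs.mul_left _)
    (by
      simp only [tsum_mul_left]
      exact hG.norm.mul_const _)
    (by
      filter_upwards [ae_restrict_mem hDe] with w hw
      have h1 := (kernel hb hx (w := w) (le_of_lt hw) hs).mul_left (G w)
      have e1 : (fun n : ℕ => G w * dC z₀ b (n + 1) w * s⁻¹ ^ (n + 1)) =
          fun n : ℕ => G w * (dC z₀ b (n + 1) w * s⁻¹ ^ (n + 1)) := by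
        funext n
        ring
      have e2 : b * (s - s⁻¹) * (G w / (J z₀ b s - w) ^ 2) =
          G w * (b * (s - s⁻¹) / (J z₀ b s - w) ^ 2) := by ring
      change HasSum (fun n : ℕ => G w * dC z₀ b (n + 1) w * s⁻¹ ^ (n + 1))
        (b * (s - s⁻¹) * (G w / (J z₀ b s - w) ^ 2))
      rw [e1, e2]
      exact h1)
  rw [integral_const_mul] at key
  have e3 : (fun n : ℕ => ∫ w in De z₀ b x, G w * dC z₀ b (n + 1) w * s⁻¹ ^ (n + 1)) =
      fun n : ℕ => (∫ w in De z₀ b x, G w * dC z₀ b (n + 1) w) * s⁻¹ ^ (n + 1) := by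
    funext n
    exact integral_mul_const _ _
  rw [e3] at key
  exact key

end ED1
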