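import Mathlib

/-!
ROW C2. The transform `z ↦ ∫_K f(w)/(z-w)² dw` is holomorphic outside the compact set `K`
(`hasDerivAt_integral_of_dominated_loc_of_deriv_le`: on the ball of radius `δ/2` around `z`, `δ` the distance of `z` to `K`, the derivative `-2 f(w)/(z-w)³` is at most `16 ‖f w‖/δ³`).
-/

set_option autoImplicit false

namespace ED1

open Complex Set Filter Topology MeasureTheory
open scoped ComplexConjugate ContDiff Real

theorem C2 {K : Set ℂ} (hK : IsCompact K) {f : ℂ → ℂ} (hf : IntegrableOn f K) :
    DifferentiableOn ℂ (fun z => ∫ w in K, f w / (z - w) ^ 2) Kᶜ := by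
  intro z hz
  apply DifferentiableAt.differentiableWithinAt
  obtain ⟨δ, hδ, hball⟩ := Metric.isOpen_iff.1 hK.isClosed.isOpen_compl z hz
  have hKm : MeasurableSet K := hK.isClosed.measurableSet
  -- points of `K` are far from the points of the small ball
  have hfar : ∀ w ∈ K, ∀ x ∈ Metric.ball z (δ / 2), δ / 2 ≤ ‖x - w‖ := by
    intro w hw x hx
    by_contra hlt
    push Not at hlt
    have h1 : w ∈ Metric.ball z δ := by
      rw [Metric.mem_ball, dist_eq_norm] at hx ⊢
      have h2 : w - z = (x - z) - (x - w) := by ring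
      rw [h2]
      have h3 := norm_sub_le (x - z) (x - w)
      linarith
    exact hball h1 hw
  have hmeas : ∀ x : ℂ, AEStronglyMeasurable (fun w => f w / (x - w) ^ 2) (volume.restrict K) := by
    intro x
    have h1 : AEStronglyMeasurable (fun w : ℂ => ((x - w) ^ 2)⁻¹) (volume.restrict K) := by
      apply Measurable.aestronglyMeasurable
      fun_prop
    have h2 := hf.aestronglyMeasurable.mul h1
    apply h2.congr
    filter_upwards with w
    simp only [Pi.mul_apply]
    rw [div_eq_mul_inv]
  have hmeas' : ∀ x : ℂ, AEStronglyMeasurable (fun w => -2 * f w / (x - w) ^ 3) (volume.restrict K) := by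
    intro x
    have h1 : AEStronglyMeasurable (fun w : ℂ => -2 * ((x - w) ^ 3)⁻¹) (volume.restrict K) := by
      apply Measurable.aestronglyMeasurable
      fun_prop
    have h2 := hf.aestronglyMeasurable.mul h1
    apply h2.congr
    filter_upwards with w
    simp only [Pi.mul_apply]
    rw [div_eq_mul_inv]
    ring
  have hzb : z ∈ Metric.ball z (δ / 2) := Metric.mem_ball_self (by positivity)
  have hint : Integrable (fun w => f w / (z - w) ^ 2) (volume.restrict K) := by
    apply Integrable.mono' (hf.norm.const_mul ((δ / 2) ^ 2)⁻¹) (hmeas z)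
    rw [ae_restrict_iff' hKm]
    filter_upwards with w hw
    have h1 := hfar w hw z hzb
    have hpos : 0 < δ / 2 := by positivity
    rw [norm_div, norm_pow, div_eq_inv_mul]
    apply mul_le_mul_of_nonneg_right _ (norm_nonneg _)
    apply inv_anti₀ (by positivity)
    exact pow_le_pow_left₀ hpos.le h1 2
  have hbound : ∀ᵐ w ∂(volume.restrict K), ∀ x ∈ Metric.ball z (δ / 2),
      ‖-2 * f w / (x - w) ^ 3‖ ≤ 2 * ((δ / 2) ^ 3)⁻¹ * ‖f w‖ := by
    rw [ae_restrict_iff' hKm]
    filter_upwards with w hw x hx
    have h1 := hfar w hw x hx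
    have hpos : 0 < δ / 2 := by positivity
    rw [norm_div, norm_pow, norm_mul, norm_neg]
    have h2 : ‖(2 : ℂ)‖ = 2 := by norm_num
    rw [h2, div_eq_mul_inv]
    have h3 : (‖x - w‖ ^ 3)⁻¹ ≤ ((δ / 2) ^ 3)⁻¹ := by
      apply inv_anti₀ (by positivity)
      exact pow_le_pow_left₀ hpos.le h1 3
    have h4 : 0 ≤ 2 * ‖f w‖ := by positivity
    nlinarith [mul_le_mul_of_nonneg_left h3 h4]
  have hdiff : ∀ᵐ w ∂(volume.restrict K), ∀ x ∈ Metric.ball z (δ / 2),
      HasDerivAt (fun x => f w / (x - w) ^ 2) (-2 * f w / (x - w) ^ 3) x := by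
    rw [ae_restrict_iff' hKm]
    filter_upwards with w hw x hx
    have h1 := hfar w hw x hx
    have hne : x - w ≠ 0 := by
      intro h0
      rw [h0, norm_zero] at h1
      linarith
    have h2 : HasDerivAt (fun x : ℂ => (x - w) ^ 2) (2 * (x - w)) x := by
      have h3 : HasDerivAt (fun x : ℂ => x - w) 1 x := (hasDerivAt_id x).sub_const w
      have h5 := h3.fun_pow 2
      apply h5.congr_deriv
      simp
    have h4 := (hasDerivAt_const x (f w)).div h2 (pow_ne_zero 2 hne)
    apply h4.congr_deriv
    field_simp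
    ring
  exact (hasDerivAt_integral_of_dominated_loc_of_deriv_le (Metric.ball_mem_nhds z (by positivity))
    (Filter.Eventually.of_forall hmeas) hint (hmeas' z) hbound (hf.norm.const_mul _) hdiff).2.differentiableAt

end ED1
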