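import Pool.Agent.H1.ED.Si

/-!
ROW Cc. The sum of a Laurent series in `s⁻¹` as a function outside the focal segment: `C₂ z = (∑' X n (S z)⁻¹^(n+1)) / (b (S z - (S z)⁻¹))`, `S` from `exists_S`; `‖(S z)⁻¹‖ < 1`, the power series
`∑ X n r^(n+1)` is analytic on `‖r‖ < θ⁻¹` (bound `C θⁿ`), `S z ≠ (S z)⁻¹`.
-/

set_option autoImplicit false

namespace ED1

open Complex Set Filter Topology MeasureTheory
open scoped ComplexConjugate ContDiff Real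

private theorem sub_inv_ne {s : ℂ} (hs : 1 < ‖s‖) : s - s⁻¹ ≠ 0 := by
  intro h
  have h1 : s = s⁻¹ := sub_eq_zero.1 h
  have h2 : ‖s‖ = ‖s‖⁻¹ := by
    rw [← norm_inv, ← h1]
  have h3 : ‖s‖⁻¹ < 1 := inv_lt_one_of_one_lt₀ hs
  linarith

theorem Cc {z₀ b : ℂ} (hb : b ≠ 0) {X : ℕ → ℂ} {C θ : ℝ} (h0 : 0 < θ) (h1 : θ < 1)
    (hX : ∀ n, ‖X n‖ ≤ C * θ ^ n) : ∃ C₂ : ℂ → ℂ, DifferentiableOn ℂ C₂ (Sg z₀ b)ᶜ ∧
      ∀ s : ℂ, 1 < ‖s‖ → ∑' n, X n * s⁻¹ ^ (n + 1) = b * (s - s⁻¹) * C₂ (J z₀ b s) := by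
  obtain ⟨S, hS, hS'⟩ := exists_S z₀ hb
  have hsum : Summable (fun n : ℕ => C * θ ^ n) :=
    (summable_geometric_of_lt_one h0.le h1).mul_left C
  have hG : DifferentiableOn ℂ (fun r : ℂ => ∑' n : ℕ, X n * r ^ (n + 1)) (Metric.ball 0 1) := by
    refine differentiableOn_tsum_of_summable_norm hsum (fun n => ?_) Metric.isOpen_ball ?_
    · fun_prop
    · intro n r hr
      rw [norm_mul, norm_pow]
      have hr1 : ‖r‖ < 1 := by simpa using hr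
      have h2 : ‖r‖ ^ (n + 1) ≤ 1 := pow_le_one₀ (norm_nonneg _) hr1.le
      calc ‖X n‖ * ‖r‖ ^ (n + 1) ≤ ‖X n‖ * 1 := mul_le_mul_of_nonneg_left h2 (norm_nonneg _)
        _ ≤ C * θ ^ n := by rw [mul_one]; exact hX n
  refine ⟨fun z => (∑' n : ℕ, X n * (S z)⁻¹ ^ (n + 1)) / (b * (S z - (S z)⁻¹)), ?_, ?_⟩
  · intro z hz
    obtain ⟨hn, -, han⟩ := hS z hz
    have hSd : DifferentiableAt ℂ S z := han.differentiableAt
    have hS0 : S z ≠ 0 := by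
      intro h
      rw [h, norm_zero] at hn
      linarith
    have hinv : DifferentiableAt ℂ (fun z => (S z)⁻¹) z := hSd.inv hS0
    have hmem : (S z)⁻¹ ∈ Metric.ball (0 : ℂ) 1 := by
      rw [mem_ball_zero_iff, norm_inv]
      exact inv_lt_one_of_one_lt₀ hn
    have hGd : DifferentiableAt ℂ (fun r : ℂ => ∑' n : ℕ, X n * r ^ (n + 1)) ((S z)⁻¹) :=
      hG.differentiableAt (Metric.isOpen_ball.mem_nhds hmem)
    have hcomp : DifferentiableAt ℂ (fun z => ∑' n : ℕ, X n * (S z)⁻¹ ^ (n + 1)) z :=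
      DifferentiableAt.comp (g := fun r : ℂ => ∑' n : ℕ, X n * r ^ (n + 1)) z hGd hinv
    refine (hcomp.div ((hSd.sub hinv).const_mul b) ?_).differentiableWithinAt
    exact mul_ne_zero hb (sub_inv_ne hn)
  · intro s hs
    obtain ⟨-, h3⟩ := hS' s hs
    have h4 := mul_ne_zero hb (sub_inv_ne hs)
    simp only [h3]
    rw [mul_div_cancel₀ _ h4]

end ED1
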