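import Pool.Agent.H1.ED.Jl

/-!
ROW Cv. Change of variables `z = E ζ` from `St x y` (`0 ≤ x < y`) to `An x y`.
`E` is injective on `St x y` (`E_inj` and `0 < Im < 2π`), the image is `An x y` minus the curve `{E ρ | ρ > 0 real}` (null: it lies on the ray `z₀ + b ℝ`, a line;
`Measure.addHaar_affineSubspace` or the image of a null set of the line `Im ζ = 0`), `det (fderiv) = ‖dE‖²` (`Complex` multiplication;
search `LinearMap.det_mulLeft`/`Complex.det...`, in `MDM/F.lean` the theorem `rflD_det` is similar).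
`MeasureTheory.integral_image_eq_integral_abs_det_fderiv_smul`, `integrableOn_image_iff_integrableOn_abs_det_fderiv_smul`.
-/

set_option autoImplicit false

namespace ED1

open Complex Set Filter Topology MeasureTheory
open scoped ComplexConjugate ContDiff Real

theorem cv_det (c : ℂ) : |(c • (1 : ℂ →L[ℝ] ℂ)).det| = ‖c‖ ^ 2 := by
  have h : (c • (1 : ℂ →L[ℝ] ℂ)).det = c.re ^ 2 + c.im ^ 2 := by
    change LinearMap.det ((c • (1 : ℂ →L[ℝ] ℂ) : ℂ →L[ℝ] ℂ) : ℂ →ₗ[ℝ] ℂ) = _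
    rw [← LinearMap.det_toMatrix Complex.basisOneI, Matrix.det_fin_two]
    simp [LinearMap.toMatrix_apply, Complex.coe_basisOneI]
    ring
  rw [h, Complex.sq_norm, Complex.normSq_apply, abs_of_nonneg (by positivity)]
  ring

theorem cv_meas (x y : ℝ) : MeasurableSet (St x y) := by
  have h1 : Measurable (fun ζ : ℂ => ζ.re) := Complex.measurable_re
  have h2 : Measurable (fun ζ : ℂ => ζ.im) := Complex.measurable_im
  exact (measurableSet_lt measurable_const h1).inter ((measurableSet_lt h1 measurable_const).inter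
    ((measurableSet_lt measurable_const h2).inter (measurableSet_lt h2 measurable_const)))

theorem cv_inj {z₀ b : ℂ} (hb : b ≠ 0) {x y : ℝ} (hx : 0 ≤ x) : InjOn (E z₀ b) (St x y) := by
  rintro ζ ⟨h1, -, h3, h4⟩ ζ' ⟨h1', -, h3', h4'⟩ he
  have h5 := E_inj hb (hx.trans_lt h1) (hx.trans h1'.le) he
  obtain ⟨n, hn⟩ := Complex.exp_eq_exp_iff_exists_int.1 h5
  have him : ζ.im = ζ'.im + n * (2 * π) := by
    have := congrArg Complex.im hn
    simpa using this
  have hn0 : n = 0 := by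
    have hpi := Real.pi_pos
    have h6 : (n : ℝ) < 1 := by
      by_contra hc
      push Not at hc
      nlinarith
    have h7 : (-1 : ℝ) < n := by
      by_contra hc
      push Not at hc
      nlinarith
    have h8 : n < 1 := by exact_mod_cast h6
    have h9 : -1 < n := by exact_mod_cast h7
    omega
  rw [hn, hn0]
  simp

theorem cv_line (z₀ b : ℂ) : volume {z : ℂ | ∃ t : ℝ, z = z₀ + b * t} = 0 := by
  have h1 : {z : ℂ | ∃ t : ℝ, z = z₀ + b * t} ⊆ (AffineSubspace.mk' z₀ (Submodule.span ℝ {b}) : Set ℂ) := by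
    rintro z ⟨t, rfl⟩
    rw [SetLike.mem_coe, AffineSubspace.mem_mk']
    rw [Submodule.mem_span_singleton]
    refine ⟨t, ?_⟩
    simp [mul_comm]
  refine measure_mono_null h1 (Measure.addHaar_affineSubspace volume _ ?_)
  intro h
  have h2 : (AffineSubspace.mk' z₀ (Submodule.span ℝ {b})).direction = ⊤ := by
    rw [h, AffineSubspace.direction_top]
  rw [AffineSubspace.direction_mk'] at h2
  have h3 : Module.finrank ℝ (Submodule.span ℝ {b} : Submodule ℝ ℂ) ≤ 1 := by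
    refine (finrank_span_le_card (R := ℝ) ({b} : Set ℂ)).trans ?_
    simp
  rw [h2, finrank_top, Complex.finrank_real_complex] at h3
  omega

theorem cv_image {z₀ b : ℂ} (hb : b ≠ 0) {x y : ℝ} (hx : 0 ≤ x) (hy : 0 ≤ y) :
    (E z₀ b '' St x y : Set ℂ) =ᵐ[volume] An z₀ b x y := by
  refine Filter.EventuallyLE.antisymm ?_ ?_
  · refine HasSubset.Subset.eventuallyLE ?_
    rintro _ ⟨ζ, ⟨h1, h2, -, -⟩, rfl⟩
    exact (E_mem_An hb hx hy (hx.trans h1.le)).2 ⟨h1, h2⟩
  · rw [ae_le_set]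
    refine measure_mono_null ?_ (cv_line z₀ b)
    rintro z ⟨hz, hz2⟩
    obtain ⟨ζ, h1, h2, h3, rfl⟩ := exists_E hb z₀ z
    have h4 := (E_mem_An hb hx hy h1).1 hz
    rcases h2.lt_or_eq with h5 | h5
    · exact absurd ⟨ζ, ⟨h4.1, h4.2, h5, h3⟩, rfl⟩ hz2
    · refine ⟨Real.exp ζ.re + Real.exp (-ζ.re), ?_⟩
      rw [E_eq]
      have h6 : ζ = (ζ.re : ℂ) := by
        apply Complex.ext <;> simp [← h5]
      rw [h6]
      simp

theorem cv_fderiv (z₀ b : ℂ) (s : Set ℂ) (ζ : ℂ) :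
    HasFDerivWithinAt (E z₀ b) (dE b ζ • (1 : ℂ →L[ℝ] ℂ)) s ζ :=
  (hasDeriv_E z₀ b ζ).complexToReal_fderiv.hasFDerivWithinAt

theorem cv_int {z₀ b : ℂ} (hb : b ≠ 0) {x y : ℝ} (hx : 0 ≤ x) (hy : 0 ≤ y) (F : ℂ → ℂ) :
    IntegrableOn F (An z₀ b x y) ↔ IntegrableOn (fun ζ => ((‖dE b ζ‖ ^ 2 : ℝ) : ℂ) * F (E z₀ b ζ)) (St x y) := by
  rw [← integrableOn_congr_set_ae (cv_image hb hx hy),
    integrableOn_image_iff_integrableOn_abs_det_fderiv_smul volume (cv_meas x y)
      (fun ζ _ => cv_fderiv z₀ b _ ζ) (cv_inj hb hx)]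
  simp only [cv_det, Complex.real_smul]

theorem cv {z₀ b : ℂ} (hb : b ≠ 0) {x y : ℝ} (hx : 0 ≤ x) (hy : 0 ≤ y) (F : ℂ → ℂ) :
    ∫ z in An z₀ b x y, F z = ∫ ζ in St x y, ((‖dE b ζ‖ ^ 2 : ℝ) : ℂ) * F (E z₀ b ζ) := by
  rw [← setIntegral_congr_set (cv_image hb hx hy),
    integral_image_eq_integral_abs_det_fderiv_smul volume (cv_meas x y)
      (fun ζ _ => cv_fderiv z₀ b _ ζ) (cv_inj hb hx)]
  simp only [cv_det, Complex.real_smul]

end ED1
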