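import Pool.Agent.H1.ED.Jl

/-!
ROW Cw. Null sets and Fubini.
`De_ae`: the segment is a null set, `De y = An 0 y ∪ Sg` (`mem_Sg_iff`, `lx_zero_le`). `De_An_ae`: the level set `lv = lx x` is null: it is in the frontier of the convex set `De x`
(`Convex.addHaar_frontier`).
`St_int`: Fubini (`Complex.measurableEquivRealProd`, `Complex.volume_preserving_equiv_real_prod`, `integral_prod`).
-/

set_option autoImplicit false

namespace ED1

open Complex Set Filter Topology MeasureTheory
open scoped ComplexConjugate ContDiff Real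

private theorem Sg_null (z₀ b : ℂ) : volume (Sg z₀ b) = 0 := by
  have hne : affineSpan ℝ ({z₀ - 2 * b, z₀ + 2 * b} : Set ℂ) ≠ ⊤ := by
    intro h
    have h1 : Module.finrank ℝ (vectorSpan ℝ ({z₀ - 2 * b, z₀ + 2 * b} : Set ℂ)) ≤ 1 :=
      collinear_iff_finrank_le_one.1 (collinear_pair ℝ _ _)
    rw [← direction_affineSpan, h, AffineSubspace.direction_top, finrank_top,
      Complex.finrank_real_complex] at h1
    omega
  refine measure_mono_null ?_ (Measure.addHaar_affineSubspace volume _ hne)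
  intro z hz
  exact mem_segment_iff_wbtw.1 hz |>.mem_affineSpan

theorem De_ae {z₀ b : ℂ} (hb : b ≠ 0) {y : ℝ} (hy : 0 < y) : De z₀ b y =ᵐ[volume] An z₀ b 0 y := by
  have h0 : lx b 0 < lx b y := (lx_lt hb le_rfl hy.le).2 hy
  have hD : De z₀ b y = An z₀ b 0 y ∪ Sg z₀ b := by
    ext z
    simp only [Set.mem_union, mem_Sg_iff, De, An, Set.mem_setOf_eq]
    constructor
    · intro h
      rcases (lx_zero_le z₀ b z).lt_or_eq with h1 | h1
      · exact Or.inl ⟨h1, h⟩
      · exact Or.inr h1.symm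
    · rintro (h | h)
      · exact h.2
      · rw [h]; exact h0
  rw [hD]
  exact union_ae_eq_left_of_ae_eq_empty (ae_eq_empty.2 (Sg_null z₀ b))

theorem De_An_ae {z₀ b : ℂ} (hb : b ≠ 0) {x y : ℝ} (hx : 0 < x) (hxy : x < y) :
    De z₀ b y =ᵐ[volume] (De z₀ b x ∪ An z₀ b x y : Set ℂ) := by
  have h0 : lx b 0 < lx b x := (lx_lt hb le_rfl hx.le).2 hx
  have h1 : lx b x < lx b y := (lx_lt hb hx.le (hx.trans hxy).le).2 hxy
  have hlv : lv z₀ b z₀ = lx b 0 := by
    have e1 : z₀ - (z₀ + 2 * b) = -(2 * b) := by ring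
    have e2 : z₀ - (z₀ - 2 * b) = 2 * b := by ring
    rw [lv, lx, e1, e2, norm_neg, norm_mul, neg_zero, Real.exp_zero]
    have h2 : ‖(2 : ℂ)‖ = 2 := by norm_num
    rw [h2]; ring
  have hcx : ConvexOn ℝ Set.univ (lv z₀ b) := by
    have := (convexOn_dist (z₀ + 2 * b) (convex_univ (𝕜 := ℝ) (E := ℂ))).add
      (convexOn_dist (z₀ - 2 * b) (convex_univ (𝕜 := ℝ) (E := ℂ)))
    refine this.congr ?_
    intro z _
    simp only [Pi.add_apply, lv, dist_eq_norm]
  have hD : De z₀ b y = (De z₀ b x ∪ An z₀ b x y) ∪ {z | lv z₀ b z = lx b x} := by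
    ext z
    simp only [Set.mem_union, De, An, Set.mem_setOf_eq]
    constructor
    · intro h
      rcases lt_trichotomy (lv z₀ b z) (lx b x) with h2 | h2 | h2
      · exact Or.inl (Or.inl h2)
      · exact Or.inr h2
      · exact Or.inl (Or.inr ⟨h2, h⟩)
    · rintro ((h | h) | h)
      · exact h.trans h1
      · exact h.2
      · rw [h]; exact h1
  have hnull : volume {z | lv z₀ b z = lx b x} = 0 := by
    refine measure_mono_null ?_ ((De_convex z₀ b x).addHaar_frontier volume)
    intro z hz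
    rw [Set.mem_setOf_eq] at hz
    rw [(De_open z₀ b x).frontier_eq]
    refine ⟨?_, ?_⟩
    · have hsub : openSegment ℝ z z₀ ⊆ De z₀ b x := by
        rintro w ⟨s, t, hs, ht, hst, rfl⟩
        have h3 := hcx.2 (Set.mem_univ z) (Set.mem_univ z₀) hs.le ht.le hst
        simp only [smul_eq_mul] at h3
        rw [De, Set.mem_setOf_eq]
        refine lt_of_le_of_lt h3 ?_
        rw [hz, hlv]
        have h4 : t * lx b 0 < t * lx b x := mul_lt_mul_of_pos_left h0 ht
        calc s * lx b x + t * lx b 0 < s * lx b x + t * lx b x := by linarith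
          _ = lx b x := by rw [← add_mul, hst, one_mul]
      have h5 := closure_mono hsub
      rw [closure_openSegment] at h5
      exact h5 (left_mem_segment ℝ z z₀)
    · intro h
      rw [De, Set.mem_setOf_eq, hz] at h
      exact lt_irrefl _ h
  rw [hD]
  exact union_ae_eq_left_of_ae_eq_empty (ae_eq_empty.2 hnull)

theorem St_int {x y : ℝ} (hxy : x ≤ y) {f : ℂ → ℂ} (hf : IntegrableOn f (St x y)) :
    ∫ ζ in St x y, f ζ = ∫ ρ in x..y, ∫ t in (0 : ℝ)..(2 * π), f (ρ + t * I) := by
  have hpi : (0 : ℝ) ≤ 2 * π := by positivity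
  have hmp := Complex.volume_preserving_equiv_real_prod
  have hemb := Complex.measurableEquivRealProd.measurableEmbedding
  have hset : St x y = Complex.measurableEquivRealProd ⁻¹' (Set.Ioo x y ×ˢ Set.Ioo 0 (2 * π)) := by
    ext ζ
    simp only [St, Set.mem_setOf_eq, Set.mem_preimage, Set.mem_prod, Set.mem_Ioo,
      Complex.measurableEquivRealProd_apply]
    tauto
  have hf' : ∀ ζ : ℂ, f ζ = (fun p : ℝ × ℝ => f (p.1 + p.2 * I)) (Complex.measurableEquivRealProd ζ) := by
    intro ζ
    simp only [Complex.measurableEquivRealProd_apply]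
    rw [Complex.re_add_im]
  have hff : f = (fun p : ℝ × ℝ => f (p.1 + p.2 * I)) ∘ Complex.measurableEquivRealProd := funext hf'
  have h1 : ∫ ζ in St x y, f ζ = ∫ p in Set.Ioo x y ×ˢ Set.Ioo 0 (2 * π), f (p.1 + p.2 * I) := by
    rw [hset, ← hmp.setIntegral_preimage_emb hemb]
    refine integral_congr_ae (Filter.Eventually.of_forall fun ζ => ?_)
    exact hf' ζ
  have h2 : IntegrableOn (fun p : ℝ × ℝ => f (p.1 + p.2 * I)) (Set.Ioo x y ×ˢ Set.Ioo 0 (2 * π))
      (volume.prod volume) := by
    rw [hset, hff] at hf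
    exact (hmp.integrableOn_comp_preimage hemb).1 hf
  rw [h1, Measure.volume_eq_prod, setIntegral_prod _ h2, intervalIntegral.integral_of_le hxy,
    integral_Ioc_eq_integral_Ioo]
  refine setIntegral_congr_fun measurableSet_Ioo fun ρ _ => ?_
  simp only
  rw [intervalIntegral.integral_of_le hpi, integral_Ioc_eq_integral_Ioo]

end ED1
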