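import Mathlib

/-!
# ED: ellipses and one measurement (MP_2de571): definitions

Elliptic coordinates: `E z₀ b ζ = z₀ + b (e^ζ + e^(-ζ))`, foci `z₀ ± 2 b`; the line `Re ζ = x` is the ellipse of parameter `x`.
The functional `Fc F x m` is the Fourier integral of the field `F dz` on this ellipse.
-/

set_option autoImplicit false

namespace ED1

open Complex Set Filter Topology MeasureTheory
open scoped ComplexConjugate ContDiff Real

/-- Joukowski map -/
noncomputable def J (z₀ b s : ℂ) : ℂ := z₀ + b * (s + s⁻¹)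

/-- elliptic coordinates -/
noncomputable def E (z₀ b ζ : ℂ) : ℂ := J z₀ b (exp ζ)

/-- the derivative of `E` -/
noncomputable def dE (b ζ : ℂ) : ℂ := b * (exp ζ - exp (-ζ))

/-- sum of the distances to the foci -/
noncomputable def lv (z₀ b z : ℂ) : ℝ := ‖z - (z₀ + 2 * b)‖ + ‖z - (z₀ - 2 * b)‖

/-- the value of `lv` on the ellipse of parameter `x` -/
noncomputable def lx (b : ℂ) (x : ℝ) : ℝ := 2 * ‖b‖ * (Real.exp x + Real.exp (-x))

/-- the open ellipse of parameter `x` -/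
def De (z₀ b : ℂ) (x : ℝ) : Set ℂ := {z | lv z₀ b z < lx b x}

/-- the region between the ellipses of parameters `x` and `y` -/
def An (z₀ b : ℂ) (x y : ℝ) : Set ℂ := {z | lx b x < lv z₀ b z ∧ lv z₀ b z < lx b y}

/-- a period of the strip `x < Re ζ < y` -/
def St (x y : ℝ) : Set ℂ := {ζ | x < ζ.re ∧ ζ.re < y ∧ 0 < ζ.im ∧ ζ.im < 2 * π}

/-- the focal segment -/
def Sg (z₀ b : ℂ) : Set ℂ := segment ℝ (z₀ - 2 * b) (z₀ + 2 * b)

/-- the polynomial with `Cn (E ζ) = e^(nζ) + e^(-nζ)` -/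
noncomputable def Cn (z₀ b : ℂ) (n : ℕ) (z : ℂ) : ℂ :=
  (Polynomial.Chebyshev.C ℂ (n : ℤ)).eval ((z - z₀) / b)

/-- its derivative -/
noncomputable def dC (z₀ b : ℂ) (n : ℕ) (z : ℂ) : ℂ :=
  (Polynomial.derivative (Polynomial.Chebyshev.C ℂ (n : ℤ))).eval ((z - z₀) / b) / b

/-- Fourier integral of the field `F` on the ellipse of parameter `x` -/
noncomputable def Fc (z₀ b : ℂ) (F : ℂ → ℂ) (x : ℝ) (m : ℤ) : ℂ :=
  ∫ t in (0 : ℝ)..(2 * π), F (E z₀ b (x + t * I)) * dE b (x + t * I) * exp (-(m * (x + t * I)))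

end ED1
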