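import Pool.Agent.H1.ED.Jl

/-!
ROW Dd. Small facts. `Dd`: the closed sets `{lv ≤ lx b (x + 1/(n+1))}` are compact and decrease to `{lv ≤ lx b x} ⊆ Ω` (`lx` continuous), `Ω` open: one of them is in `Ω`
(`IsCompact.elim_directed_family_closed_of_isCompact` or the infimum of `lv` on the compact set `{lv ≤ lx (x+1)} \ Ω`, which is `> lx x`).
`out_preconn`: `{lx b x < lv}` is the image of the convex set `{Re ζ > x}` under `E` (`exists_E`, `lv_E`).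
`exists_par`: `f₁ ≠ f₂`, `2a > ‖f₁ - f₂‖`; `z₀ = (f₁+f₂)/2`, `b = (f₁-f₂)/4`, `e^x + e^(-x) = a/‖b‖ > 2` has a solution `x > 0` (`Real.arcosh`, or the quadratic equation);
`lx b (2x) = 2‖b‖((e^x + e^(-x))² - 2) = 2 (4 a²/‖f₁-f₂‖ - ‖f₁-f₂‖/2)`.
-/

set_option autoImplicit false

namespace ED1

open Complex Set Filter Topology MeasureTheory
open scoped ComplexConjugate ContDiff Real

theorem lv_cont' (z₀ b : ℂ) : Continuous (lv z₀ b) := by
  have : lv z₀ b = fun z => ‖z - (z₀ + 2 * b)‖ + ‖z - (z₀ - 2 * b)‖ := rfl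
  rw [this]
  fun_prop

theorem lx_cont' (b : ℂ) : Continuous (lx b) := by
  have : lx b = fun x => 2 * ‖b‖ * (Real.exp x + Real.exp (-x)) := rfl
  rw [this]
  fun_prop

theorem Dd {z₀ b : ℂ} (hb : b ≠ 0) {x : ℝ} (hx : 0 ≤ x) {Ω : Set ℂ} (hΩ : IsOpen Ω)
    (h : {z | lv z₀ b z ≤ lx b x} ⊆ Ω) : ∃ y, x < y ∧ De z₀ b y ⊆ Ω := by
  set K : Set ℂ := {z | lv z₀ b z ≤ lx b (x + 1)} ∩ Ωᶜ with hK
  have hKc : IsCompact K := by
    refine Metric.isCompact_of_isClosed_isBounded ?_ ?_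
    · exact (isClosed_le (lv_cont' z₀ b) continuous_const).inter hΩ.isClosed_compl
    · refine (Metric.isBounded_closedBall (x := z₀ + 2 * b) (r := lx b (x + 1))).subset ?_
      intro z hz
      rw [Metric.mem_closedBall, dist_eq_norm]
      have h1 : lv z₀ b z ≤ lx b (x + 1) := hz.1
      rw [lv] at h1
      have := norm_nonneg (z - (z₀ - 2 * b))
      linarith
  rcases K.eq_empty_or_nonempty with he | hne
  · refine ⟨x + 1, by linarith, ?_⟩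
    intro z hz
    by_contra hzΩ
    have hz' : lv z₀ b z < lx b (x + 1) := hz
    have : z ∈ K := ⟨hz'.le, hzΩ⟩
    rw [he] at this
    exact this
  · obtain ⟨w, hw, hmin⟩ := hKc.exists_isMinOn hne (lv_cont' z₀ b).continuousOn
    have hlt : lx b x < lv z₀ b w := by
      by_contra hcon
      exact hw.2 (h (not_lt.1 hcon))
    have h1 : ∀ᶠ t in 𝓝[>] x, lx b t < lv z₀ b w :=
      ((lx_cont' b).continuousAt.eventually (gt_mem_nhds hlt)).filter_mono nhdsWithin_le_nhds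
    have h2 : ∀ᶠ t in 𝓝[>] x, t ∈ Ioo x (x + 1) := Ioo_mem_nhdsGT (by linarith)
    obtain ⟨y, hy1, hy2⟩ := (h1.and h2).exists
    refine ⟨y, hy2.1, ?_⟩
    intro z hz
    by_contra hzΩ
    have hz' : lv z₀ b z < lx b y := hz
    have h3 : lx b y < lx b (x + 1) := (lx_lt hb (hx.trans hy2.1.le) (by linarith)).2 hy2.2
    have hzK : z ∈ K := ⟨(hz'.trans h3).le, hzΩ⟩
    have h4 : lv z₀ b w ≤ lv z₀ b z := hmin hzK
    linarith

theorem out_preconn {z₀ b : ℂ} (hb : b ≠ 0) {x : ℝ} (hx : 0 ≤ x) : IsPreconnected {z | lx b x < lv z₀ b z} := by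
  have h1 : {z | lx b x < lv z₀ b z} = E z₀ b '' {ζ : ℂ | x < ζ.re} := by
    ext z
    constructor
    · intro hz
      obtain ⟨ζ, h0, _, _, hE⟩ := exists_E hb z₀ z
      refine ⟨ζ, ?_, hE⟩
      have hz' : lx b x < lv z₀ b z := hz
      rw [← hE, lv_E] at hz'
      exact (lx_lt hb hx h0).1 hz'
    · rintro ⟨ζ, hζ, rfl⟩
      have hζ' : x < ζ.re := hζ
      have : lx b x < lv z₀ b (E z₀ b ζ) := by
        rw [lv_E]
        exact (lx_lt hb hx (hx.trans hζ'.le)).2 hζ'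
      exact this
  rw [h1]
  refine (convex_halfSpace_re_gt x).isPreconnected.image _ ?_
  intro ζ _
  exact (hasDeriv_E z₀ b ζ).continuousAt.continuousWithinAt

theorem exists_par {f₁ f₂ : ℂ} (hf : f₁ ≠ f₂) {a : ℝ} (ha : ‖f₁ - f₂‖ < 2 * a) :
    ∃ (z₀ b : ℂ) (x : ℝ), b ≠ 0 ∧ 0 < x ∧ f₁ = z₀ + 2 * b ∧ f₂ = z₀ - 2 * b ∧ lx b x = 2 * a ∧
      lx b (2 * x) = 2 * (4 * a ^ 2 / ‖f₁ - f₂‖ - ‖f₁ - f₂‖ / 2) := by
  have hd : 0 < ‖f₁ - f₂‖ := norm_pos_iff.2 (sub_ne_zero.2 hf)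
  have hq : 1 < 2 * a / ‖f₁ - f₂‖ := by rw [lt_div_iff₀ hd]; linarith
  have hnb : ‖(f₁ - f₂) / 4‖ = ‖f₁ - f₂‖ / 4 := by
    rw [norm_div]
    norm_num
  have hc : Real.cosh (Real.arcosh (2 * a / ‖f₁ - f₂‖)) = 2 * a / ‖f₁ - f₂‖ := Real.cosh_arcosh hq.le
  have hlx : ∀ t : ℝ, lx ((f₁ - f₂) / 4) t = ‖f₁ - f₂‖ * Real.cosh t := by
    intro t
    rw [lx, hnb, Real.cosh_eq]
    ring
  refine ⟨(f₁ + f₂) / 2, (f₁ - f₂) / 4, Real.arcosh (2 * a / ‖f₁ - f₂‖), ?_, Real.arcosh_pos hq, by ring, by ring, ?_, ?_⟩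
  · exact div_ne_zero (sub_ne_zero.2 hf) (by norm_num)
  · rw [hlx, hc]
    field_simp
  · rw [hlx, Real.cosh_two_mul, Real.sinh_sq, hc]
    field_simp
    ring

end ED1
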