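import Pool.Agent.H1.ED.Fo

/-!
ROW Fz. Completeness.
* `Fc_zero`: for fixed `0 < x < y` the continuous `2π`-periodic function `t ↦ F(E(x+it)) dE(x+it)` has all Fourier coefficients zero, so it is zero
  (Mathlib: Fourier coefficients on `AddCircle (2π)`, `fourierCoeff_eq_intervalIntegral`, completeness `hasSum_fourier_series_L2` / `tsum_sq_fourierCoeff`); `dE ≠ 0`; so `F = 0` on
  `De y` minus the segment (`exists_E`), and on `De y` by continuity (the segment has empty interior) or by the identity theorem on the convex set `De y`.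
NOTE: the hypothesis `0 < y` is needed (for `y < 0` the set `De y` is not empty while `h0` is vacuous), so it has been added as the explicit argument `hy` after `y`.
-/

set_option autoImplicit false

namespace ED1

open Complex Set Filter Topology MeasureTheory
open scoped ComplexConjugate ContDiff Real

/-- a continuous periodic function whose Fourier integrals are zero -/
private lemma Fz_periodic {g : ℝ → ℂ} (hg : Continuous g) (hp : ∀ t, g (t + 2 * π) = g t)
    (h0 : ∀ m : ℤ, ∫ t in (0 : ℝ)..(2 * π), g t * exp (-(m * (t * I))) = 0) (t : ℝ) : g t = 0 := by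
  have hper : Function.Periodic g (2 * π) := hp
  have hT : Fact (0 < 2 * π) := ⟨by positivity⟩
  obtain ⟨f, hf⟩ : ∃ f : C(AddCircle (2 * π), ℂ), ∀ x : ℝ, f (x : AddCircle (2 * π)) = g x :=
    ⟨⟨hper.lift, continuous_coinduced_dom.mpr hg⟩, fun x => rfl⟩
  have hco : ∀ n : ℤ, fourierCoeff (f : AddCircle (2 * π) → ℂ) n = 0 := by
    intro n
    rw [fourierCoeff_eq_intervalIntegral _ n 0, zero_add]
    have h1 : ∀ x : ℝ, (fourier (-n) (x : AddCircle (2 * π)) : ℂ) • f (x : AddCircle (2 * π)) =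
        g x * exp (-(n * (x * I))) := by
      intro x
      rw [fourier_coe_apply, hf, smul_eq_mul, mul_comm]
      congr 2
      have h2 : ((2 * π : ℝ) : ℂ) ≠ 0 := by
        rw [Ne, Complex.ofReal_eq_zero]
        positivity
      rw [div_eq_iff h2]
      push_cast
      ring
    rw [intervalIntegral.integral_congr (fun x _ => h1 x), h0 n, smul_zero]
  have hsum : Summable (fourierCoeff (f : AddCircle (2 * π) → ℂ)) := by
    have h1 : fourierCoeff (f : AddCircle (2 * π) → ℂ) = fun _ => 0 := funext hco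
    rw [h1]
    exact summable_zero
  have h3 := hasSum_fourier_series_of_summable hsum
  have h4 : HasSum (fun i : ℤ => fourierCoeff (f : AddCircle (2 * π) → ℂ) i •
      (fourier i : C(AddCircle (2 * π), ℂ))) 0 := by
    have h5 : (fun i : ℤ => fourierCoeff (f : AddCircle (2 * π) → ℂ) i •
        (fourier i : C(AddCircle (2 * π), ℂ))) = fun _ => 0 := by
      funext i
      rw [hco i, zero_smul]
    rw [h5]
    exact hasSum_zero
  have h6 : f = 0 := h3.unique h4
  rw [← hf t, h6]
  rfl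

private lemma Fz_mem {z₀ b : ℂ} (hb : b ≠ 0) {y s : ℝ} (hs : 0 ≤ s) (hsy : s < y) (t : ℝ) :
    E z₀ b (s + t * I) ∈ De z₀ b y := by
  rw [E_mem_De hb (hs.trans hsy.le)]
  have h1 : ((s : ℂ) + t * I).re = s := by simp
  rw [h1, abs_of_nonneg hs]
  exact hsy

private lemma Fz_line {z₀ b : ℂ} (hb : b ≠ 0) {y : ℝ} {F : ℂ → ℂ}
    (hF : DifferentiableOn ℂ F (De z₀ b y))
    (h0 : ∀ (s : ℝ) (m : ℤ), 0 < s → s < y → Fc z₀ b F s m = 0) {s : ℝ} (hs : 0 < s) (hsy : s < y)
    (t : ℝ) : F (E z₀ b (s + t * I)) = 0 := by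
  have hEc : Continuous (E z₀ b) := by
    rw [continuous_iff_continuousAt]
    exact fun ζ => (hasDeriv_E z₀ b ζ).continuousAt
  have hlin : Continuous (fun t : ℝ => (s : ℂ) + t * I) := by fun_prop
  have hcont : Continuous (fun t : ℝ => F (E z₀ b (s + t * I)) * dE b (s + t * I)) := by
    refine Continuous.mul ?_ ?_
    · exact hF.continuousOn.comp_continuous (hEc.comp hlin) fun t => Fz_mem hb hs.le hsy t
    · unfold dE
      fun_prop
  have hp : ∀ t : ℝ, F (E z₀ b (s + (t + 2 * π : ℝ) * I)) * dE b (s + (t + 2 * π : ℝ) * I) =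
      F (E z₀ b (s + t * I)) * dE b (s + t * I) := by
    intro t
    have h1 : (s : ℂ) + (t + 2 * π : ℝ) * I = (s + t * I) + 2 * π * I := by
      push_cast
      ring
    rw [h1, E_per, dE_per]
  have h1 : ∀ m : ℤ, ∫ t in (0 : ℝ)..(2 * π), (F (E z₀ b (s + t * I)) * dE b (s + t * I)) *
      exp (-(m * (t * I))) = 0 := by
    intro m
    have h2 := h0 s m hs hsy
    unfold Fc at h2
    have h3 : ∀ t : ℝ, F (E z₀ b (s + t * I)) * dE b (s + t * I) * exp (-(m * (s + t * I))) =
        exp (-(m * s)) * (F (E z₀ b (s + t * I)) * dE b (s + t * I) * exp (-(m * (t * I)))) := by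
      intro t
      have h4 : exp (-((m : ℂ) * (s + t * I))) = exp (-(m * s)) * exp (-(m * (t * I))) := by
        rw [← Complex.exp_add]
        congr 1
        ring
      rw [h4]
      ring
    rw [intervalIntegral.integral_congr (fun x _ => h3 x), intervalIntegral.integral_const_mul] at h2
    exact (mul_eq_zero.1 h2).resolve_left (Complex.exp_ne_zero _)
  have h5 := Fz_periodic hcont hp h1 t
  have h6 : dE b ((s : ℂ) + t * I) ≠ 0 := by
    apply dE_ne hb
    simpa using hs
  exact (mul_eq_zero.1 h5).resolve_right h6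

theorem Fc_zero {z₀ b : ℂ} (hb : b ≠ 0) {y : ℝ} (hy : 0 < y) {F : ℂ → ℂ}
    (hF : DifferentiableOn ℂ F (De z₀ b y))
    (h0 : ∀ (s : ℝ) (m : ℤ), 0 < s → s < y → Fc z₀ b F s m = 0) : ∀ z ∈ De z₀ b y, F z = 0 := by
  intro z hz
  obtain ⟨ζ, h1, h2, h3, rfl⟩ := exists_E hb z₀ z
  have hζ : ζ = (ζ.re : ℂ) + ζ.im * I := (Complex.re_add_im ζ).symm
  have h4 := (E_mem_De hb hy.le).1 hz
  rw [abs_of_nonneg h1] at h4
  rcases h1.lt_or_eq with h5 | h5
  · rw [hζ]
    exact Fz_line hb hF h0 h5 h4 ζ.im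
  · have h6 : ζ = ζ.im * I := by
      rw [← h5, Complex.ofReal_zero, zero_add] at hζ
      exact hζ
    have hEc : Continuous (E z₀ b) := by
      rw [continuous_iff_continuousAt]
      exact fun ζ => (hasDeriv_E z₀ b ζ).continuousAt
    have hlin : Continuous (fun s : ℝ => E z₀ b ((s : ℂ) + ζ.im * I)) :=
      hEc.comp (by fun_prop)
    have h7 : Tendsto (fun s : ℝ => E z₀ b ((s : ℂ) + ζ.im * I)) (𝓝[>] 0) (𝓝 (E z₀ b ζ)) := by
      have e : E z₀ b (((0 : ℝ) : ℂ) + ζ.im * I) = E z₀ b ζ := by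
        rw [Complex.ofReal_zero, zero_add, ← h6]
      have h8 := (hlin.tendsto 0).mono_left (nhdsWithin_le_nhds (s := Set.Ioi (0 : ℝ)))
      rwa [e] at h8
    have h9 : ContinuousAt F (E z₀ b ζ) :=
      (hF.differentiableAt ((De_open z₀ b y).mem_nhds hz)).continuousAt
    have h10 : Tendsto (fun s : ℝ => F (E z₀ b ((s : ℂ) + ζ.im * I))) (𝓝[>] 0)
        (𝓝 (F (E z₀ b ζ))) := h9.tendsto.comp h7
    have h11 : Tendsto (fun s : ℝ => F (E z₀ b ((s : ℂ) + ζ.im * I))) (𝓝[>] 0) (𝓝 0) := by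
      refine tendsto_const_nhds.congr' ?_
      have h12 : Ioo (0 : ℝ) y ∈ 𝓝[>] (0 : ℝ) := Ioo_mem_nhdsGT hy
      filter_upwards [h12] with s hs
      exact (Fz_line hb hF h0 hs.1 hs.2 ζ.im).symm
    exact tendsto_nhds_unique h10 h11

end ED1
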