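import Pool.Agent.H1.ED.Fo
import Pool.Agent.H1.ED.Cv
import Pool.Agent.H1.ED.Cw

/-!
ROW Mo. The moments of the inner field. `De_ae`, `cv` with `x = 0`, `St_int`:
`∫_{De y} conj(F) dC n = ∫_0^y ∫_0^{2π} ‖dE‖² conj(F(E)) dC n (E) dt dρ`, and with `g = F(E) dE`: `‖dE‖² conj(F(E)) dC n (E) = conj(g) n (e^(nζ) - e^(-nζ))` (`dC_E`).
`∫_0^{2π} conj(g) e^(nζ) dt = e^(2nρ) conj (Fc ρ n)` (as `e^(n(ρ+it)) = e^(2nρ) conj (e^(-n(ρ+it)))`), `∫ conj(g) e^(-nζ) dt = e^(-2nρ) conj (Fc ρ (-n)) = -e^(-2nρ) conj (Fc ρ n)` (`Fc_anti`).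
`Fc ρ n = Fc x n` (`Fc_const_in`); `n ∫_0^y (e^(2nρ) + e^(-2nρ)) dρ = (e^(2ny) - e^(-2ny))/2`.
Integrability: `F` square integrable, `dC n` bounded on the bounded set `De y`.
-/

set_option autoImplicit false

namespace ED1

open Complex Set Filter Topology MeasureTheory
open scoped ComplexConjugate ContDiff Real

theorem Mo_dC_cont (z₀ b : ℂ) (n : ℕ) : Continuous (dC z₀ b n) := by
  unfold dC
  refine Continuous.div_const ?_ _
  exact (Polynomial.continuous _).comp (by fun_prop)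

theorem Mo_integrable {z₀ b : ℂ} {y : ℝ} {F : ℂ → ℂ}
    (hF2 : MemLp F 2 (volume.restrict (De z₀ b y))) (n : ℕ) :
    IntegrableOn (fun z => conj (F z) * dC z₀ b n z) (De z₀ b y) := by
  have hfin : IsFiniteMeasure (volume.restrict (De z₀ b y)) :=
    ⟨by rw [Measure.restrict_apply_univ]; exact (De_bdd z₀ b y).measure_lt_top⟩
  have hF1 : Integrable F (volume.restrict (De z₀ b y)) := hF2.integrable one_le_two
  have hFc : Integrable (fun z => conj (F z)) (volume.restrict (De z₀ b y)) := by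
    refine hF1.norm.mono' (continuous_conj.comp_aestronglyMeasurable hF1.aestronglyMeasurable) ?_
    exact Eventually.of_forall fun z => by simp
  obtain ⟨C, hC⟩ : ∃ C : ℝ, ∀ z ∈ De z₀ b y, ‖dC z₀ b n z‖ ≤ C := by
    have hcpt : IsCompact (closure (De z₀ b y)) := (De_bdd z₀ b y).isCompact_closure
    obtain ⟨C, hC⟩ := hcpt.exists_bound_of_continuousOn (Mo_dC_cont z₀ b n).continuousOn
    exact ⟨C, fun z hz => hC z (subset_closure hz)⟩
  refine (hFc.norm.mul_const C).mono' ?_ ?_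
  · exact hFc.aestronglyMeasurable.mul (Mo_dC_cont z₀ b n).aestronglyMeasurable
  · refine (ae_restrict_iff' (De_open z₀ b y).measurableSet).2 (Eventually.of_forall fun z hz => ?_)
    rw [norm_mul]
    exact mul_le_mul_of_nonneg_left (hC z hz) (norm_nonneg _)

theorem Mo_point {b : ℂ} (hb : b ≠ 0) (z₀ : ℂ) (F : ℂ → ℂ) (n : ℕ) (ζ : ℂ) :
    ((‖dE b ζ‖ ^ 2 : ℝ) : ℂ) * (conj (F (E z₀ b ζ)) * dC z₀ b n (E z₀ b ζ)) =
      conj (F (E z₀ b ζ) * dE b ζ) * (n * (exp (n * ζ) - exp (-(n * ζ)))) := by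
  rw [← dC_E hb z₀ n ζ, map_mul]
  have h : ((‖dE b ζ‖ ^ 2 : ℝ) : ℂ) = conj (dE b ζ) * dE b ζ := by
    rw [mul_comm, Complex.mul_conj, Complex.normSq_eq_norm_sq]
  rw [h]
  ring

theorem Mo_cont {z₀ b : ℂ} (hb : b ≠ 0) {y : ℝ} {F : ℂ → ℂ} (hF : DifferentiableOn ℂ F (De z₀ b y))
    {ρ : ℝ} (hρ : |ρ| < y) :
    Continuous (fun t : ℝ => F (E z₀ b (ρ + t * I)) * dE b (ρ + t * I)) := by
  have hy : 0 ≤ y := (abs_nonneg ρ).trans hρ.le
  have hc : Continuous (fun t : ℝ => E z₀ b (ρ + t * I)) := by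
    have : Continuous (E z₀ b) :=
      continuous_iff_continuousAt.2 fun ζ => (hasDeriv_E z₀ b ζ).continuousAt
    exact this.comp (by fun_prop)
  have hd : Continuous (fun t : ℝ => dE b (ρ + t * I)) := by
    unfold dE
    fun_prop
  refine Continuous.mul ?_ hd
  refine hF.continuousOn.comp_continuous hc fun t => ?_
  rw [E_mem_De hb hy]
  simpa using hρ

theorem Mo_inner {z₀ b : ℂ} (hb : b ≠ 0) {y : ℝ} {F : ℂ → ℂ} (hF : DifferentiableOn ℂ F (De z₀ b y))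
    (n : ℕ) {ρ : ℝ} (hρ : |ρ| < y) :
    ∫ t in (0 : ℝ)..(2 * π), conj (F (E z₀ b (ρ + t * I)) * dE b (ρ + t * I)) *
        (n * (exp (n * (ρ + t * I)) - exp (-(n * (ρ + t * I))))) =
      n * (exp (2 * n * ρ) + exp (-(2 * n * ρ))) * conj (Fc z₀ b F ρ n) := by
  have hg := Mo_cont hb hF hρ
  have e1 : ∀ t : ℝ, conj (F (E z₀ b (ρ + t * I)) * dE b (ρ + t * I)) *
      (n * (exp (n * (ρ + t * I)) - exp (-(n * (ρ + t * I))))) =
      n * exp (2 * n * ρ) * conj (F (E z₀ b (ρ + t * I)) * dE b (ρ + t * I) *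
        exp (-(((n : ℤ) : ℂ) * (ρ + t * I)))) -
      n * exp (-(2 * n * ρ)) * conj (F (E z₀ b (ρ + t * I)) * dE b (ρ + t * I) *
        exp (-(((-(n : ℤ) : ℤ) : ℂ) * (ρ + t * I)))) := by
    intro t
    have h1 : exp (n * (ρ + t * I)) = exp (2 * n * ρ) *
        conj (exp (-(((n : ℤ) : ℂ) * (ρ + t * I)))) := by
      rw [← exp_conj, ← exp_add]
      congr 1
      simp only [map_neg, map_mul, map_add, conj_ofReal, conj_I, Int.cast_natCast, map_natCast]
      ring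
    have h2 : exp (-(n * (ρ + t * I))) = exp (-(2 * n * ρ)) *
        conj (exp (-(((-(n : ℤ) : ℤ) : ℂ) * (ρ + t * I)))) := by
      rw [← exp_conj, ← exp_add]
      congr 1
      simp only [map_neg, map_mul, map_add, conj_ofReal, conj_I, Int.cast_natCast, map_natCast,
        Int.cast_neg]
      ring
    rw [h1, h2, map_mul (starRingEnd ℂ) (F _ * dE _ _), map_mul (starRingEnd ℂ) (F _ * dE _ _)]
    ring
  have hi : ∀ m : ℤ, IntervalIntegrable (fun t : ℝ =>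
      conj (F (E z₀ b (ρ + t * I)) * dE b (ρ + t * I) * exp (-((m : ℂ) * (ρ + t * I)))))
      volume 0 (2 * π) := by
    intro m
    refine Continuous.intervalIntegrable ?_ _ _
    refine continuous_conj.comp (hg.mul ?_)
    fun_prop
  simp only [e1]
  rw [intervalIntegral.integral_sub ((hi n).const_mul _) ((hi (-n)).const_mul _),
    intervalIntegral.integral_const_mul, intervalIntegral.integral_const_mul,
    intervalIntegral.intervalIntegral_conj, intervalIntegral.intervalIntegral_conj]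
  have h3 := Fc_anti (z₀ := z₀) hb hF (n : ℤ) hρ
  unfold Fc at h3 ⊢
  rw [h3, map_neg]
  ring

theorem Mo_ftc (n : ℕ) (y : ℝ) (c : ℂ) :
    ∫ ρ in (0 : ℝ)..y, (n : ℂ) * (exp (2 * n * ρ) + exp (-(2 * n * ρ))) * c =
      1 / 2 * c * ((Real.exp (2 * n * y) - Real.exp (-(2 * n * y)) : ℝ) : ℂ) := by
  have hd : ∀ ρ ∈ uIcc 0 y, HasDerivAt (fun ρ : ℝ =>
      1 / 2 * c * (exp (2 * n * ρ) - exp (-(2 * n * ρ))))
      ((n : ℂ) * (exp (2 * n * ρ) + exp (-(2 * n * ρ))) * c) ρ := by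
    intro ρ _
    have h1 : HasDerivAt (fun ρ : ℝ => (2 * n * ρ : ℂ)) (2 * n) ρ := by
      simpa using (Complex.ofRealCLM.hasDerivAt (x := ρ)).const_mul (2 * n : ℂ)
    have h2 := (h1.cexp.sub h1.neg.cexp).const_mul (1 / 2 * c)
    refine h2.congr_deriv ?_
    simp only [Pi.neg_apply]
    ring
  rw [intervalIntegral.integral_eq_sub_of_hasDerivAt hd
    (Continuous.intervalIntegrable (by fun_prop) _ _)]
  push_cast
  simp

theorem moment {z₀ b : ℂ} (hb : b ≠ 0) {y : ℝ} (hy : 0 < y) {F : ℂ → ℂ}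
    (hF : DifferentiableOn ℂ F (De z₀ b y)) (hF2 : MemLp F 2 (volume.restrict (De z₀ b y)))
    {n : ℕ} (hn : 1 ≤ n) {x : ℝ} (hx : 0 < x ∧ x < y) :
    ∫ z in De z₀ b y, conj (F z) * dC z₀ b n z =
      1 / 2 * conj (Fc z₀ b F x n) * ((Real.exp (2 * n * y) - Real.exp (-(2 * n * y)) : ℝ) : ℂ) := by
  have hae := De_ae (z₀ := z₀) hb hy
  have hint := Mo_integrable hF2 n
  have hintA : IntegrableOn (fun z => conj (F z) * dC z₀ b n z) (An z₀ b 0 y) :=
    hint.congr_set_ae hae.symm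
  have hintS : IntegrableOn (fun ζ => ((‖dE b ζ‖ ^ 2 : ℝ) : ℂ) *
      (conj (F (E z₀ b ζ)) * dC z₀ b n (E z₀ b ζ))) (St 0 y) := by
    first
      | exact (cv_int hb le_rfl hy.le (fun z => conj (F z) * dC z₀ b n z)).1 hintA
      | exact (cv_int hb le_rfl (fun z => conj (F z) * dC z₀ b n z)).1 hintA
  have hcv : ∫ z in An z₀ b 0 y, conj (F z) * dC z₀ b n z =
      ∫ ζ in St 0 y, ((‖dE b ζ‖ ^ 2 : ℝ) : ℂ) *
        (conj (F (E z₀ b ζ)) * dC z₀ b n (E z₀ b ζ)) := by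
    first
      | exact cv hb le_rfl hy.le (fun z => conj (F z) * dC z₀ b n z)
      | exact cv hb le_rfl (fun z => conj (F z) * dC z₀ b n z)
  rw [setIntegral_congr_set hae, hcv]
  simp only [Mo_point hb z₀ F n] at hintS ⊢
  rw [St_int hy.le hintS]
  rw [← Mo_ftc n y (conj (Fc z₀ b F x n))]
  rw [intervalIntegral.integral_of_le hy.le, intervalIntegral.integral_of_le hy.le,
    integral_Ioc_eq_integral_Ioo, integral_Ioc_eq_integral_Ioo]
  refine setIntegral_congr_fun measurableSet_Ioo fun ρ hρ => ?_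
  have hρ' : |ρ| < y := by rw [abs_of_pos hρ.1]; exact hρ.2
  have hx' : |x| < y := by rw [abs_of_pos hx.1]; exact hx.2
  have h1 := Mo_inner hb hF n hρ'
  rw [Fc_const_in hb hF n hρ' hx'] at h1
  exact h1

end ED1
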