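import Pool.Agent.H1.ED.Ih
import Pool.Agent.H1.ED.Mo
import Pool.Agent.H1.ED.Fz

/-!
ROW Dk. Decay of the moments. `moment` with `n+1` and `x/2`: the moment is `conj (Fi_m)(e^(2mx) - e^(-2mx))/2`, `m = n+1`, `Fi_m = Fc Fi (x/2) m`. `Ih` with `t = (2x+y)/2`:
`((k+1) - |k-1|) ‖Fi_m‖ ≤ 2 ‖Fc Fo t m‖ ≤ 2 C e^(-mt)` (`Fc_bound`), `(k+1) - |k-1| = 2 min k 1 > 0`; `θ = e^(-(t-2x))`.
`Dz`: `moment`: `Fc F s m = 0` for `m ≥ 1` (`e^(2mx) ≠ e^(-2mx)`), `Fc_anti`: for `m ≤ -1` and `m = 0`; `Fc_zero`.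
-/

set_option autoImplicit false

namespace ED1

open Complex Set Filter Topology MeasureTheory MD12
open scoped ComplexConjugate ContDiff Real

private theorem Dk_mem {S N : Set ℂ} (hS : S ⊆ N) {G F : ℂ → ℂ} (hG : MemLp G 2 (volume.restrict N))
    (he : ∀ᵐ z ∂volume.restrict S, G z = conj (F z)) : MemLp F 2 (volume.restrict S) := by
  have h1 : MemLp G 2 (volume.restrict S) := MemLp.mono_measure (Measure.restrict_mono hS le_rfl) hG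
  have h2 : AEStronglyMeasurable F (volume.restrict S) := by
    refine (Complex.continuous_conj.comp_aestronglyMeasurable h1.1).congr ?_
    filter_upwards [he] with z hz
    show conj (G z) = F z
    rw [hz, Complex.conj_conj]
  refine h1.congr_norm h2 ?_
  filter_upwards [he] with z hz
  rw [hz, RCLike.norm_conj]

/-- the algebra of the decay -/
private theorem Dk_alg {A B : ℂ} {k e : ℝ} (hk : 0 < k) (he0 : 0 ≤ e) (he1 : e ≤ 1)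
    (h : 2 * B = (k + 1) * A - (k - 1) * conj A * (e : ℂ)) :
    ((k + 1) - |k - 1|) * ‖A‖ ≤ 2 * ‖B‖ := by
  have h1 : ‖((k : ℂ) + 1) * A‖ = (k + 1) * ‖A‖ := by
    rw [norm_mul]
    have : ‖((k : ℂ) + 1)‖ = k + 1 := by
      rw [show ((k : ℂ) + 1) = ((k + 1 : ℝ) : ℂ) by push_cast; ring, Complex.norm_real,
        Real.norm_eq_abs, abs_of_pos (by linarith)]
    rw [this]
  have h2 : ‖((k : ℂ) - 1) * conj A * (e : ℂ)‖ ≤ |k - 1| * ‖A‖ := by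
    rw [norm_mul, norm_mul, RCLike.norm_conj]
    have e1 : ‖((k : ℂ) - 1)‖ = |k - 1| := by
      rw [show ((k : ℂ) - 1) = ((k - 1 : ℝ) : ℂ) by push_cast; ring, Complex.norm_real, Real.norm_eq_abs]
    have e2 : ‖(e : ℂ)‖ = e := by
      rw [Complex.norm_real, Real.norm_eq_abs, abs_of_nonneg he0]
    rw [e1, e2]
    have : 0 ≤ |k - 1| * ‖A‖ := mul_nonneg (abs_nonneg _) (norm_nonneg _)
    calc |k - 1| * ‖A‖ * e ≤ |k - 1| * ‖A‖ * 1 := mul_le_mul_of_nonneg_left he1 this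
      _ = |k - 1| * ‖A‖ := mul_one _
  have h3 : ‖(2 : ℂ) * B‖ = 2 * ‖B‖ := by
    rw [norm_mul]
    norm_num
  have h4 : ‖((k : ℂ) + 1) * A‖ - ‖((k : ℂ) - 1) * conj A * (e : ℂ)‖ ≤ ‖(2 : ℂ) * B‖ := by
    rw [h]
    exact norm_sub_norm_le _ _
  rw [h1, h3] at h4
  linarith

theorem Dk {z₀ b : ℂ} {k x y : ℝ} {u : ℂ → ℝ} {G Fi Fo : ℂ → ℂ} (h : Flds z₀ b k x y u G Fi Fo)
    (hy : 2 * x < y) : ∃ C θ : ℝ, 0 < θ ∧ θ < 1 ∧
      ∀ n : ℕ, ‖∫ z in De z₀ b x, conj (Fi z) * dC z₀ b (n + 1) z‖ ≤ C * θ ^ n := by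
  have hb := h.hb
  have hx := h.hx
  have hxy := h.hxy
  have hk := h.hk
  have hsub : De z₀ b x ⊆ De z₀ b y := fun z hz =>
    lt_trans hz ((lx_lt hb hx.le (hx.trans hxy).le).2 hxy)
  have hmi : MemLp Fi 2 (volume.restrict (De z₀ b x)) := Dk_mem hsub h.sob.memG h.ei
  have ht : x < (2 * x + y) / 2 ∧ (2 * x + y) / 2 < y := ⟨by linarith, by linarith⟩
  have hs : 0 < x / 2 ∧ x / 2 < x := ⟨by linarith, by linarith⟩
  obtain ⟨C, hC⟩ := Fc_bound hb hx.le h.do' ht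
  have hC0 : 0 ≤ C := by
    have := (norm_nonneg _).trans (hC 0)
    simpa using this
  have hc : 0 < (k + 1) - |k - 1| := by
    rcases le_total 1 k with h1 | h1
    · rw [abs_of_nonneg (by linarith)]
      linarith
    · rw [abs_of_nonpos (by linarith)]
      linarith
  set c := (k + 1) - |k - 1| with hcdef
  obtain ⟨δ, hδ⟩ : ∃ δ : ℝ, δ = (2 * x + y) / 2 - 2 * x := ⟨_, rfl⟩
  have hδ0 : 0 < δ := by rw [hδ]; linarith
  refine ⟨C / c * Real.exp (-δ), Real.exp (-δ), Real.exp_pos _, Real.exp_lt_one_iff.2 (by linarith), fun n => ?_⟩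
  rw [moment hb hx h.di hmi (Nat.succ_le_succ (Nat.zero_le n)) hs]
  have hIh := Ih h ((n + 1 : ℕ) : ℤ) hs ht
  set A := Fc z₀ b Fi (x / 2) ((n + 1 : ℕ) : ℤ) with hA
  set B := Fc z₀ b Fo ((2 * x + y) / 2) ((n + 1 : ℕ) : ℤ) with hB
  have hm0 : (0 : ℝ) ≤ ((n + 1 : ℕ) : ℝ) := Nat.cast_nonneg _
  have he : exp (-(2 * (((n + 1 : ℕ) : ℤ) : ℂ) * (x : ℂ))) = ((Real.exp (-(2 * ((n + 1 : ℕ) : ℝ) * x)) : ℝ) : ℂ) := by
    push_cast
    rfl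
  rw [he] at hIh
  have hA1 : c * ‖A‖ ≤ 2 * ‖B‖ := by
    refine Dk_alg hk (Real.exp_pos _).le ?_ hIh
    refine Real.exp_le_one_iff.2 ?_
    have : 0 ≤ 2 * ((n + 1 : ℕ) : ℝ) * x := by positivity
    linarith
  have hB1 : ‖B‖ ≤ C * Real.exp (-(((n + 1 : ℕ) : ℝ) * ((2 * x + y) / 2))) := by
    have := hC ((n + 1 : ℕ) : ℤ)
    rw [Int.cast_natCast] at this
    exact this
  have hA2 : ‖A‖ ≤ 2 * (C / c) * Real.exp (-(((n + 1 : ℕ) : ℝ) * ((2 * x + y) / 2))) := by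
    have h1 : c * ‖A‖ ≤ 2 * (C * Real.exp (-(((n + 1 : ℕ) : ℝ) * ((2 * x + y) / 2)))) :=
      hA1.trans (by linarith)
    have h2 : ‖A‖ = (c * ‖A‖) / c := by field_simp
    rw [h2, div_le_iff₀ hc]
    calc c * ‖A‖ ≤ 2 * (C * Real.exp (-(((n + 1 : ℕ) : ℝ) * ((2 * x + y) / 2)))) := h1
      _ = 2 * (C / c) * Real.exp (-(((n + 1 : ℕ) : ℝ) * ((2 * x + y) / 2))) * c := by field_simp
  have hn1 : ‖(1 / 2 : ℂ) * conj A * ((Real.exp (2 * ((n + 1 : ℕ) : ℝ) * x) -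
      Real.exp (-(2 * ((n + 1 : ℕ) : ℝ) * x)) : ℝ) : ℂ)‖ ≤ 1 / 2 * ‖A‖ * Real.exp (2 * ((n + 1 : ℕ) : ℝ) * x) := by
    rw [norm_mul, norm_mul, RCLike.norm_conj, Complex.norm_real, Real.norm_eq_abs]
    have e1 : ‖(1 / 2 : ℂ)‖ = 1 / 2 := by norm_num
    rw [e1]
    refine mul_le_mul_of_nonneg_left ?_ (by positivity)
    have h0 : (0 : ℝ) ≤ 2 * ((n + 1 : ℕ) : ℝ) * x := by positivity
    have h1 : Real.exp (-(2 * ((n + 1 : ℕ) : ℝ) * x)) ≤ Real.exp (2 * ((n + 1 : ℕ) : ℝ) * x) :=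
      Real.exp_le_exp.2 (by linarith)
    rw [abs_of_nonneg (by linarith)]
    have := (Real.exp_pos (-(2 * ((n + 1 : ℕ) : ℝ) * x))).le
    linarith
  refine hn1.trans ?_
  have hfin : Real.exp (-(((n + 1 : ℕ) : ℝ) * ((2 * x + y) / 2))) * Real.exp (2 * ((n + 1 : ℕ) : ℝ) * x) =
      Real.exp (-δ) * Real.exp (-δ) ^ n := by
    rw [← Real.exp_add, ← Real.exp_nat_mul, ← Real.exp_add]
    congr 1
    rw [hδ]
    push_cast
    ring
  calc 1 / 2 * ‖A‖ * Real.exp (2 * ((n + 1 : ℕ) : ℝ) * x)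
      ≤ 1 / 2 * (2 * (C / c) * Real.exp (-(((n + 1 : ℕ) : ℝ) * ((2 * x + y) / 2)))) *
        Real.exp (2 * ((n + 1 : ℕ) : ℝ) * x) := by
        refine mul_le_mul_of_nonneg_right ?_ (Real.exp_pos _).le
        linarith
    _ = C / c * (Real.exp (-(((n + 1 : ℕ) : ℝ) * ((2 * x + y) / 2))) * Real.exp (2 * ((n + 1 : ℕ) : ℝ) * x)) := by
        ring
    _ = C / c * Real.exp (-δ) * Real.exp (-δ) ^ n := by
        rw [hfin]
        ring

theorem Dz {z₀ b : ℂ} (hb : b ≠ 0) {x : ℝ} (hx : 0 < x) {F : ℂ → ℂ} (hF : DifferentiableOn ℂ F (De z₀ b x))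
    (hF2 : MemLp F 2 (volume.restrict (De z₀ b x)))
    (h : ∀ n : ℕ, ∫ z in De z₀ b x, conj (F z) * dC z₀ b (n + 1) z = 0) : ∀ z ∈ De z₀ b x, F z = 0 := by
  have hs0 : |x / 2| < x := by
    rw [abs_of_pos (by linarith)]
    linarith
  have h1 : ∀ n : ℕ, Fc z₀ b F (x / 2) ((n + 1 : ℕ) : ℤ) = 0 := by
    intro n
    have h2 := h n
    rw [moment hb hx hF hF2 (Nat.succ_le_succ (Nat.zero_le n)) (x := x / 2) ⟨by linarith, by linarith⟩] at h2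
    have h3 : ((Real.exp (2 * ((n + 1 : ℕ) : ℝ) * x) - Real.exp (-(2 * ((n + 1 : ℕ) : ℝ) * x)) : ℝ) : ℂ) ≠ 0 := by
      rw [Ne, Complex.ofReal_eq_zero]
      have h4 : (0 : ℝ) < 2 * ((n + 1 : ℕ) : ℝ) * x := by positivity
      have h5 : Real.exp (-(2 * ((n + 1 : ℕ) : ℝ) * x)) < Real.exp (2 * ((n + 1 : ℕ) : ℝ) * x) :=
        Real.exp_lt_exp.2 (by linarith)
      intro h6
      linarith
    have h7 := (mul_eq_zero.1 h2).resolve_right h3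
    have h8 := (mul_eq_zero.1 h7).resolve_left (by norm_num)
    exact (map_eq_zero (starRingEnd ℂ)).1 h8
  refine Fc_zero hb hx hF fun s m hs hsx => ?_
  have hs' : |s| < x := by rwa [abs_of_pos hs]
  rw [Fc_const_in hb hF m hs' hs0]
  rcases lt_trichotomy m 0 with hm | hm | hm
  · obtain ⟨n, hn⟩ : ∃ n : ℕ, m = -((n + 1 : ℕ) : ℤ) := ⟨(-m - 1).toNat, by push_cast; omega⟩
    rw [hn, Fc_anti hb hF _ hs0, h1 n, neg_zero]
  · have h2 := Fc_anti (z₀ := z₀) hb hF (0 : ℤ) hs0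
    rw [neg_zero] at h2
    rw [hm]
    exact self_eq_neg.1 h2
  · obtain ⟨n, hn⟩ : ∃ n : ℕ, m = ((n + 1 : ℕ) : ℤ) := ⟨(m - 1).toNat, by push_cast; omega⟩
    rw [hn, h1 n]

end ED1
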