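import Mathlib

/-!
ROW Lo. Odd Laurent series vanish. `X n` (`n ≥ 1`, written `X n` for the coefficient of `s^(-(n+1))`), `‖X n‖ ≤ C θⁿ`, `0 < θ < 1`; `f s = ∑ X n s⁻ⁿ⁻¹` is analytic on `‖s‖ > θ`.
If `f s + f s⁻¹ = 0` near one point `p` with `‖p‖ = 1`, then by the identity theorem on the annulus `θ < ‖s‖ < θ⁻¹` (preconnected: e.g. image of a strip under `exp`) `f s + f s⁻¹ = 0` there, in particular
for `‖s‖ = 1`; multiply by `s^k` and integrate over `s = e^{it}`, `t ∈ [0, 2π]`: `∫ s^(k) (∑ X n s^(-n-1) + ∑ X n s^(n+1)) dt`, with `k = m + 1` only the term `X m` remains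
(`∫ e^{ijt} = 0` for `j ≠ 0`): `2π X m = 0`.
-/

set_option autoImplicit false

namespace ED1

open Complex Set Filter Topology MeasureTheory
open scoped ComplexConjugate ContDiff Real

private theorem Lo_int (k : ℤ) (hk : k ≠ 0) :
    ∫ t in (0 : ℝ)..(2 * π), Complex.exp ((k : ℂ) * I * t) = 0 := by
  have hc : ((k : ℂ) * I) ≠ 0 := mul_ne_zero (Int.cast_ne_zero.2 hk) I_ne_zero
  rw [integral_exp_mul_complex hc]
  have h1 : Complex.exp ((k : ℂ) * I * ((2 * π : ℝ) : ℂ)) = 1 := by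
    rw [show (k : ℂ) * I * ((2 * π : ℝ) : ℂ) = k * (2 * π * I) by push_cast; ring]
    exact Complex.exp_int_mul_two_pi_mul_I k
  rw [h1]
  simp

private theorem Lo_sum {C R θ : ℝ} (hθ : 0 ≤ θ) (hR : 0 ≤ R) (h : θ * R < 1) :
    Summable fun n : ℕ => C * θ ^ n * R ^ (n + 1) := by
  have h1 := (summable_geometric_of_lt_one (mul_nonneg hθ hR) h).mul_left (C * R)
  refine h1.congr fun n => ?_
  rw [mul_pow, pow_succ]
  ring

private theorem Lo_bd {X : ℕ → ℂ} {C θ R : ℝ} (hX : ∀ n, ‖X n‖ ≤ C * θ ^ n) {w : ℂ}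
    (hw : ‖w‖ ≤ R) (n : ℕ) : ‖X n * w ^ (n + 1)‖ ≤ C * θ ^ n * R ^ (n + 1) := by
  rw [norm_mul, norm_pow]
  exact mul_le_mul (hX n) (pow_le_pow_left₀ (norm_nonneg _) hw _) (by positivity)
    ((norm_nonneg _).trans (hX n))

private theorem Lo_zero {X : ℕ → ℂ} {C θ : ℝ} (h0 : 0 < θ) (h1 : θ < 1)
    (hX : ∀ n, ‖X n‖ ≤ C * θ ^ n) {p : ℂ} (hp : ‖p‖ = 1)
    (h : ∀ᶠ s in 𝓝 p, (∑' n, X n * s⁻¹ ^ (n + 1)) + (∑' n, X n * s ^ (n + 1)) = 0) (t : ℝ) :
    (∑' n, X n * Complex.exp (-(t * I)) ^ (n + 1)) +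
      (∑' n, X n * Complex.exp (t * I) ^ (n + 1)) = 0 := by
  obtain ⟨δ, hδ⟩ : ∃ δ : ℝ, δ = -Real.log θ / 2 := ⟨_, rfl⟩
  have hl : Real.log θ < 0 := Real.log_neg h0 h1
  have hδ0 : 0 < δ := by
    rw [hδ]
    linarith
  have hR : θ * Real.exp δ < 1 := by
    have e1 : θ * Real.exp δ = Real.exp (Real.log θ + δ) := by
      rw [Real.exp_add, Real.exp_log h0]
    rw [e1, Real.exp_lt_one_iff, hδ]
    linarith
  have hS := Lo_sum (C := C) h0.le (Real.exp_pos δ).le hR
  have hcv : Convex ℝ (Complex.reLm ⁻¹' Ioo (-δ) δ) := (convex_Ioo (-δ) δ).linear_preimage _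
  have hop : IsOpen (Complex.reLm ⁻¹' Ioo (-δ) δ) := by
    have e : (Complex.reLm ⁻¹' Ioo (-δ) δ) = Complex.re ⁻¹' Ioo (-δ) δ := rfl
    rw [e]
    exact isOpen_Ioo.preimage Complex.continuous_re
  have hn1 : ∀ z ∈ (Complex.reLm ⁻¹' Ioo (-δ) δ : Set ℂ), ‖Complex.exp z‖ ≤ Real.exp δ := by
    intro z hz
    have hz' : z.re ∈ Ioo (-δ) δ := hz
    rw [Complex.norm_exp]
    exact Real.exp_le_exp.2 hz'.2.le
  have hn2 : ∀ z ∈ (Complex.reLm ⁻¹' Ioo (-δ) δ : Set ℂ), ‖Complex.exp (-z)‖ ≤ Real.exp δ := by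
    intro z hz
    have hz' : z.re ∈ Ioo (-δ) δ := hz
    rw [Complex.norm_exp, Complex.neg_re]
    exact Real.exp_le_exp.2 (by linarith [hz'.1])
  have hd1 : DifferentiableOn ℂ (fun z : ℂ => ∑' n, X n * Complex.exp (-z) ^ (n + 1))
      (Complex.reLm ⁻¹' Ioo (-δ) δ) := by
    refine differentiableOn_tsum_of_summable_norm hS (fun n => ?_) hop fun n z hz =>
      Lo_bd hX (hn2 z hz) n
    exact (((Complex.differentiable_exp.comp differentiable_neg).pow (n + 1)).const_mul
      (X n)).differentiableOn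
  have hd2 : DifferentiableOn ℂ (fun z : ℂ => ∑' n, X n * Complex.exp z ^ (n + 1))
      (Complex.reLm ⁻¹' Ioo (-δ) δ) := by
    refine differentiableOn_tsum_of_summable_norm hS (fun n => ?_) hop fun n z hz =>
      Lo_bd hX (hn1 z hz) n
    exact ((Complex.differentiable_exp.pow (n + 1)).const_mul (X n)).differentiableOn
  have han := (hd1.add hd2).analyticOnNhd hop
  have hp0 : p ≠ 0 := by
    rintro rfl
    rw [norm_zero] at hp
    exact zero_ne_one hp
  have hz0 : Complex.log p ∈ (Complex.reLm ⁻¹' Ioo (-δ) δ : Set ℂ) := by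
    have e : (Complex.log p).re = 0 := by
      rw [Complex.log_re, hp, Real.log_one]
    have : (Complex.log p).re ∈ Ioo (-δ) δ := by
      rw [e]
      exact ⟨by linarith, hδ0⟩
    exact this
  have hev : ((fun z : ℂ => ∑' n, X n * Complex.exp (-z) ^ (n + 1)) +
      fun z : ℂ => ∑' n, X n * Complex.exp z ^ (n + 1)) =ᶠ[𝓝 (Complex.log p)] 0 := by
    have ht := Complex.continuous_exp.tendsto (Complex.log p)
    rw [Complex.exp_log hp0] at ht
    filter_upwards [ht.eventually h] with z hz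
    simp only [← Complex.exp_neg] at hz
    exact hz
  have hEq := han.eqOn_zero_of_preconnected_of_eventuallyEq_zero hcv.isPreconnected hz0 hev
  have htI : ((t : ℂ) * I) ∈ (Complex.reLm ⁻¹' Ioo (-δ) δ : Set ℂ) := by
    have : ((t : ℂ) * I).re ∈ Ioo (-δ) δ := by
      simp [hδ0]
    exact this
  exact hEq htI

theorem Lo {X : ℕ → ℂ} {C θ : ℝ} (h0 : 0 < θ) (h1 : θ < 1) (hX : ∀ n, ‖X n‖ ≤ C * θ ^ n) {p : ℂ} (hp : ‖p‖ = 1)
    (h : ∀ᶠ s in 𝓝 p, (∑' n, X n * s⁻¹ ^ (n + 1)) + (∑' n, X n * s ^ (n + 1)) = 0) : ∀ n, X n = 0 := by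
  intro m
  have hC : ∀ n, 0 ≤ C * θ ^ n := fun n => (norm_nonneg _).trans (hX n)
  have hS := Lo_sum (C := C) h0.le zero_le_one (by rw [mul_one]; exact h1)
  have hexp : ∀ z : ℂ, z.re = 0 → ‖Complex.exp z‖ = 1 := by
    intro z hz
    rw [Complex.norm_exp, hz, Real.exp_zero]
  have hre1 : ∀ t : ℝ, (-((t : ℂ) * I)).re = 0 := by
    intro t
    simp
  have hre2 : ∀ t : ℝ, ((t : ℂ) * I).re = 0 := by
    intro t
    simp
  have hre3 : ∀ (k : ℤ) (t : ℝ), ((k : ℂ) * I * t).re = 0 := by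
    intro k t
    simp
  have key : ∀ t : ℝ, HasSum (fun n : ℕ => X n * Complex.exp (((m - n : ℤ) : ℂ) * I * t) +
      X n * Complex.exp (((m + n + 2 : ℤ) : ℂ) * I * t)) 0 := by
    intro t
    have s1 : Summable fun n => X n * Complex.exp (-(t * I)) ^ (n + 1) :=
      Summable.of_norm_bounded hS fun n => Lo_bd hX (hexp _ (hre1 t)).le n
    have s2 : Summable fun n => X n * Complex.exp (t * I) ^ (n + 1) :=
      Summable.of_norm_bounded hS fun n => Lo_bd hX (hexp _ (hre2 t)).le n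
    have h3 := (s1.hasSum.add s2.hasSum).mul_left (Complex.exp (((m : ℂ) + 1) * (t * I)))
    rw [Lo_zero h0 h1 hX hp h t, mul_zero] at h3
    have e : (fun n : ℕ => X n * Complex.exp (((m - n : ℤ) : ℂ) * I * t) +
        X n * Complex.exp (((m + n + 2 : ℤ) : ℂ) * I * t)) =
        fun n : ℕ => Complex.exp (((m : ℂ) + 1) * (t * I)) *
          (X n * Complex.exp (-(t * I)) ^ (n + 1) + X n * Complex.exp (t * I) ^ (n + 1)) := by
      funext n
      have e1 : Complex.exp (((m - n : ℤ) : ℂ) * I * t) =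
          Complex.exp (((m : ℂ) + 1) * (t * I)) * Complex.exp (-(t * I)) ^ (n + 1) := by
        rw [← Complex.exp_nat_mul, ← Complex.exp_add]
        congr 1
        push_cast
        ring
      have e2 : Complex.exp (((m + n + 2 : ℤ) : ℂ) * I * t) =
          Complex.exp (((m : ℂ) + 1) * (t * I)) * Complex.exp (t * I) ^ (n + 1) := by
        rw [← Complex.exp_nat_mul, ← Complex.exp_add]
        congr 1
        push_cast
        ring
      rw [e1, e2]
      ring
    rw [e]
    exact h3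
  have hcont : ∀ k : ℤ, Continuous fun t : ℝ => Complex.exp ((k : ℂ) * I * t) := by
    intro k
    fun_prop
  have hint : ∀ n : ℕ, ∫ t in (0 : ℝ)..(2 * π), (X n * Complex.exp (((m - n : ℤ) : ℂ) * I * t) +
      X n * Complex.exp (((m + n + 2 : ℤ) : ℂ) * I * t)) = if n = m then 2 * π * X m else 0 := by
    intro n
    rw [intervalIntegral.integral_add (((hcont _).const_mul _).intervalIntegrable _ _)
      (((hcont _).const_mul _).intervalIntegrable _ _), intervalIntegral.integral_const_mul,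
      intervalIntegral.integral_const_mul, Lo_int (m + n + 2 : ℤ) (by omega), mul_zero, add_zero]
    split_ifs with hnm
    · subst hnm
      have e : ∀ t : ℝ, Complex.exp (((n - n : ℤ) : ℂ) * I * t) = 1 := by
        intro t
        simp
      simp only [e]
      rw [intervalIntegral.integral_const]
      simp only [sub_zero, Complex.real_smul, mul_one]
      push_cast
      ring
    · rw [Lo_int (m - n : ℤ) (by omega), mul_zero]
  have hH := intervalIntegral.hasSum_integral_of_dominated_convergence (μ := volume) (a := (0 : ℝ))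
    (b := 2 * π)
    (F := fun (n : ℕ) (t : ℝ) => X n * Complex.exp (((m - n : ℤ) : ℂ) * I * t) +
      X n * Complex.exp (((m + n + 2 : ℤ) : ℂ) * I * t)) (f := fun _ => (0 : ℂ))
    (fun n _ => C * θ ^ n + C * θ ^ n)
    (fun n => (((hcont _).const_mul _).add ((hcont _).const_mul _)).aestronglyMeasurable)
    (fun n => Filter.Eventually.of_forall fun t _ => by
      refine (norm_add_le _ _).trans (add_le_add ?_ ?_)
      · rw [norm_mul, hexp _ (hre3 _ _), mul_one]
        exact hX n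
      · rw [norm_mul, hexp _ (hre3 _ _), mul_one]
        exact hX n)
    (Filter.Eventually.of_forall fun t _ => by
      have h5 := (summable_geometric_of_lt_one h0.le h1).mul_left C
      exact h5.add h5)
    intervalIntegrable_const
    (Filter.Eventually.of_forall fun t _ => key t)
  simp only [hint, intervalIntegral.integral_zero] at hH
  have h6 : HasSum (fun n : ℕ => if n = m then 2 * π * X m else 0) (2 * π * X m) :=
    hasSum_ite_eq m (2 * π * X m)
  have h7 := hH.unique h6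
  have h8 : (2 * (π : ℂ)) ≠ 0 := mul_ne_zero two_ne_zero (Complex.ofReal_ne_zero.2 Real.pi_ne_zero)
  exact (mul_eq_zero.1 h7.symm).resolve_left h8

end ED1
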