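import Pool.Agent.H1.ED.Si
import Pool.Agent.H1.ED.Lo

/-!
ROW Ev. Evenness at a point of the focal segment. `T s = ∑' X n s⁻¹^(n+1)` is analytic on `‖s‖ > θ`. `S` from `exists_S`.
(1) On `U`: `T (S z) = b (S z - (S z)⁻¹) C₂ z`: both sides are analytic on `U`; `U` contains a point `z₁` with `‖S z₁‖ > max R 1` (`‖z - z₀‖ ≤ ‖b‖ (‖S z‖ + 1)`, `hUi`), near it the equality is `hR`
    (`J (S z) = z`); identity theorem (`AnalyticOnNhd.eqOn_of_preconnected_of_eventuallyEq`).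
(2) `p = J sp`, `‖sp‖ = 1` (`exists_E`, `mem_Sg_iff`, `lv_E`). For `s` near `sp` (or near `sp⁻¹`, `J sp⁻¹ = p`) with `‖s‖ > 1`: `J s` is near `p`, not in the segment, so in `U`, `S (J s) = s`:
    `T s = b (s - s⁻¹) C₂ (J s)`. Both sides are analytic near `sp` (`p ∉ K`), and `sp` is a limit of points with `‖s‖ > 1`: equality for all `s` near `sp`
    (`AnalyticAt.frequently_eq_iff_eventually_eq`); the same near `sp⁻¹`.
(3) For `s` near `sp`: `T s + T s⁻¹ = b (s - s⁻¹) C₂ (J s) + b (s⁻¹ - s) C₂ (J s⁻¹) = 0`. `Lo`.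
-/

set_option autoImplicit false

namespace ED1

open Complex Set Filter Topology MeasureTheory
open scoped ComplexConjugate ContDiff Real

/-- the Laurent series is analytic -/
private theorem Ev_an {X : ℕ → ℂ} {C θ : ℝ} (h0 : 0 < θ) (hX : ∀ n, ‖X n‖ ≤ C * θ ^ n) {s : ℂ}
    (hs : θ < ‖s‖) : AnalyticAt ℂ (fun s : ℂ => ∑' n, X n * s⁻¹ ^ (n + 1)) s := by
  have hs0 : 0 < ‖s‖ := h0.trans hs
  have hw : ‖s⁻¹‖ < θ⁻¹ := by
    rw [norm_inv]
    exact inv_strictAnti₀ h0 hs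
  obtain ⟨ρ, h2, h3⟩ := exists_between hw
  have hρ : 0 < ρ := (norm_nonneg _).trans_lt h2
  have h4 : θ * ρ < 1 := by
    have := mul_lt_mul_of_pos_left h3 h0
    rwa [mul_inv_cancel₀ h0.ne'] at this
  have hS : Summable fun n : ℕ => C * θ ^ n * ρ ^ (n + 1) := by
    refine ((summable_geometric_of_lt_one (by positivity) h4).mul_left (C * ρ)).congr fun n => ?_
    rw [mul_pow, pow_succ]
    ring
  have hd : DifferentiableOn ℂ (fun w : ℂ => ∑' n, X n * w ^ (n + 1)) (Metric.ball 0 ρ) := by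
    refine differentiableOn_tsum_of_summable_norm hS (fun n => ?_) Metric.isOpen_ball
      fun n w hw => ?_
    · exact ((differentiable_id.pow (n + 1)).const_mul (X n)).differentiableOn
    · rw [norm_mul, norm_pow]
      have hw' : ‖w‖ ≤ ρ := by
        have := hw
        rw [mem_ball_zero_iff] at this
        exact this.le
      exact mul_le_mul (hX n) (pow_le_pow_left₀ (norm_nonneg _) hw' _) (by positivity)
        ((norm_nonneg _).trans (hX n))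
  have ha : AnalyticAt ℂ (fun w : ℂ => ∑' n, X n * w ^ (n + 1)) s⁻¹ :=
    hd.analyticAt (Metric.isOpen_ball.mem_nhds (by rw [mem_ball_zero_iff]; exact h2))
  have hi : AnalyticAt ℂ (fun s : ℂ => s⁻¹) s := analyticAt_inv (norm_pos_iff.1 hs0)
  exact ha.comp hi

/-- points of norm bigger than one accumulate at every point of the circle -/
private theorem Ev_fr {sp : ℂ} (hsp : ‖sp‖ = 1) : ∃ᶠ s in 𝓝[≠] sp, 1 < ‖s‖ := by
  have hn : ∀ r : ℝ, 1 < r → ‖(r : ℂ) * sp‖ = r := by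
    intro r hr
    rw [norm_mul, hsp, mul_one, Complex.norm_real, Real.norm_of_nonneg (by linarith)]
  have ht : Tendsto (fun r : ℝ => (r : ℂ) * sp) (𝓝[>] 1) (𝓝[≠] sp) := by
    refine tendsto_nhdsWithin_iff.2 ⟨?_, ?_⟩
    · have hc : Continuous fun r : ℝ => (r : ℂ) * sp := by fun_prop
      have e := (hc.tendsto 1).mono_left (nhdsWithin_le_nhds (s := Set.Ioi (1 : ℝ)))
      have e1 : ((1 : ℝ) : ℂ) * sp = sp := by rw [Complex.ofReal_one, one_mul]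
      rwa [e1] at e
    · filter_upwards [self_mem_nhdsWithin] with r hr
      have hr' : (1 : ℝ) < r := hr
      intro h
      have h2 : (r : ℂ) * sp = sp := h
      have h3 := hn r hr'
      rw [h2, hsp] at h3
      linarith
  refine ht.frequently (Filter.Eventually.frequently ?_)
  filter_upwards [self_mem_nhdsWithin] with r hr
  have hr' : (1 : ℝ) < r := hr
  rw [hn r hr']
  exact hr'

/-- the equality near a point of the circle -/
private theorem Ev_near {z₀ b : ℂ} {T : ℂ → ℂ} {θ : ℝ} (h1 : θ < 1)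
    (hT : ∀ s, θ < ‖s‖ → AnalyticAt ℂ T s) {K : Set ℂ} (hK : IsClosed K) {C₂ : ℂ → ℂ}
    (hC₂ : DifferentiableOn ℂ C₂ Kᶜ) {S : ℂ → ℂ}
    (hS2 : ∀ s, 1 < ‖s‖ → J z₀ b s ∉ Sg z₀ b ∧ S (J z₀ b s) = s) {U : Set ℂ}
    (hE : ∀ z ∈ U, T (S z) = b * (S z - (S z)⁻¹) * C₂ z) {p : ℂ} (hpK : p ∉ K)
    (hpU : ∀ᶠ z in 𝓝 p, z ∉ Sg z₀ b → z ∈ U) {sp : ℂ} (hsp : ‖sp‖ = 1) (hJ : J z₀ b sp = p) :
    ∀ᶠ s in 𝓝 sp, T s = b * (s - s⁻¹) * C₂ (J z₀ b s) := by
  have hsp0 : sp ≠ 0 := by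
    rintro rfl
    rw [norm_zero] at hsp
    exact zero_ne_one hsp
  have hJa : AnalyticAt ℂ (J z₀ b) sp := by
    have : AnalyticAt ℂ (fun s : ℂ => z₀ + b * (s + s⁻¹)) sp :=
      analyticAt_const.add (analyticAt_const.mul (analyticAt_id.add (analyticAt_inv hsp0)))
    exact this
  have hCa : AnalyticAt ℂ C₂ (J z₀ b sp) :=
    hC₂.analyticAt (hK.isOpen_compl.mem_nhds (by rw [hJ]; exact hpK))
  have hG : AnalyticAt ℂ (fun s => b * (s - s⁻¹) * C₂ (J z₀ b s)) sp :=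
    (analyticAt_const.mul (analyticAt_id.sub (analyticAt_inv hsp0))).mul (hCa.comp hJa)
  have hTa := hT sp (by rw [hsp]; exact h1)
  have hev : ∀ᶠ s in 𝓝 sp, 1 < ‖s‖ → T s = b * (s - s⁻¹) * C₂ (J z₀ b s) := by
    have ht : Tendsto (J z₀ b) (𝓝 sp) (𝓝 p) := by
      rw [← hJ]
      exact hJa.continuousAt
    filter_upwards [ht.eventually hpU] with s hs h2
    obtain ⟨h3, h4⟩ := hS2 s h2
    have := hE _ (hs h3)
    rwa [h4] at this
  refine (hTa.frequently_eq_iff_eventually_eq hG).1 ?_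
  exact ((Ev_fr hsp).and_eventually (hev.filter_mono nhdsWithin_le_nhds)).mono
    fun s hs => hs.2 hs.1

theorem Ev {z₀ b : ℂ} (hb : b ≠ 0) {X : ℕ → ℂ} {C θ : ℝ} (h0 : 0 < θ) (h1 : θ < 1)
    (hX : ∀ n, ‖X n‖ ≤ C * θ ^ n) {K : Set ℂ} (hK : IsCompact K) {C₂ : ℂ → ℂ}
    (hC₂ : DifferentiableOn ℂ C₂ Kᶜ) {R : ℝ}
    (hR : ∀ s : ℂ, R < ‖s‖ → ∑' n, X n * s⁻¹ ^ (n + 1) = b * (s - s⁻¹) * C₂ (J z₀ b s))
    {U : Set ℂ} (hUo : IsOpen U) (hUc : IsPreconnected U) (hUK : Disjoint U K)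
    (hUS : Disjoint U (Sg z₀ b)) (hUi : ∀ R : ℝ, ∃ z ∈ U, R < ‖z‖) {p : ℂ} (hp : p ∈ Sg z₀ b)
    (hpK : p ∉ K) (hpU : ∀ᶠ z in 𝓝 p, z ∉ Sg z₀ b → z ∈ U) : ∀ n, X n = 0 := by
  obtain ⟨S, hS1, hS2⟩ := exists_S z₀ hb
  obtain ⟨T, hT⟩ : ∃ T : ℂ → ℂ, T = fun s => ∑' n, X n * s⁻¹ ^ (n + 1) := ⟨_, rfl⟩
  have hTa : ∀ s : ℂ, θ < ‖s‖ → AnalyticAt ℂ T s := by
    intro s hs
    rw [hT]
    exact Ev_an h0 hX hs
  have hTR : ∀ s : ℂ, R < ‖s‖ → T s = b * (s - s⁻¹) * C₂ (J z₀ b s) := by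
    intro s hs
    rw [hT]
    exact hR s hs
  have hUS' : ∀ z ∈ U, z ∉ Sg z₀ b := fun z hz h => Set.disjoint_left.1 hUS hz h
  have hUK' : ∀ z ∈ U, z ∉ K := fun z hz h => Set.disjoint_left.1 hUK hz h
  have hE : EqOn (fun z => T (S z)) (fun z => b * (S z - (S z)⁻¹) * C₂ z) U := by
    have a1 : AnalyticOnNhd ℂ (fun z => T (S z)) U := fun z hz => by
      obtain ⟨h2, h3, h4⟩ := hS1 z (hUS' z hz)
      exact (hTa (S z) (h1.trans h2)).comp h4
    have a2 : AnalyticOnNhd ℂ (fun z => b * (S z - (S z)⁻¹) * C₂ z) U := fun z hz => by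
      obtain ⟨h2, h3, h4⟩ := hS1 z (hUS' z hz)
      have h5 : S z ≠ 0 := by
        intro h
        rw [h, norm_zero] at h2
        linarith
      exact (analyticAt_const.mul (h4.sub (h4.inv h5))).mul
        (hC₂.analyticAt (hK.isClosed.isOpen_compl.mem_nhds (hUK' z hz)))
    obtain ⟨z₁, hz₁, hn⟩ := hUi (‖z₀‖ + ‖b‖ * (max R 1 + 1))
    obtain ⟨g1, g2, g3⟩ := hS1 z₁ (hUS' z₁ hz₁)
    have hR1 : max R 1 < ‖S z₁‖ := by
      by_contra hcon
      push Not at hcon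
      have g4 : ‖(S z₁)⁻¹‖ ≤ 1 := by
        rw [norm_inv]
        exact inv_le_one_of_one_le₀ g1.le
      have g5 : ‖z₁‖ ≤ ‖z₀‖ + ‖b‖ * (max R 1 + 1) := by
        conv_lhs => rw [← g2]
        unfold J
        refine (norm_add_le _ _).trans (add_le_add le_rfl ?_)
        rw [norm_mul]
        exact mul_le_mul_of_nonneg_left ((norm_add_le _ _).trans (add_le_add hcon g4))
          (norm_nonneg _)
      linarith
    refine a1.eqOn_of_preconnected_of_eventuallyEq a2 hUc hz₁ ?_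
    have hc : ContinuousAt (fun z => ‖S z‖) z₁ := g3.continuousAt.norm
    have hlt : R < ‖S z₁‖ := (le_max_left R 1).trans_lt hR1
    filter_upwards [hUo.mem_nhds hz₁, hc.eventually (lt_mem_nhds hlt)] with z hz hzR
    have h3 := (hS1 z (hUS' z hz)).2.1
    have h4 := hTR (S z) hzR
    rw [h3] at h4
    exact h4
  obtain ⟨ζ, k1, -, -, k2⟩ := exists_E hb z₀ p
  have hre : ζ.re = 0 := by
    by_contra hne
    have hpos : 0 < ζ.re := lt_of_le_of_ne k1 (Ne.symm hne)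
    have k3 := (mem_Sg_iff z₀ b p).1 hp
    rw [← k2, lv_E] at k3
    exact ((lx_lt hb le_rfl k1).2 hpos).ne' k3
  have hsp : ‖exp ζ‖ = 1 := by rw [Complex.norm_exp, hre, Real.exp_zero]
  have hsp0 : exp ζ ≠ 0 := Complex.exp_ne_zero ζ
  have hJ : J z₀ b (exp ζ) = p := k2
  have hJinv : ∀ s : ℂ, J z₀ b s⁻¹ = J z₀ b s := by
    intro s
    unfold J
    rw [inv_inv, add_comm s⁻¹ s]
  have hsp' : ‖(exp ζ)⁻¹‖ = 1 := by rw [norm_inv, hsp, inv_one]
  have e1 := Ev_near h1 hTa hK.isClosed hC₂ hS2 hE hpK hpU hsp hJ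
  have e2 := Ev_near h1 hTa hK.isClosed hC₂ hS2 hE hpK hpU hsp' ((hJinv _).trans hJ)
  have hti : Tendsto (fun s : ℂ => s⁻¹) (𝓝 (exp ζ)) (𝓝 (exp ζ)⁻¹) := tendsto_inv₀ hsp0
  refine Lo h0 h1 hX hsp ?_
  filter_upwards [e1, hti.eventually e2] with s h2 h3
  rw [hJinv, inv_inv] at h3
  have h4 : T s⁻¹ = ∑' n, X n * s ^ (n + 1) := by
    rw [hT]
    simp only [inv_inv]
  have h5 : T s = ∑' n, X n * s⁻¹ ^ (n + 1) := by rw [hT]
  rw [← h4, ← h5, h2, h3]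
  ring

end ED1
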