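import Pool.Agent.H1.ED.P0

/-!
# If the gradient vanishes in the inclusion then the Neumann data vanish
-/

set_option autoImplicit false

namespace ED1

open Complex Set Filter Topology MeasureTheory MD12
open scoped ComplexConjugate ContDiff Real

theorem Fg {Ω : Set ℂ} (hΩo : IsOpen Ω) (hΩb : Bornology.IsBounded Ω) (hΩc : IsPreconnected Ω)
    (hσ : μH[1] (frontier Ω) < ⊤) {k : ℝ} {D : Set ℂ} (hDo : IsOpen D) (hDn : D.Nonempty) (hD : D ⊆ Ω)
    {g u : ℂ → ℝ} {G : ℂ → ℂ} (hg : MemLp g 2 (μH[1].restrict (frontier Ω)))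
    (h : SolvesC Ω (cond k D) g u G) (h0 : ∀ᵐ z ∂volume.restrict D, G z = 0) :
    g =ᵐ[μH[1].restrict (frontier Ω)] 0 := by
  -- the conductivity plays no role
  have hae : ∀ φ : ℂ → ℝ, ∀ᵐ z ∂volume.restrict Ω,
      cond k D z * fderiv ℝ φ z (G z) = fderiv ℝ φ z (G z) := by
    intro φ
    have h1 : ∀ᵐ z ∂(volume : Measure ℂ), z ∈ D → G z = 0 :=
      (ae_restrict_iff' hDo.measurableSet).1 h0
    filter_upwards [ae_restrict_of_ae h1] with z hz
    by_cases hzD : z ∈ D
    · rw [hz hzD, map_zero, mul_zero]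
    · unfold MD12.cond
      rw [Set.indicator_of_notMem hzD]
      ring
  -- the equation is the Laplace equation on the whole of `Ω`
  have hL : Loc Ω 1 ∅ G := by
    intro φ hφ hφΩ
    have e1 : ∫ z in Ω, MD12.cond 1 ∅ z * fderiv ℝ φ z (G z) =
        ∫ z in Ω, cond k D z * fderiv ℝ φ z (G z) := by
      refine integral_congr_ae ?_
      filter_upwards [hae φ] with z hz
      rw [hz]
      unfold MD12.cond
      simp
    have e2 : ∀ z ∈ frontier Ω, g z * φ z = 0 := by
      intro z hz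
      have h1 : z ∉ tsupport φ := fun h' => by
        have h2 := hφΩ h'
        rw [hΩo.frontier_eq] at hz
        exact hz.2 h2
      rw [image_eq_zero_of_notMem_tsupport h1, mul_zero]
    rw [e1, h.eq φ hφ]
    exact setIntegral_eq_zero_of_forall_eq_zero e2
  have hw : WHar Ω u := whar_of_loc hΩo h.sob one_pos hL (Or.inl (Set.empty_disjoint Ω))
  have hli : LocallyIntegrableOn u Ω volume :=
    locallyIntegrableOn_of_locallyIntegrable_restrict
      (h.sob.memu.locallyIntegrable (by norm_num))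
  obtain ⟨V, hV, hVu⟩ := weyl hΩo hli hw
  -- `V` is constant on a ball in `D`, hence on `Ω`
  obtain ⟨z₀, hz₀⟩ := hDn
  obtain ⟨r, hr, hrD⟩ := Metric.isOpen_iff.1 hDo z₀ hz₀
  have hB : Metric.ball z₀ r ⊆ Ω := hrD.trans hD
  have hc := const_of_grad_zero Metric.isOpen_ball (convex_ball z₀ r).isPreconnected
    (h.sob.mono hΩo Metric.isOpen_ball hB) (ae_restrict_of_ae_restrict_of_subset hrD h0)
    (fun z hz => hV z (hB hz)) (ae_restrict_of_ae_restrict_of_subset hB hVu)
  have hz₀V : V =ᶠ[𝓝 z₀] fun _ => V z₀ := by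
    filter_upwards [Metric.isOpen_ball.mem_nhds (Metric.mem_ball_self hr)] with z hz
    exact hc z hz z₀ (Metric.mem_ball_self hr)
  have hVΩ := har_ident hΩc hV (fun z _ => har_const (V z₀) z) (hD hz₀) hz₀V
  have hu : ∀ᵐ z ∂volume.restrict Ω, u z = V z₀ := by
    filter_upwards [hVu, ae_restrict_mem hΩo.measurableSet] with z e1 e2
    rw [← e1]
    exact (hVΩ z e2).self_of_nhds
  have hG : ∀ᵐ z ∂volume.restrict Ω, G z = 0 :=
    grad_unique hΩo h.sob (finz_const hΩb (V z₀)) hu
  -- the Neumann data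
  have : IsFiniteMeasure (μH[1].restrict (frontier Ω)) := ⟨by
    rw [Measure.restrict_apply_univ]
    exact hσ⟩
  have hgi : Integrable g (μH[1].restrict (frontier Ω)) := hg.integrable one_le_two
  refine ae_eq_zero_of_integral_contDiff_smul_eq_zero hgi.locallyIntegrable ?_
  intro φ hφ1 hφ2
  have h1 := h.eq φ ⟨hφ1, hφ2⟩
  have h2 : ∫ z in Ω, cond k D z * fderiv ℝ φ z (G z) = 0 := by
    rw [integral_congr_ae (g := fun _ => (0 : ℝ)) ?_]
    · simp
    · filter_upwards [hG] with z hz
      rw [hz]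
      simp
  rw [h2] at h1
  rw [h1]
  refine integral_congr_ae (Filter.Eventually.of_forall fun z => ?_)
  simp only [smul_eq_mul]
  ring

end ED1
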