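import Pool.Agent.H1.ED.Jl

/-!
ROW Fo. Fourier integrals of the field.
* `per_const`: `d/dρ ∫₀^{2π} f(ρ+it) dt = ∫ f'(ρ+it) dt = [f(ρ+it)/i] = 0` (differentiation under the integral: `intervalIntegral.hasDerivAt_integral_of_dominated_loc_of_deriv_le`), or
  Cauchy's theorem on the rectangle `[ρ,ρ'] × [0,2π]` (`Complex.integral_boundary_rect_eq_zero_of_differentiableOn`), the horizontal sides cancel by periodicity.
* `Fc_const_in`, `Fc_const_out`: apply it to `f ζ = F (E ζ) dE ζ e^(-mζ)` on `|Re ζ| < y` resp. `x < Re ζ < y` (`E_mem_De`, `E_mem_An`).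
* `Fc_anti`: `Fc x m = Fc (-x) m` (same function, `|Re ζ| < y`) and the substitution `t → 2π - t` (`E_neg`, `dE_neg`, periodicity) turns `Fc (-x) m` into `-Fc x (-m)`.
* `Fc_bound`: `‖exp(-m(t+is))‖ = e^(-mt)` and `F (E ·) dE` is continuous on the segment: bounded.
-/

set_option autoImplicit false

namespace ED1

open Complex Set Filter Topology MeasureTheory
open scoped ComplexConjugate ContDiff Real

theorem per_const {x y : ℝ} {f : ℂ → ℂ} (hf : DifferentiableOn ℂ f {ζ | x < ζ.re ∧ ζ.re < y})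
    (hp : ∀ ζ : ℂ, f (ζ + 2 * π * I) = f ζ) {ρ ρ' : ℝ} (h : x < ρ ∧ ρ < y) (h' : x < ρ' ∧ ρ' < y) :
    ∫ t in (0 : ℝ)..(2 * π), f (ρ + t * I) = ∫ t in (0 : ℝ)..(2 * π), f (ρ' + t * I) := by
  have key := Complex.integral_boundary_rect_eq_zero_of_differentiableOn f (ρ : ℂ)
    ((ρ' : ℂ) + ((2 * π : ℝ) : ℂ) * I) (hf.mono ?_)
  · have e1 : ((ρ' : ℂ) + ((2 * π : ℝ) : ℂ) * I).re = ρ' := by
      simp only [Complex.add_re, Complex.mul_re, Complex.ofReal_re, Complex.ofReal_im, Complex.I_re,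
        Complex.I_im]
      ring
    have e2 : ((ρ' : ℂ) + ((2 * π : ℝ) : ℂ) * I).im = 2 * π := by
      simp only [Complex.add_im, Complex.mul_im, Complex.ofReal_re, Complex.ofReal_im, Complex.I_re,
        Complex.I_im]
      ring
    rw [e1, e2, Complex.ofReal_re, Complex.ofReal_im] at key
    have e3 : (∫ x : ℝ in ρ..ρ', f (x + ((2 * π : ℝ) : ℂ) * I)) =
        ∫ x : ℝ in ρ..ρ', f (x + ((0 : ℝ) : ℂ) * I) := by
      refine intervalIntegral.integral_congr fun u _ => ?_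
      have := hp (u : ℂ)
      rw [Complex.ofReal_zero, zero_mul, add_zero, ← this]
      push_cast
      rfl
    rw [e3, sub_self, zero_add, ← smul_sub, smul_eq_zero] at key
    rcases key with h1 | h1
    · exact absurd h1 Complex.I_ne_zero
    · exact (sub_eq_zero.1 h1).symm
  · rintro ζ ⟨h1, -⟩
    have e1 : ((ρ' : ℂ) + ((2 * π : ℝ) : ℂ) * I).re = ρ' := by
      simp only [Complex.add_re, Complex.mul_re, Complex.ofReal_re, Complex.ofReal_im, Complex.I_re,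
        Complex.I_im]
      ring
    simp only [Set.mem_preimage] at h1
    rw [e1, Complex.ofReal_re, Set.mem_uIcc] at h1
    rcases h1 with h1 | h1
    · exact ⟨by linarith [h1.1, h.1], by linarith [h1.2, h'.2]⟩
    · exact ⟨by linarith [h1.1, h'.1], by linarith [h1.2, h.2]⟩

private theorem Fo_per (z₀ b : ℂ) (F : ℂ → ℂ) (m : ℤ) (ζ : ℂ) :
    F (E z₀ b (ζ + 2 * π * I)) * dE b (ζ + 2 * π * I) * exp (-(m * (ζ + 2 * π * I))) =
      F (E z₀ b ζ) * dE b ζ * exp (-(m * ζ)) := by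
  rw [E_per, dE_per]
  have h1 : -((m : ℂ) * (ζ + 2 * π * I)) = -(m * ζ) + ((-m : ℤ) : ℂ) * (2 * π * I) := by
    push_cast; ring
  rw [h1, Complex.exp_add, Complex.exp_int_mul_two_pi_mul_I, mul_one]

private theorem Fo_diff {z₀ b : ℂ} {F : ℂ → ℂ} {U V : Set ℂ} (hF : DifferentiableOn ℂ F V)
    (hE : ∀ ζ ∈ U, E z₀ b ζ ∈ V) (m : ℤ) :
    DifferentiableOn ℂ (fun ζ => F (E z₀ b ζ) * dE b ζ * exp (-(m * ζ))) U := by
  have h1 : DifferentiableOn ℂ (fun ζ => F (E z₀ b ζ)) U :=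
    hF.comp (fun ζ _ => (hasDeriv_E z₀ b ζ).differentiableAt.differentiableWithinAt) hE
  have h2 : Differentiable ℂ (fun ζ => dE b ζ) := by
    unfold dE
    fun_prop
  have h3 : Differentiable ℂ (fun ζ : ℂ => exp (-(m * ζ))) := by fun_prop
  exact (h1.mul h2.differentiableOn).mul h3.differentiableOn

theorem Fc_const_in {z₀ b : ℂ} (hb : b ≠ 0) {y : ℝ} {F : ℂ → ℂ} (hF : DifferentiableOn ℂ F (De z₀ b y))
    (m : ℤ) {s t : ℝ} (hs : |s| < y) (ht : |t| < y) : Fc z₀ b F s m = Fc z₀ b F t m := by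
  have hy : 0 ≤ y := (abs_nonneg s).trans hs.le
  have hd := Fo_diff (z₀ := z₀) (b := b) (U := {ζ : ℂ | -y < ζ.re ∧ ζ.re < y}) hF
    (fun ζ hζ => (E_mem_De hb hy).2 (abs_lt.2 hζ)) m
  exact per_const hd (Fo_per z₀ b F m) (abs_lt.1 hs) (abs_lt.1 ht)

theorem Fc_const_out {z₀ b : ℂ} (hb : b ≠ 0) {x y : ℝ} (hx : 0 ≤ x) {F : ℂ → ℂ}
    (hF : DifferentiableOn ℂ F (An z₀ b x y)) (m : ℤ) {s t : ℝ} (hs : x < s ∧ s < y) (ht : x < t ∧ t < y) :
    Fc z₀ b F s m = Fc z₀ b F t m := by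
  have hy : 0 ≤ y := by linarith [hs.1, hs.2]
  have hd := Fo_diff (z₀ := z₀) (b := b) (U := {ζ : ℂ | x < ζ.re ∧ ζ.re < y}) hF
    (fun ζ hζ => (E_mem_An hb hx hy (by linarith [hζ.1])).2 hζ) m
  exact per_const hd (Fo_per z₀ b F m) hs ht

theorem Fc_anti {z₀ b : ℂ} (hb : b ≠ 0) {y : ℝ} {F : ℂ → ℂ} (hF : DifferentiableOn ℂ F (De z₀ b y))
    (m : ℤ) {s : ℝ} (hs : |s| < y) : Fc z₀ b F s (-m) = -Fc z₀ b F s m := by
  have hs' : |(-s)| < y := by rwa [abs_neg]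
  rw [Fc_const_in hb hF m hs hs']
  unfold Fc
  rw [← intervalIntegral.integral_neg]
  have h1 := intervalIntegral.integral_comp_sub_left (a := 0) (b := 2 * π)
    (fun t : ℝ => -(F (E z₀ b (((-s : ℝ) : ℂ) + t * I)) * dE b (((-s : ℝ) : ℂ) + t * I) *
      exp (-(m * (((-s : ℝ) : ℂ) + t * I))))) (2 * π)
  rw [sub_self, sub_zero] at h1
  rw [← h1]
  refine intervalIntegral.integral_congr fun t _ => ?_
  have h2 : ((-s : ℝ) : ℂ) + ((2 * π - t : ℝ) : ℂ) * I = -((s : ℂ) + t * I) + 2 * π * I := by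
    push_cast; ring
  rw [h2, Fo_per, E_neg, dE_neg]
  push_cast
  have h3 : -(-(m : ℂ) * (s + t * I)) = -(m * -((s : ℂ) + t * I)) := by ring
  rw [h3]
  ring

theorem Fc_bound {z₀ b : ℂ} (hb : b ≠ 0) {x y : ℝ} (hx : 0 ≤ x) {F : ℂ → ℂ}
    (hF : DifferentiableOn ℂ F (An z₀ b x y)) {t : ℝ} (ht : x < t ∧ t < y) :
    ∃ C : ℝ, ∀ m : ℤ, ‖Fc z₀ b F t m‖ ≤ C * Real.exp (-(m * t)) := by
  have hy : 0 ≤ y := by linarith [ht.1, ht.2]
  have hd := Fo_diff (z₀ := z₀) (b := b) (U := {ζ : ℂ | x < ζ.re ∧ ζ.re < y}) hF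
    (fun ζ hζ => (E_mem_An hb hx hy (by linarith [hζ.1])).2 hζ) 0
  have hc : Continuous fun s : ℝ => (t : ℂ) + s * I := by fun_prop
  have hm : ∀ s : ℝ, ((t : ℂ) + s * I) ∈ {ζ : ℂ | x < ζ.re ∧ ζ.re < y} := by
    intro s
    have e1 : ((t : ℂ) + s * I).re = t := by
      simp only [Complex.add_re, Complex.mul_re, Complex.ofReal_re, Complex.ofReal_im, Complex.I_re,
        Complex.I_im]
      ring
    refine ⟨?_, ?_⟩
    · rw [e1]; exact ht.1
    · rw [e1]; exact ht.2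
  have hcont : Continuous fun s : ℝ => F (E z₀ b ((t : ℂ) + s * I)) * dE b ((t : ℂ) + s * I) *
      exp (-(((0 : ℤ) : ℂ) * ((t : ℂ) + s * I))) :=
    hd.continuousOn.comp_continuous hc hm
  obtain ⟨C, hC⟩ := (isCompact_Icc (a := (0 : ℝ)) (b := 2 * π)).exists_bound_of_continuousOn
    hcont.continuousOn
  refine ⟨C * (2 * π), fun m => ?_⟩
  have hpi : (0 : ℝ) ≤ 2 * π := by positivity
  have h1 : ∀ s ∈ Set.uIoc (0 : ℝ) (2 * π), ‖F (E z₀ b ((t : ℂ) + s * I)) *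
      dE b ((t : ℂ) + s * I) * exp (-((m : ℂ) * ((t : ℂ) + s * I)))‖ ≤ C * Real.exp (-(m * t)) := by
    intro s hs
    rw [Set.uIoc_of_le hpi] at hs
    have h2 := hC s ⟨hs.1.le, hs.2⟩
    rw [Int.cast_zero, zero_mul, neg_zero, Complex.exp_zero, mul_one] at h2
    rw [norm_mul, Complex.norm_exp]
    have e1 : (-((m : ℂ) * ((t : ℂ) + s * I))).re = -(m * t) := by
      simp
    rw [e1]
    exact mul_le_mul_of_nonneg_right h2 (Real.exp_pos _).le
  have h3 := intervalIntegral.norm_integral_le_of_norm_le_const h1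
  rw [sub_zero, abs_of_nonneg hpi] at h3
  unfold Fc
  refine h3.trans (le_of_eq ?_)
  ring

end ED1
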