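import Pool.Agent.H1.ED.P0
import Pool.Agent.H1.ED.Fo
import Pool.Agent.H1.ED.Cv
import Pool.Agent.H1.ED.Cw

/-!
ROW If. The integral of `F grad φ` over an elliptic annulus. `cv`: `∫_{An x y} F gr φ = ∫_{St x y} ‖dE‖² F(E) gr φ(E)`. With `Ψ ζ = φ (E ζ)`, `q = conj(dE) gr φ(E)`:
`Ψ_ρ = dφ(dE) = Re q`, `Ψ_t = dφ(i dE) = Im q` (`MONO_gr_inner`), so `‖dE‖² F(E) gr φ(E) = g (Ψ_ρ + i Ψ_t)`, `g = F(E) dE`; for `Re ζ > 0` `Ψ = χ(ρ) (c e^(-int) + c̄ e^(int))/2`, so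
`Ψ_ρ + i Ψ_t = χ'(c e^(-int) + c̄ e^(int))/2 + n χ (c e^(-int) - c̄ e^(int))/2`. `∫_0^{2π} g e^(-int) dt = e^(nρ) Fc ρ n`, `∫ g e^(int) dt = e^(-nρ) Fc ρ (-n)`, `Fc ρ = Fc t` (`Fc_const_out`).
So the inner integral is `d/dρ [χ(ρ) (c Fc t n e^(nρ) + c̄ Fc t (-n) e^(-nρ))/2]` (`St_int`, FTC). Integrability: `F` square integrable, `gr φ` bounded, the annulus bounded.
-/

set_option autoImplicit false

namespace ED1

open Complex Set Filter Topology MeasureTheory MD12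
open scoped ComplexConjugate ContDiff Real

theorem if_gr_cont {φ : ℂ → ℝ} (hφ : IsTest φ) : Continuous (MONO_gr φ) := by
  have hfd : Continuous (fun z => fderiv ℝ φ z) := hφ.1.continuous_fderiv (by simp)
  have hfdv : ∀ v : ℂ, Continuous (fun z => fderiv ℝ φ z v) := fun v =>
    hfd.clm_apply continuous_const
  unfold MONO_gr
  exact (Complex.continuous_ofReal.comp (hfdv 1)).add
    ((Complex.continuous_ofReal.comp (hfdv I)).mul continuous_const)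

theorem if_gr_bdd {φ : ℂ → ℝ} (hφ : IsTest φ) : ∃ C, ∀ z, ‖MONO_gr φ z‖ ≤ C := by
  have hs : HasCompactSupport (MONO_gr φ) :=
    (hφ.2.fderiv ℝ).comp_left (g := fun L : ℂ →L[ℝ] ℝ => (L 1 : ℂ) + (L I : ℂ) * I) (by simp)
  exact (if_gr_cont hφ).bounded_above_of_compact_support hs

theorem if_point {z₀ b : ℂ} {χ : ℝ → ℝ} (hχ : ContDiff ℝ ∞ χ) {φ : ℂ → ℝ} (hφ : IsTest φ)
    {n : ℤ} {c : ℂ}
    (hφχ : ∀ ζ : ℂ, 0 < ζ.re → φ (E z₀ b ζ) = χ ζ.re * (c * exp (-(n * ζ.im * I))).re)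
    {ρ : ℝ} (hρ : 0 < ρ) (t : ℝ) :
    conj (dE b (ρ + t * I)) * MONO_gr φ (E z₀ b (ρ + t * I)) =
      deriv χ ρ * (c * exp (-(n * t * I)) + conj c * exp (n * t * I)) / 2 +
        n * χ ρ * (c * exp (-(n * t * I)) - conj c * exp (n * t * I)) / 2 := by
  have hφd : HasFDerivAt φ (fderiv ℝ φ (E z₀ b (ρ + t * I))) (E z₀ b (ρ + t * I)) :=
    (hφ.1.differentiable (by simp) _).hasFDerivAt
  have hχd : HasDerivAt χ (deriv χ ρ) ρ := (hχ.differentiable (by simp) _).hasDerivAt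
  have hE := hasDeriv_E z₀ b (ρ + t * I)
  -- derivative in ρ
  have h1 : HasDerivAt (fun s : ℝ => (s : ℂ) + t * I) 1 ρ :=
    (Complex.ofRealCLM.hasDerivAt (x := ρ)).add_const _
  have h2 : HasDerivAt (fun s : ℝ => E z₀ b ((s : ℂ) + t * I)) (dE b (ρ + t * I) * 1) ρ :=
    HasDerivAt.comp (h := fun s : ℝ => (s : ℂ) + t * I) ρ hE h1
  have h3 : HasDerivAt (fun s : ℝ => φ (E z₀ b ((s : ℂ) + t * I)))
      (fderiv ℝ φ (E z₀ b (ρ + t * I)) (dE b (ρ + t * I) * 1)) ρ :=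
    HasFDerivAt.comp_hasDerivAt (f := fun s : ℝ => E z₀ b ((s : ℂ) + t * I)) ρ hφd h2
  have h4 : HasDerivAt (fun s : ℝ => φ (E z₀ b ((s : ℂ) + t * I)))
      (deriv χ ρ * (c * exp (-(n * t * I))).re) ρ := by
    refine (hχd.mul_const ((c * exp (-(n * t * I))).re)).congr_of_eventuallyEq ?_
    filter_upwards [lt_mem_nhds hρ] with s hs
    have := hφχ ((s : ℂ) + t * I) (by simpa using hs)
    simpa using this
  have h5 := h3.unique h4
  -- derivative in t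
  have k1 : HasDerivAt (fun s : ℝ => (ρ : ℂ) + s * I) I t := by
    have := ((Complex.ofRealCLM.hasDerivAt (x := t)).mul_const I).const_add (ρ : ℂ)
    simpa using this
  have k2 : HasDerivAt (fun s : ℝ => E z₀ b ((ρ : ℂ) + s * I)) (dE b (ρ + t * I) * I) t :=
    HasDerivAt.comp (h := fun s : ℝ => (ρ : ℂ) + s * I) t hE k1
  have k3 : HasDerivAt (fun s : ℝ => φ (E z₀ b ((ρ : ℂ) + s * I)))
      (fderiv ℝ φ (E z₀ b (ρ + t * I)) (dE b (ρ + t * I) * I)) t :=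
    HasFDerivAt.comp_hasDerivAt (f := fun s : ℝ => E z₀ b ((ρ : ℂ) + s * I)) t hφd k2
  have k4 : HasDerivAt (fun s : ℝ => φ (E z₀ b ((ρ : ℂ) + s * I)))
      (χ ρ * (c * (exp (-(n * t * I)) * (-(n * I)))).re) t := by
    have e1 : HasDerivAt (fun s : ℝ => -((n : ℂ) * (s : ℂ) * I)) (-(n * I)) t := by
      have := (((Complex.ofRealCLM.hasDerivAt (x := t)).const_mul (n : ℂ)).mul_const I).fun_neg
      simpa using this
    have e2 : HasDerivAt (fun s : ℝ => c * exp (-((n : ℂ) * (s : ℂ) * I)))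
        (c * (exp (-(n * t * I)) * (-(n * I)))) t := e1.cexp.const_mul c
    have e3 : HasDerivAt (fun s : ℝ => (c * exp (-((n : ℂ) * (s : ℂ) * I))).re)
        (c * (exp (-(n * t * I)) * (-(n * I)))).re t :=
      HasFDerivAt.comp_hasDerivAt (f := fun s : ℝ => c * exp (-((n : ℂ) * (s : ℂ) * I))) t
        (Complex.reCLM.hasFDerivAt) e2
    refine (e3.const_mul (χ ρ)).congr_of_eventuallyEq (Eventually.of_forall fun s => ?_)
    have := hφχ ((ρ : ℂ) + s * I) (by simpa using hρ)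
    simpa using this
  have k5 := k3.unique k4
  have hw : conj (c * exp (-(n * t * I))) = conj c * exp (n * t * I) := by
    rw [map_mul, ← Complex.exp_conj]
    simp
  rw [← hw]
  set w : ℂ := c * exp (-(n * t * I)) with hwd
  rw [← MONO_gr_inner, Complex.inner] at h5 k5
  have k6 : (c * (exp (-(n * t * I)) * (-(n * I)))).re = n * w.im := by
    rw [hwd, ← mul_assoc]
    simp
    ring
  rw [k6] at k5
  apply Complex.ext
  · simp at h5 ⊢
    linarith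
  · simp at k5 ⊢
    linarith

theorem if_cont {z₀ b : ℂ} (hb : b ≠ 0) {x y : ℝ} (hx : 0 ≤ x) {F : ℂ → ℂ}
    (hF : DifferentiableOn ℂ F (An z₀ b x y)) {ρ : ℝ} (hρ : x < ρ ∧ ρ < y) (m : ℤ) :
    Continuous (fun t : ℝ => F (E z₀ b (ρ + t * I)) * dE b (ρ + t * I) * exp (-(m * (ρ + t * I)))) := by
  have hE : Continuous (E z₀ b) := by
    rw [continuous_iff_continuousAt]
    exact fun ζ => (hasDeriv_E z₀ b ζ).continuousAt
  have hg : Continuous (fun t : ℝ => (ρ : ℂ) + t * I) := by fun_prop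
  have hEm : ∀ t : ℝ, E z₀ b ((ρ : ℂ) + t * I) ∈ An z₀ b x y := by
    intro t
    have hre : ((ρ : ℂ) + t * I).re = ρ := by simp
    rw [E_mem_An hb hx (hx.trans (hρ.1.trans hρ.2).le) (by rw [hre]; exact hx.trans hρ.1.le), hre]
    exact hρ
  have hFE : Continuous (fun t : ℝ => F (E z₀ b (ρ + t * I))) :=
    hF.continuousOn.comp_continuous (hE.comp hg) hEm
  refine (hFE.mul ?_).mul ?_
  · unfold dE
    fun_prop
  · fun_prop

theorem if_inner {z₀ b : ℂ} (hb : b ≠ 0) {x y : ℝ} (hx : 0 ≤ x) {F : ℂ → ℂ}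
    (hF : DifferentiableOn ℂ F (An z₀ b x y))
    {χ : ℝ → ℝ} (hχ : ContDiff ℝ ∞ χ) {φ : ℂ → ℝ} (hφ : IsTest φ) {n : ℤ} {c : ℂ}
    (hφχ : ∀ ζ : ℂ, 0 < ζ.re → φ (E z₀ b ζ) = χ ζ.re * (c * exp (-(n * ζ.im * I))).re)
    {ρ : ℝ} (hρ : x < ρ ∧ ρ < y) :
    ∫ t in (0 : ℝ)..(2 * π), ((‖dE b (ρ + t * I)‖ ^ 2 : ℝ) : ℂ) *
        (F (E z₀ b (ρ + t * I)) * MONO_gr φ (E z₀ b (ρ + t * I))) =
      (deriv χ ρ + n * χ ρ) * c / 2 * exp (n * ρ) * Fc z₀ b F ρ n +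
      (deriv χ ρ - n * χ ρ) * conj c / 2 * exp (-(n * ρ)) * Fc z₀ b F ρ (-n) := by
  have h0 : 0 < ρ := hx.trans_lt hρ.1
  have hi := if_cont hb hx hF hρ n
  have hi' := if_cont hb hx hF hρ (-n)
  rw [Fc, Fc, ← intervalIntegral.integral_const_mul, ← intervalIntegral.integral_const_mul,
    ← intervalIntegral.integral_add ((hi.const_mul _).intervalIntegrable _ _)
      ((hi'.const_mul _).intervalIntegrable _ _)]
  refine intervalIntegral.integral_congr fun t _ => ?_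
  have hp := if_point hχ hφ hφχ h0 t
  have hn : ((‖dE b (ρ + t * I)‖ ^ 2 : ℝ) : ℂ) = dE b (ρ + t * I) * conj (dE b (ρ + t * I)) := by
    rw [Complex.mul_conj']
    push_cast
    ring
  have e1 : exp (-((n : ℂ) * (t : ℂ) * I)) = exp (n * ρ) * exp (-((n : ℂ) * (ρ + t * I))) := by
    rw [← Complex.exp_add]; ring_nf
  have e2 : exp ((n : ℂ) * (t : ℂ) * I) = exp (-(n * ρ)) * exp (-(((-n : ℤ) : ℂ) * (ρ + t * I))) := by
    rw [← Complex.exp_add]; push_cast; ring_nf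
  rw [e1, e2] at hp
  rw [hn]
  calc dE b (ρ + t * I) * conj (dE b (ρ + t * I)) * (F (E z₀ b (ρ + t * I)) * MONO_gr φ (E z₀ b (ρ + t * I)))
      = F (E z₀ b (ρ + t * I)) * dE b (ρ + t * I) *
        (conj (dE b (ρ + t * I)) * MONO_gr φ (E z₀ b (ρ + t * I))) := by ring
    _ = _ := by rw [hp]; ring

theorem if_int {z₀ b : ℂ} (hb : b ≠ 0) {x y : ℝ} (hx : 0 ≤ x) (hxy : x < y) {F : ℂ → ℂ}
    (hF : DifferentiableOn ℂ F (An z₀ b x y)) (hF2 : MemLp F 2 (volume.restrict (An z₀ b x y)))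
    {χ : ℝ → ℝ} (hχ : ContDiff ℝ ∞ χ) {φ : ℂ → ℝ} (hφ : IsTest φ) {n : ℤ} {c : ℂ}
    (hφχ : ∀ ζ : ℂ, 0 < ζ.re → φ (E z₀ b ζ) = χ ζ.re * (c * exp (-(n * ζ.im * I))).re)
    {t : ℝ} (ht : x < t ∧ t < y) :
    ∫ z in An z₀ b x y, F z * MONO_gr φ z =
      χ y * (c * Fc z₀ b F t n * exp (n * y) + conj c * Fc z₀ b F t (-n) * exp (-(n * y))) / 2 -
      χ x * (c * Fc z₀ b F t n * exp (n * x) + conj c * Fc z₀ b F t (-n) * exp (-(n * x))) / 2 := by
  have hy : 0 ≤ y := hx.trans hxy.le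
  have hsub : An z₀ b x y ⊆ De z₀ b y := fun z hz => hz.2
  have hfin : volume (An z₀ b x y) < ⊤ := ((De_bdd z₀ b y).subset hsub).measure_lt_top
  have hm : MeasurableSet (An z₀ b x y) := (An_open z₀ b x y).measurableSet
  have : IsFiniteMeasure (volume.restrict (An z₀ b x y)) := ⟨by rwa [Measure.restrict_apply_univ]⟩
  obtain ⟨C, hC⟩ := if_gr_bdd hφ
  have hF1 : Integrable F (volume.restrict (An z₀ b x y)) := hF2.integrable (by norm_num)
  have hint : IntegrableOn (fun z => F z * MONO_gr φ z) (An z₀ b x y) :=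
    hF1.mul_bdd (c := C) (if_gr_cont hφ).aestronglyMeasurable (Eventually.of_forall hC)
  rw [cv hb hx hy (fun z => F z * MONO_gr φ z), St_int hxy.le ((cv_int hb hx hy _).1 hint)]
  set A := Fc z₀ b F t n with hA
  set B := Fc z₀ b F t (-n) with hB
  have hder : ∀ ρ : ℝ, HasDerivAt (fun ρ : ℝ => (χ ρ : ℂ) * (c * A * exp (n * ρ) + conj c * B * exp (-(n * ρ))) / 2)
      ((deriv χ ρ + n * χ ρ) * c / 2 * exp (n * ρ) * A +
      (deriv χ ρ - n * χ ρ) * conj c / 2 * exp (-(n * ρ)) * B) ρ := by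
    intro ρ
    have hχd : HasDerivAt (fun s : ℝ => (χ s : ℂ)) ((deriv χ ρ : ℝ) : ℂ) ρ :=
      (hχ.differentiable (by simp) ρ).hasDerivAt.ofReal_comp
    have e1 : HasDerivAt (fun s : ℝ => exp ((n : ℂ) * (s : ℂ))) (exp (n * ρ) * n) ρ := by
      have := ((Complex.ofRealCLM.hasDerivAt (x := ρ)).const_mul (n : ℂ)).cexp
      simpa using this
    have e2 : HasDerivAt (fun s : ℝ => exp (-((n : ℂ) * (s : ℂ)))) (exp (-(n * ρ)) * (-n)) ρ := by
      have := ((Complex.ofRealCLM.hasDerivAt (x := ρ)).const_mul (n : ℂ)).fun_neg.cexp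
      simpa using this
    have e3 := (hχd.mul ((e1.const_mul (c * A)).add (e2.const_mul (conj c * B)))).div_const 2
    refine e3.congr_deriv ?_
    simp only [Pi.add_apply]
    ring
  have hcont : Continuous (fun ρ : ℝ => (((deriv χ ρ : ℝ) : ℂ) + n * χ ρ) * c / 2 * exp (n * ρ) * A +
      (((deriv χ ρ : ℝ) : ℂ) - n * χ ρ) * conj c / 2 * exp (-(n * ρ)) * B) := by
    have h1 : Continuous (fun ρ : ℝ => ((deriv χ ρ : ℝ) : ℂ)) :=
      Complex.continuous_ofReal.comp (hχ.continuous_deriv (by simp))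
    have h2 : Continuous (fun ρ : ℝ => (χ ρ : ℂ)) := Complex.continuous_ofReal.comp hχ.continuous
    fun_prop
  rw [← intervalIntegral.integral_eq_sub_of_hasDerivAt (fun ρ _ => hder ρ)
    (hcont.intervalIntegrable _ _)]
  rw [intervalIntegral.integral_of_le hxy.le, intervalIntegral.integral_of_le hxy.le,
    integral_Ioc_eq_integral_Ioo, integral_Ioc_eq_integral_Ioo]
  refine setIntegral_congr_fun measurableSet_Ioo fun ρ hρ => ?_
  have := if_inner hb hx hF hχ hφ hφχ (ρ := ρ) ⟨hρ.1, hρ.2⟩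
  rw [Fc_const_out hb hx hF n ⟨hρ.1, hρ.2⟩ ht, Fc_const_out hb hx hF (-n) ⟨hρ.1, hρ.2⟩ ht] at this
  exact this

end ED1
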