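import Pool.Agent.H1.ED.P0
import Pool.Agent.H1.ED.Cw

/-!
ROW Ig. The two weak equations in complex form. `De y = De x ∪ An x y` up to a null set (`De_An_ae`), disjoint.
First: `Loc` with the test function `φ`: `dφ(G) = Re (conj G gr φ) = Re (F gr φ)` (`MONO_gr_inner`), `cond = k` on `De x`, `1` on `An x y`.
Second: `Sob.grad` with the test functions `∂_I φ` (direction `1`) and `∂_1 φ` (direction `I`) and the symmetry of the second derivative: `∫ (G_x φ_y - G_y φ_x) = 0`, and
`Im (F gr φ) = G_x φ_y - G_y φ_x`. All products are integrable (`G ∈ L²`, `φ` a test function).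
-/

set_option autoImplicit false

namespace ED1

open Complex Set Filter Topology MeasureTheory MD12
open scoped ComplexConjugate ContDiff Real

private theorem ig_symm {φ : ℂ → ℝ} (hφ : IsTest φ) (z v w : ℂ) :
    fderiv ℝ (fun z => fderiv ℝ φ z v) z w = fderiv ℝ (fun z => fderiv ℝ φ z w) z v := by
  have hd : DifferentiableAt ℝ (fderiv ℝ φ) z :=
    ((hφ.1.fderiv_right (m := ∞) le_rfl).differentiable (by simp)) z
  have h1 : ∀ v w : ℂ, fderiv ℝ (fun z => fderiv ℝ φ z v) z w = fderiv ℝ (fderiv ℝ φ) z w v := by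
    intro v w
    rw [fderiv_clm_apply hd (differentiableAt_const v)]
    simp
  rw [h1, h1]
  have h2 : (2 : WithTop ℕ∞) ≤ ∞ := WithTop.coe_le_coe.2 le_top
  exact (hφ.1.contDiffAt.isSymmSndFDerivAt (by simpa using h2)) w v

private theorem ig_re {φ : ℂ → ℝ} (G : ℂ → ℂ) (z : ℂ) :
    (conj (G z) * MONO_gr φ z).re = fderiv ℝ φ z (G z) := by
  rw [← MONO_gr_inner, Complex.inner]
  simp only [mul_re, conj_re, conj_im]
  ring

private theorem ig_im {φ : ℂ → ℝ} (G : ℂ → ℂ) (z : ℂ) :
    (conj (G z) * MONO_gr φ z).im =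
      inner ℝ (G z) 1 * fderiv ℝ φ z I - inner ℝ (G z) I * fderiv ℝ φ z 1 := by
  rw [Complex.inner, Complex.inner, MONO_gr]
  simp
  ring

theorem Ig {z₀ b : ℂ} {k x y : ℝ} {u : ℂ → ℝ} {G Fi Fo : ℂ → ℂ} (h : Flds z₀ b k x y u G Fi Fo)
    {φ : ℂ → ℝ} (hφ : IsTest φ) (hs : tsupport φ ⊆ De z₀ b y) :
    ((k : ℂ) * (∫ z in De z₀ b x, Fi z * MONO_gr φ z) + ∫ z in An z₀ b x y, Fo z * MONO_gr φ z).re = 0 ∧
    ((∫ z in De z₀ b x, Fi z * MONO_gr φ z) + ∫ z in An z₀ b x y, Fo z * MONO_gr φ z).im = 0 := by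
  have hDo : IsOpen (De z₀ b x) := De_open z₀ b x
  have hAo : IsOpen (An z₀ b x y) := An_open z₀ b x y
  have hdis : Disjoint (De z₀ b x) (An z₀ b x y) := by
    rw [Set.disjoint_left]
    intro z h1 h2
    exact lt_asymm h1 h2.1
  have hae := De_An_ae (z₀ := z₀) h.hb h.hx h.hxy
  have hgc : Continuous (MONO_gr φ) := by
    unfold MONO_gr
    exact (Complex.continuous_ofReal.comp (hφ.fd 1).1.1.continuous).add
      ((Complex.continuous_ofReal.comp (hφ.fd I).1.1.continuous).mul continuous_const)
  have hgs : HasCompactSupport (MONO_gr φ) := by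
    have h1 : HasCompactSupport (fderiv ℝ φ) := hφ.2.fderiv ℝ
    refine h1.mono ?_
    intro z hz
    rw [Function.mem_support] at hz ⊢
    intro h0
    apply hz
    rw [MONO_gr, h0]
    simp
  have hgL : MemLp (MONO_gr φ) 2 (volume.restrict (De z₀ b y)) :=
    (hgc.memLp_of_hasCompactSupport hgs).mono_measure Measure.restrict_le_self
  have hGL : MemLp (fun z => conj (G z)) 2 (volume.restrict (De z₀ b y)) := by
    refine h.sob.memG.congr_norm (Complex.continuous_conj.comp_aestronglyMeasurable h.sob.memG.1) ?_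
    exact Eventually.of_forall fun z => (RCLike.norm_conj (G z)).symm
  have hHN : IntegrableOn (fun z => conj (G z) * MONO_gr φ z) (De z₀ b y) := hGL.integrable_mul hgL
  have hHU : IntegrableOn (fun z => conj (G z) * MONO_gr φ z) (De z₀ b x ∪ An z₀ b x y) :=
    hHN.congr_set_ae hae.symm
  have hHD : IntegrableOn (fun z => conj (G z) * MONO_gr φ z) (De z₀ b x) :=
    hHU.mono_set subset_union_left
  have hHA : IntegrableOn (fun z => conj (G z) * MONO_gr φ z) (An z₀ b x y) :=
    hHU.mono_set subset_union_right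
  have hI : ∫ z in De z₀ b x, Fi z * MONO_gr φ z = ∫ z in De z₀ b x, conj (G z) * MONO_gr φ z := by
    refine integral_congr_ae ?_
    filter_upwards [h.ei] with z hz
    rw [hz, Complex.conj_conj]
  have hO : ∫ z in An z₀ b x y, Fo z * MONO_gr φ z =
      ∫ z in An z₀ b x y, conj (G z) * MONO_gr φ z := by
    refine integral_congr_ae ?_
    filter_upwards [h.eo] with z hz
    rw [hz, Complex.conj_conj]
  rw [hI, hO]
  constructor
  · have hrD := hHD.re
    have hrA := hHA.re
    have e0 : ∀ S : Set ℂ, IntegrableOn (fun z => conj (G z) * MONO_gr φ z) S →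
        (∫ z in S, conj (G z) * MONO_gr φ z).re = ∫ z in S, fderiv ℝ φ z (G z) := by
      intro S hS
      have h1 := Complex.reCLM.integral_comp_comm hS
      rw [Complex.reCLM_apply] at h1
      rw [← h1]
      refine integral_congr_ae (Eventually.of_forall fun z => ?_)
      exact ig_re G z
    have hfi : ∀ S : Set ℂ, IntegrableOn (fun z => conj (G z) * MONO_gr φ z) S →
        IntegrableOn (fun z => fderiv ℝ φ z (G z)) S := by
      intro S hS
      have h1 : IntegrableOn (fun z => (conj (G z) * MONO_gr φ z).re) S := hS.re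
      refine h1.congr (Eventually.of_forall fun z => ?_)
      exact ig_re G z
    have c1 : ∀ z ∈ De z₀ b x, MD12.cond k (De z₀ b x) z * fderiv ℝ φ z (G z) =
        k * fderiv ℝ φ z (G z) := by
      intro z hz
      rw [MD12.cond, indicator_of_mem hz]
      ring
    have c2 : ∀ z ∈ An z₀ b x y, MD12.cond k (De z₀ b x) z * fderiv ℝ φ z (G z) =
        fderiv ℝ φ z (G z) := by
      intro z hz
      rw [MD12.cond, indicator_of_notMem (fun h' => (Set.disjoint_left.1 hdis) h' hz)]
      ring
    have h2 := h.loc φ hφ hs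
    have i1 : IntegrableOn (fun z => k * fderiv ℝ φ z (G z)) (De z₀ b x) := (hfi _ hHD).const_mul k
    rw [setIntegral_congr_set hae, setIntegral_union hdis hAo.measurableSet
      (i1.congr_fun (fun z hz => (c1 z hz).symm) hDo.measurableSet)
      ((hfi _ hHA).congr_fun (fun z hz => (c2 z hz).symm) hAo.measurableSet),
      setIntegral_congr_fun hDo.measurableSet c1, setIntegral_congr_fun hAo.measurableSet c2,
      integral_const_mul] at h2
    rw [Complex.add_re, Complex.re_ofReal_mul, e0 _ hHD, e0 _ hHA]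
    exact h2
  · rw [← setIntegral_union hdis hAo.measurableSet hHD hHA, ← setIntegral_congr_set hae]
    have h1 := Complex.imCLM.integral_comp_comm hHN
    rw [Complex.imCLM_apply] at h1
    rw [← h1]
    obtain ⟨t1, t1'⟩ := hφ.fd 1
    obtain ⟨t2, t2'⟩ := hφ.fd I
    have g1 := h.sob.grad _ t2 (t2'.trans hs) 1
    have g2 := h.sob.grad _ t1 (t1'.trans hs) I
    have i1 := pdb_int (pdb_inner h.sob.memG 1) t2
    have i2 := pdb_int (pdb_inner h.sob.memG I) t1
    have e1 : ∫ z in De z₀ b y, Complex.imCLM (conj (G z) * MONO_gr φ z) =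
        (∫ z in De z₀ b y, inner ℝ (G z) 1 * fderiv ℝ φ z I) -
          ∫ z in De z₀ b y, inner ℝ (G z) I * fderiv ℝ φ z 1 := by
      rw [← integral_sub i1 i2]
      refine integral_congr_ae (Eventually.of_forall fun z => ?_)
      exact ig_im G z
    have e2 : ∫ z in De z₀ b y, u z * fderiv ℝ (fun z => fderiv ℝ φ z I) z 1 =
        ∫ z in De z₀ b y, u z * fderiv ℝ (fun z => fderiv ℝ φ z 1) z I := by
      refine integral_congr_ae (Eventually.of_forall fun z => ?_)
      simp only
      rw [ig_symm hφ z I 1]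
    rw [e1]
    linarith

end ED1
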