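import Pool.Agent.H1.ED.Jl

/-!
ROW Si. The inverse of the Joukowski map outside the focal segment. `w = (z - z₀)/(2 b)`, not in the real segment `[-1, 1]`;
`S = w (1 + r)`, `r = (1 - w⁻²)^(1/2)` (principal branch, `Complex.cpow`): `1 - w⁻²` is in the slit plane (`Complex.slitPlane`), because `w⁻²` real `≥ 1` means
`w` real in `[-1,1]`. `r² = 1 - w⁻²`, `w (1 - r) = S⁻¹`, `S + S⁻¹ = 2 w`; `Re r > 0` gives `‖1 + r‖ > ‖1 - r‖`, so `‖S‖ > ‖S⁻¹‖`, `‖S‖ > 1`.
`S (J s) = s` because `J (S (J s)) = J s` and both have norm `> 1` (the other root is `s⁻¹`).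
-/

set_option autoImplicit false

namespace ED1

open Complex Set Filter Topology MeasureTheory
open scoped ComplexConjugate ContDiff Real

/-- square root, principal branch -/
private theorem sq_aux {u : ℂ} (hu : u ∈ slitPlane) :
    exp (log u / 2) ^ 2 = u ∧ 0 < (exp (log u / 2)).re := by
  constructor
  · rw [← exp_nat_mul, show ((2 : ℕ) : ℂ) * (log u / 2) = log u by push_cast; ring]
    exact exp_log (slitPlane_ne_zero hu)
  · rw [exp_re]
    refine mul_pos (Real.exp_pos _) ?_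
    have h1 : (log u / 2).im = u.arg / 2 := by
      rw [show (log u / 2) = log u / ((2 : ℝ) : ℂ) by norm_num, div_ofReal_im, log_im]
    rw [h1]
    have h2 := (mem_slitPlane_iff_arg.1 hu).1
    have h3 := neg_pi_lt_arg u
    have h4 := arg_le_pi u
    have h5 : u.arg < π := lt_of_le_of_ne h4 h2
    exact Real.cos_pos_of_mem_Ioo ⟨by linarith, by linarith⟩

private theorem norm_aux {r : ℂ} (hr : 0 < r.re) : ‖1 - r‖ < ‖1 + r‖ := by
  have h1 : ‖1 - r‖ ^ 2 < ‖1 + r‖ ^ 2 := by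
    rw [← normSq_eq_norm_sq, ← normSq_eq_norm_sq, normSq_apply, normSq_apply]
    simp only [sub_re, one_re, sub_im, one_im, add_re, add_im]
    nlinarith
  exact lt_of_pow_lt_pow_left₀ 2 (norm_nonneg _) h1

private theorem mem_of_real {z₀ b z : ℂ} (hb : b ≠ 0) {t : ℝ} (h0 : -1 ≤ t) (h1 : t ≤ 1)
    (h : (z - z₀) / (2 * b) = (t : ℂ)) : z ∈ Sg z₀ b := by
  have hz : z = z₀ + 2 * b * t := by
    rw [← h]
    field_simp
    ring
  refine ⟨(1 - t) / 2, (1 + t) / 2, by linarith, by linarith, by ring, ?_⟩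
  rw [hz, real_smul, real_smul]
  push_cast
  ring

private theorem slit_aux {z₀ b z : ℂ} (hb : b ≠ 0) (hz : z ∉ Sg z₀ b) :
    (z - z₀) / (2 * b) ≠ 0 ∧ 1 - (((z - z₀) / (2 * b)) ^ 2)⁻¹ ∈ slitPlane := by
  set w := (z - z₀) / (2 * b) with hw
  have hw0 : w ≠ 0 := by
    intro h
    exact hz (mem_of_real hb (t := 0) (by norm_num) (by norm_num) (by rw [← hw, h, ofReal_zero]))
  refine ⟨hw0, ?_⟩
  by_contra hs
  rw [mem_slitPlane_iff, not_or, not_lt, not_not] at hs
  obtain ⟨h1, h2⟩ := hs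
  set u := (w ^ 2)⁻¹ with hu
  rw [sub_re, one_re] at h1
  rw [sub_im, one_im] at h2
  have h3 : (u.re : ℂ) = u := by
    apply Complex.ext
    · simp
    · rw [ofReal_im]
      linarith
  have hre : 1 ≤ u.re := by linarith
  have hpos : 0 < u.re := by linarith
  have h4 : w ^ 2 = ((Real.sqrt (u.re)⁻¹ : ℝ) : ℂ) ^ 2 := by
    rw [← ofReal_pow, Real.sq_sqrt (by positivity), ofReal_inv, h3, hu, inv_inv]
  have h5 : Real.sqrt (u.re)⁻¹ ≤ 1 := by
    rw [Real.sqrt_le_one]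
    exact inv_le_one_of_one_le₀ hre
  have h6 := Real.sqrt_nonneg (u.re)⁻¹
  rcases sq_eq_sq_iff_eq_or_eq_neg.1 h4 with h7 | h7
  · exact hz (mem_of_real hb (t := Real.sqrt (u.re)⁻¹) (by linarith) h5 (by rw [← hw, h7]))
  · exact hz (mem_of_real hb (t := -Real.sqrt (u.re)⁻¹) (by linarith) (by linarith)
      (by rw [← hw, h7, ofReal_neg]))

theorem exists_S (z₀ : ℂ) {b : ℂ} (hb : b ≠ 0) : ∃ S : ℂ → ℂ,
    (∀ z, z ∉ Sg z₀ b → 1 < ‖S z‖ ∧ J z₀ b (S z) = z ∧ AnalyticAt ℂ S z) ∧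
    (∀ s, 1 < ‖s‖ → J z₀ b s ∉ Sg z₀ b ∧ S (J z₀ b s) = s) := by
  have key : ∀ z, z ∉ Sg z₀ b →
      1 < ‖(z - z₀) / (2 * b) * (1 + exp (log (1 - (((z - z₀) / (2 * b)) ^ 2)⁻¹) / 2))‖ ∧
      J z₀ b ((z - z₀) / (2 * b) * (1 + exp (log (1 - (((z - z₀) / (2 * b)) ^ 2)⁻¹) / 2))) = z ∧
      AnalyticAt ℂ (fun z => (z - z₀) / (2 * b) *
        (1 + exp (log (1 - (((z - z₀) / (2 * b)) ^ 2)⁻¹) / 2))) z := by
    intro z hz
    obtain ⟨hw0, hs⟩ := slit_aux hb hz
    obtain ⟨hr2, hr⟩ := sq_aux hs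
    have han : AnalyticAt ℂ (fun z => (z - z₀) / (2 * b)) z := by fun_prop
    refine ⟨?_, ?_, ?_⟩
    · set w := (z - z₀) / (2 * b) with hw
      set r := exp (log (1 - (w ^ 2)⁻¹) / 2) with hrd
      have hprod : (w * (1 + r)) * (w * (1 - r)) = 1 := by
        have : (w * (1 + r)) * (w * (1 - r)) = w ^ 2 * (1 - r ^ 2) := by ring
        rw [this, hr2]
        field_simp
        ring
      have hn : ‖w * (1 - r)‖ < ‖w * (1 + r)‖ := by
        rw [norm_mul, norm_mul]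
        exact mul_lt_mul_of_pos_left (norm_aux hr) (norm_pos_iff.2 hw0)
      have hp : ‖w * (1 + r)‖ * ‖w * (1 - r)‖ = 1 := by
        rw [← norm_mul, hprod, norm_one]
      by_contra hcon
      push Not at hcon
      have h1 := norm_nonneg (w * (1 + r))
      have h2 := norm_nonneg (w * (1 - r))
      nlinarith
    · set w := (z - z₀) / (2 * b) with hw
      set r := exp (log (1 - (w ^ 2)⁻¹) / 2) with hrd
      have hprod : (w * (1 + r)) * (w * (1 - r)) = 1 := by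
        have : (w * (1 + r)) * (w * (1 - r)) = w ^ 2 * (1 - r ^ 2) := by ring
        rw [this, hr2]
        field_simp
        ring
      have hinv : (w * (1 + r))⁻¹ = w * (1 - r) := inv_eq_of_mul_eq_one_right hprod
      unfold J
      rw [hinv, show w * (1 + r) + w * (1 - r) = 2 * w by ring, hw]
      field_simp
      ring
    · refine han.mul (analyticAt_const.add (AnalyticAt.cexp ?_))
      refine AnalyticAt.div_const ?_
      refine AnalyticAt.clog ?_ hs
      exact analyticAt_const.sub ((han.pow 2).inv (pow_ne_zero 2 hw0))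
  refine ⟨fun z => (z - z₀) / (2 * b) * (1 + exp (log (1 - (((z - z₀) / (2 * b)) ^ 2)⁻¹) / 2)),
    key, ?_⟩
  intro s hs
  have hs0 : s ≠ 0 := by
    rintro rfl
    rw [norm_zero] at hs
    linarith
  have hJ : J z₀ b s ∉ Sg z₀ b := by
    have h1 : E z₀ b (log s) = J z₀ b s := by
      unfold E
      rw [exp_log hs0]
    rw [mem_Sg_iff, ← h1, lv_E, log_re]
    exact ((lx_lt hb le_rfl (Real.log_pos hs).le).2 (Real.log_pos hs)).ne'
  refine ⟨hJ, ?_⟩
  obtain ⟨h1, h2, -⟩ := key _ hJ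
  show _ * _ = _
  set S := (J z₀ b s - z₀) / (2 * b) *
    (1 + exp (log (1 - (((J z₀ b s - z₀) / (2 * b)) ^ 2)⁻¹) / 2)) with hS
  have hS0 : S ≠ 0 := by
    intro h
    rw [h, norm_zero] at h1
    linarith
  unfold J at h2
  have h3 : S + S⁻¹ = s + s⁻¹ := mul_left_cancel₀ hb (add_left_cancel h2)
  have h4 : (S - s) * (S * s - 1) = 0 := by
    field_simp at h3
    linear_combination h3
  rcases mul_eq_zero.1 h4 with h5 | h5
  · exact sub_eq_zero.1 h5
  · exfalso
    have h6 : S * s = 1 := sub_eq_zero.1 h5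
    have h7 : ‖S‖ * ‖s‖ = 1 := by rw [← norm_mul, h6, norm_one]
    nlinarith

end ED1
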