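import Pool.Agent.H1.ED.P0
import Pool.Agent.H1.ED.Si

/-!
ROW Ts. Test functions `χ(ρ) Re(c e^(-int))` in elliptic coordinates. `S` from `exists_S`, `φ z = χ (log ‖S z‖) Re (c (S z/‖S z‖)^(-n))` outside the focal segment, `0` on it.
`φ = 0` on `De δ` (open, contains the segment), smooth outside the segment (`S` analytic, `‖S‖ > 1`), `S (E ζ) = exp ζ` for `Re ζ > 0`. Support: compact because it is closed and bounded.
-/

set_option autoImplicit false

namespace ED1

open Complex Set Filter Topology MeasureTheory MD12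
open scoped ComplexConjugate ContDiff Real

theorem Ts {z₀ b : ℂ} (hb : b ≠ 0) {χ : ℝ → ℝ} (hχ : ContDiff ℝ ∞ χ) {δ M : ℝ} (hδ : 0 < δ) (hM : δ < M)
    (h0 : ∀ x < δ, χ x = 0) (h1 : ∀ x > M, χ x = 0) (n : ℤ) (c : ℂ) :
    ∃ φ : ℂ → ℝ, IsTest φ ∧ tsupport φ ⊆ {z | lv z₀ b z ≤ lx b M} ∧
      ∀ ζ : ℂ, 0 < ζ.re → φ (E z₀ b ζ) = χ ζ.re * (c * exp (-(n * ζ.im * I))).re := by
  classical
  obtain ⟨S, hS1, hS2⟩ := exists_S z₀ hb
  obtain ⟨φ, hφ⟩ : ∃ φ : ℂ → ℝ, φ = fun z => if z ∈ Sg z₀ b then 0 else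
      χ (Real.log ‖S z‖) * (Real.exp (n * Real.log ‖S z‖) * (c * S z ^ (-n)).re) := ⟨_, rfl⟩
  have hlv : Continuous fun z : ℂ => lv z₀ b z := by
    unfold lv
    fun_prop
  have hφE : ∀ ζ : ℂ, 0 < ζ.re → φ (E z₀ b ζ) = χ ζ.re * (c * exp (-(n * ζ.im * I))).re := by
    intro ζ hζ
    have g1 : 1 < ‖exp ζ‖ := by
      rw [Complex.norm_exp]
      exact Real.one_lt_exp_iff.2 hζ
    obtain ⟨g2, g3⟩ := hS2 (exp ζ) g1
    have g4 : E z₀ b ζ = J z₀ b (exp ζ) := rfl
    have g5 : Real.log ‖exp ζ‖ = ζ.re := by rw [Complex.norm_exp, Real.log_exp]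
    have g7 : φ (J z₀ b (exp ζ)) = χ (Real.log ‖S (J z₀ b (exp ζ))‖) *
        (Real.exp (n * Real.log ‖S (J z₀ b (exp ζ))‖) * (c * S (J z₀ b (exp ζ)) ^ (-n)).re) := by
      rw [hφ]
      exact if_neg g2
    rw [g4, g7, g3, g5]
    congr 1
    have g6 : c * exp (-(n * ζ.im * I)) = ((Real.exp (n * ζ.re) : ℝ) : ℂ) * (c * exp ζ ^ (-n)) := by
      rw [← Complex.exp_int_mul, Complex.ofReal_exp, mul_left_comm, ← Complex.exp_add]
      congr 2
      push_cast
      have e : ζ = ζ.re + ζ.im * I := (Complex.re_add_im ζ).symm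
      conv_rhs => rw [e]
      simp only [Complex.add_re, Complex.ofReal_re, Complex.mul_re, Complex.I_re, mul_zero,
        Complex.ofReal_im, Complex.I_im, mul_one, sub_self, add_zero]
      ring
    rw [g6, Complex.re_ofReal_mul]
  have hz0 : ∀ z, (lv z₀ b z < lx b δ ∨ lx b M < lv z₀ b z) → φ z = 0 := by
    intro z hz
    obtain ⟨ζ, g1, -, -, rfl⟩ := exists_E hb z₀ z
    rw [lv_E] at hz
    rcases g1.eq_or_lt with g2 | g2
    · have g3 : E z₀ b ζ ∈ Sg z₀ b := by rw [mem_Sg_iff, lv_E, ← g2]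
      rw [hφ]
      exact if_pos g3
    · rw [hφE ζ g2]
      rcases hz with hz | hz
      · rw [h0 _ ((lx_lt hb g1 hδ.le).1 hz), zero_mul]
      · rw [h1 _ ((lx_lt hb (hδ.le.trans hM.le) g1).1 hz), zero_mul]
  have hts : tsupport φ ⊆ {z | lv z₀ b z ≤ lx b M} := by
    refine closure_minimal ?_ (isClosed_le hlv continuous_const)
    intro z hz
    by_contra hcon
    exact hz (hz0 z (Or.inr (not_le.1 hcon)))
  refine ⟨φ, ⟨?_, ?_⟩, hts, hφE⟩
  · rw [contDiff_iff_contDiffAt]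
    intro z
    by_cases hz : lv z₀ b z < lx b δ
    · have g1 : φ =ᶠ[𝓝 z] fun _ => 0 := by
        filter_upwards [(isOpen_lt hlv continuous_const).mem_nhds hz] with w hw
        exact hz0 w (Or.inl hw)
      exact contDiffAt_const.congr_of_eventuallyEq g1
    · have hzS : z ∉ Sg z₀ b := by
        intro g1
        rw [mem_Sg_iff] at g1
        rw [g1] at hz
        exact hz ((lx_lt hb le_rfl hδ.le).2 hδ)
      obtain ⟨g1, -, g2⟩ := hS1 z hzS
      have hS0 : S z ≠ 0 := by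
        intro g3
        rw [g3, norm_zero] at g1
        linarith
      have hSd : ContDiffAt ℝ ∞ S z := (g2.contDiffAt (n := ∞)).restrict_scalars ℝ
      have hlog : ContDiffAt ℝ ∞ (fun w => Real.log ‖S w‖) z :=
        (hSd.norm ℝ hS0).log (norm_ne_zero_iff.2 hS0)
      have hpow : ContDiffAt ℝ ∞ (fun w => c * S w ^ (-n)) z :=
        ((analyticAt_const.mul (g2.zpow hS0)).contDiffAt (n := ∞)).restrict_scalars ℝ
      have hre : ContDiffAt ℝ ∞ (fun w => (c * S w ^ (-n)).re) z :=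
        Complex.reCLM.contDiff.contDiffAt.comp z hpow
      have hexp : ContDiffAt ℝ ∞ (fun w => Real.exp (n * Real.log ‖S w‖)) z :=
        (contDiffAt_const.mul hlog).exp
      have hall : ContDiffAt ℝ ∞ (fun w => χ (Real.log ‖S w‖) *
          (Real.exp (n * Real.log ‖S w‖) * (c * S w ^ (-n)).re)) z :=
        (hχ.contDiffAt.comp z hlog).mul (hexp.mul hre)
      refine hall.congr_of_eventuallyEq ?_
      have hcl : IsClosed (Sg z₀ b) := by
        have e : Sg z₀ b = {w | lv z₀ b w = lx b 0} := by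
          ext w
          exact mem_Sg_iff z₀ b w
        rw [e]
        exact isClosed_eq hlv continuous_const
      filter_upwards [hcl.isOpen_compl.mem_nhds hzS] with w hw
      rw [hφ]
      exact if_neg hw
  · refine Metric.isCompact_of_isClosed_isBounded (isClosed_tsupport φ)
      ((De_bdd z₀ b (M + 1)).subset fun z hz => ?_)
    have g1 : lv z₀ b z ≤ lx b M := hts hz
    have g2 : lx b M < lx b (M + 1) := (lx_lt hb (hδ.le.trans hM.le) (by linarith)).2 (by linarith)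
    exact lt_of_le_of_lt g1 g2

end ED1
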