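import Pool.Agent.H1.ED.If
import Pool.Agent.H1.ED.Ig
import Pool.Agent.H1.ED.Ts

/-!
ROW Ih. Transmission relation of the Fourier integrals. Take `χ` smooth, `χ x = 1`, support in `[δ, M]`, `0 < δ < x < M < y` (`ContDiffBump`), `φ` from `Ts` for `n` and `c`.
`De_ae`, `if_int` with `0, x` and `χ 0 = 0`: `∫_{De x} Fi gr φ = (c P_i + c̄ Q_i)/2`, `P = Fc n e^(nx)`, `Q = Fc (-n) e^(-nx)`; `if_int` with `x, y` and `χ y = 0`: `∫_{An x y} Fo gr φ = -(c P_o + c̄ Q_o)/2`.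
`Ig`: `Re (k (c P_i + c̄ Q_i) - (c P_o + c̄ Q_o)) = 0` and `Im ((c P_i + c̄ Q_i) - (c P_o + c̄ Q_o)) = 0` for all `c` (use `c = 1, I`): `k (P_i + conj Q_i) = P_o + conj Q_o`, `P_i - conj Q_i = P_o - conj Q_o`.
Add, use `Fc_anti` for `Fi`. Square integrability of `Fi`, `Fo` from `G` (`Sob.memG`).
-/

set_option autoImplicit false

namespace ED1

open Complex Set Filter Topology MeasureTheory MD12
open scoped ComplexConjugate ContDiff Real

private theorem Ih_chi {x y : ℝ} (hx : 0 < x) (hxy : x < y) :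
    ∃ (χ : ℝ → ℝ) (δ M : ℝ), ContDiff ℝ ∞ χ ∧ 0 < δ ∧ δ < M ∧ M < y ∧ χ x = 1 ∧
      (∀ w < δ, χ w = 0) ∧ (∀ w > M, χ w = 0) := by
  obtain ⟨r, hr0, hr1, hr2⟩ : ∃ r : ℝ, 0 < r ∧ r < x ∧ r < y - x := by
    refine ⟨min x (y - x) / 2, ?_, ?_, ?_⟩
    · have : 0 < min x (y - x) := lt_min hx (by linarith)
      linarith
    · have h1 := min_le_left x (y - x)
      linarith
    · have h1 := min_le_right x (y - x)
      linarith
  let f : ContDiffBump x := ⟨r / 2, r, by linarith, by linarith⟩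
  have hf : f.rOut = r := rfl
  refine ⟨f, x - r, x + r, f.contDiff, by linarith, by linarith, by linarith, ?_, ?_, ?_⟩
  · exact f.one_of_mem_closedBall (Metric.mem_closedBall_self f.rIn_pos.le)
  · intro w hw
    refine f.zero_of_le_dist ?_
    rw [hf, Real.dist_eq, abs_sub_comm]
    exact le_trans (by linarith) (le_abs_self _)
  · intro w hw
    refine f.zero_of_le_dist ?_
    rw [hf, Real.dist_eq]
    exact le_trans (by linarith) (le_abs_self _)

private theorem Ih_lin {P Q R S : ℂ} {k : ℝ}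
    (h : ∀ c : ℂ, ((k : ℂ) * ((c * P + conj c * Q) / 2) + -((c * R + conj c * S) / 2)).re = 0 ∧
      (((c * P + conj c * Q) / 2) + -((c * R + conj c * S) / 2)).im = 0) :
    2 * R = (k + 1) * P + (k - 1) * conj Q := by
  have h1 := h 1
  have h2 := h I
  rw [map_one, one_mul, one_mul, one_mul, one_mul] at h1
  rw [Complex.conj_I] at h2
  have e1 : (P + Q) / 2 = (((P.re + Q.re) / 2 : ℝ) : ℂ) + (((P.im + Q.im) / 2 : ℝ) : ℂ) * I := by
    apply Complex.ext <;> simp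
  have e2 : (R + S) / 2 = (((R.re + S.re) / 2 : ℝ) : ℂ) + (((R.im + S.im) / 2 : ℝ) : ℂ) * I := by
    apply Complex.ext <;> simp
  have e3 : (I * P + -I * Q) / 2 = (((Q.im - P.im) / 2 : ℝ) : ℂ) + (((P.re - Q.re) / 2 : ℝ) : ℂ) * I := by
    apply Complex.ext
    · simp
      ring
    · simp
      ring
  have e4 : (I * R + -I * S) / 2 = (((S.im - R.im) / 2 : ℝ) : ℂ) + (((R.re - S.re) / 2 : ℝ) : ℂ) * I := by
    apply Complex.ext
    · simp
      ring
    · simp
      ring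
  rw [e1, e2] at h1
  rw [e3, e4] at h2
  obtain ⟨h11, h12⟩ := h1
  obtain ⟨h21, h22⟩ := h2
  simp only [Complex.add_re, Complex.neg_re, Complex.mul_re, Complex.ofReal_re, Complex.ofReal_im,
    Complex.I_re, Complex.I_im, Complex.add_im, Complex.mul_im, Complex.neg_im, mul_zero, zero_mul,
    mul_one, sub_zero, add_zero, zero_add] at h11 h12 h21 h22
  apply Complex.ext
  · have e5 : ((2 : ℂ) * R).re = 2 * R.re := by simp
    have e6 : (((k : ℂ) + 1) * P + ((k : ℂ) - 1) * conj Q).re = (k + 1) * P.re + (k - 1) * Q.re := by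
      simp
    rw [e5, e6]
    linarith
  · have e5 : ((2 : ℂ) * R).im = 2 * R.im := by simp
    have e6 : (((k : ℂ) + 1) * P + ((k : ℂ) - 1) * conj Q).im = (k + 1) * P.im - (k - 1) * Q.im := by
      simp
      ring
    rw [e5, e6]
    linarith

private theorem Ih_mem {S N : Set ℂ} (hS : S ⊆ N) {G F : ℂ → ℂ} (hG : MemLp G 2 (volume.restrict N))
    (he : ∀ᵐ z ∂volume.restrict S, G z = conj (F z)) : MemLp F 2 (volume.restrict S) := by
  have h1 : MemLp G 2 (volume.restrict S) := MemLp.mono_measure (Measure.restrict_mono hS le_rfl) hG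
  have h2 : AEStronglyMeasurable F (volume.restrict S) := by
    refine (Complex.continuous_conj.comp_aestronglyMeasurable h1.1).congr ?_
    filter_upwards [he] with z hz
    show conj (G z) = F z
    rw [hz, Complex.conj_conj]
  refine h1.congr_norm h2 ?_
  filter_upwards [he] with z hz
  rw [hz, RCLike.norm_conj]

theorem Ih {z₀ b : ℂ} {k x y : ℝ} {u : ℂ → ℝ} {G Fi Fo : ℂ → ℂ} (h : Flds z₀ b k x y u G Fi Fo)
    (n : ℤ) {s t : ℝ} (hs : 0 < s ∧ s < x) (ht : x < t ∧ t < y) :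
    2 * Fc z₀ b Fo t n = (k + 1) * Fc z₀ b Fi s n - (k - 1) * conj (Fc z₀ b Fi s n) * exp (-(2 * n * x)) := by
  have hb := h.hb
  have hx := h.hx
  have hxy := h.hxy
  have hxy' : De z₀ b x ⊆ De z₀ b y := fun z hz =>
    lt_trans hz ((lx_lt hb hx.le (hx.trans hxy).le).2 hxy)
  have hA0 : An z₀ b 0 x ⊆ De z₀ b x := fun z hz => hz.2
  have hA1 : An z₀ b x y ⊆ De z₀ b y := fun z hz => hz.2
  have hmi : MemLp Fi 2 (volume.restrict (An z₀ b 0 x)) :=
    MemLp.mono_measure (Measure.restrict_mono hA0 le_rfl) (Ih_mem hxy' h.sob.memG h.ei)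
  have hmo : MemLp Fo 2 (volume.restrict (An z₀ b x y)) := Ih_mem hA1 h.sob.memG h.eo
  obtain ⟨χ, δ, M, hχ, hδ, hδM, hMy, hχx, hχ0, hχ1⟩ := Ih_chi hx hxy
  have hχ00 : χ 0 = 0 := hχ0 0 hδ
  have hχy : χ y = 0 := hχ1 y hMy
  have key : ∀ c : ℂ, ((k : ℂ) * ((c * (Fc z₀ b Fi s n * exp (n * x)) +
        conj c * (Fc z₀ b Fi s (-n) * exp (-(n * x)))) / 2) +
        -((c * (Fc z₀ b Fo t n * exp (n * x)) + conj c * (Fc z₀ b Fo t (-n) * exp (-(n * x)))) / 2)).re = 0 ∧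
      (((c * (Fc z₀ b Fi s n * exp (n * x)) + conj c * (Fc z₀ b Fi s (-n) * exp (-(n * x)))) / 2) +
        -((c * (Fc z₀ b Fo t n * exp (n * x)) + conj c * (Fc z₀ b Fo t (-n) * exp (-(n * x)))) / 2)).im = 0 := by
    intro c
    obtain ⟨φ, hφ, hφs, hφχ⟩ := Ts (z₀ := z₀) hb hχ hδ hδM hχ0 hχ1 n c
    have hsup : tsupport φ ⊆ De z₀ b y := fun z hz =>
      lt_of_le_of_lt (hφs hz) ((lx_lt hb (hδ.trans hδM).le (hx.trans hxy).le).2 hMy)
    have h1 := Ig h hφ hsup
    have h2 : ∫ z in De z₀ b x, Fi z * MONO_gr φ z =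
        (c * (Fc z₀ b Fi s n * exp (n * x)) + conj c * (Fc z₀ b Fi s (-n) * exp (-(n * x)))) / 2 := by
      rw [setIntegral_congr_set (De_ae hb hx), if_int hb le_rfl hx (h.di.mono hA0) hmi hχ hφ hφχ hs,
        hχ00, hχx]
      push_cast
      ring
    have h3 : ∫ z in An z₀ b x y, Fo z * MONO_gr φ z =
        -((c * (Fc z₀ b Fo t n * exp (n * x)) + conj c * (Fc z₀ b Fo t (-n) * exp (-(n * x)))) / 2) := by
      rw [if_int hb hx.le hxy h.do' hmo hχ hφ hφχ ht, hχy, hχx]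
      push_cast
      ring
    rw [h2, h3] at h1
    exact h1
  have h4 := Ih_lin key
  have hs' : |s| < x := by
    rw [abs_of_pos hs.1]
    exact hs.2
  rw [Fc_anti hb h.di n hs'] at h4
  have h5 : conj (exp (-((n : ℂ) * (x : ℂ)))) = exp (-((n : ℂ) * (x : ℂ))) := by
    rw [← Complex.exp_conj, map_neg, map_mul, Complex.conj_ofReal, map_intCast]
  rw [map_mul, map_neg, h5] at h4
  have h6 : exp ((n : ℂ) * (x : ℂ)) * exp (-((n : ℂ) * (x : ℂ))) = 1 := by
    rw [← Complex.exp_add, add_neg_cancel, Complex.exp_zero]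
  have h7 : exp (-(2 * (n : ℂ) * (x : ℂ))) = exp (-((n : ℂ) * (x : ℂ))) * exp (-((n : ℂ) * (x : ℂ))) := by
    rw [← Complex.exp_add]
    congr 1
    ring
  rw [h7]
  have h8 := congrArg (fun w => w * exp (-((n : ℂ) * (x : ℂ)))) h4
  linear_combination h8 + (-(2 * Fc z₀ b Fo t n) + (k + 1) * Fc z₀ b Fi s n) * h6

end ED1
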