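import Pool.Agent.H1.ED.D0

/-!
ROW Jk. Joukowski map / elliptic coordinates, elementary facts (`b ≠ 0`).
* `J - (z₀+2b) = b (s-1)²/s`, `J - (z₀-2b) = b (s+1)²/s`, `‖s-1‖² + ‖s+1‖² = 2‖s‖² + 2`: `lv (J s) = 2‖b‖(‖s‖ + ‖s‖⁻¹)`.
* every `z` is `J s` with `‖s‖ ≥ 1` (roots of `s² - ((z-z₀)/b) s + 1`, product `1`), `s = exp ζ` with `0 ≤ Im ζ < 2π`.
* `J s = J s'` iff `s' = s` or `s' = s⁻¹`.
* on `‖s‖ = 1`: `J s = z₀ + 2 b Re s`; on `‖s‖ > 1`: `lv > 4‖b‖ = lx b 0`; triangle inequality.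
-/

set_option autoImplicit false

namespace ED1

open Complex Set Filter Topology MeasureTheory
open scoped ComplexConjugate ContDiff Real

theorem E_eq (z₀ b ζ : ℂ) : E z₀ b ζ = z₀ + b * (exp ζ + exp (-ζ)) := by
  simp only [E, J, Complex.exp_neg]

theorem hasDeriv_E (z₀ b ζ : ℂ) : HasDerivAt (E z₀ b) (dE b ζ) ζ := by
  have h1 : HasDerivAt (fun z : ℂ => exp z) (exp ζ) ζ := Complex.hasDerivAt_exp ζ
  have h2 : HasDerivAt (fun z : ℂ => exp (-z)) (-exp (-ζ)) ζ := by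
    have := (hasDerivAt_neg ζ).cexp
    simpa using this
  have h3 := ((h1.add h2).const_mul b).const_add z₀
  have h4 : E z₀ b = fun z => z₀ + b * (exp z + exp (-z)) := funext fun z => E_eq z₀ b z
  rw [h4]
  have h5 : dE b ζ = b * (exp ζ + -exp (-ζ)) := by rw [dE, sub_eq_add_neg]
  rw [h5]
  exact h3

theorem E_neg (z₀ b ζ : ℂ) : E z₀ b (-ζ) = E z₀ b ζ := by
  rw [E_eq, E_eq, neg_neg, add_comm (exp (-ζ))]

theorem dE_neg (b ζ : ℂ) : dE b (-ζ) = -dE b ζ := by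
  rw [dE, dE, neg_neg]; ring

theorem E_per (z₀ b ζ : ℂ) : E z₀ b (ζ + 2 * π * I) = E z₀ b ζ := by
  simp only [E]
  rw [Complex.exp_periodic ζ]

theorem dE_per (b ζ : ℂ) : dE b (ζ + 2 * π * I) = dE b ζ := by
  rw [dE, dE, Complex.exp_periodic ζ, Complex.exp_neg, Complex.exp_periodic ζ, ← Complex.exp_neg]

theorem lv_E (z₀ b ζ : ℂ) : lv z₀ b (E z₀ b ζ) = lx b ζ.re := by
  have hu : exp ζ = exp (ζ / 2) * exp (ζ / 2) := by rw [← Complex.exp_add]; ring_nf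
  have hv : exp (-ζ) = exp (-(ζ / 2)) * exp (-(ζ / 2)) := by rw [← Complex.exp_add]; ring_nf
  have huv : exp (ζ / 2) * exp (-(ζ / 2)) = 1 := by rw [← Complex.exp_add]; simp
  have nu : ‖exp (ζ / 2)‖ * ‖exp (ζ / 2)‖ = Real.exp ζ.re := by
    rw [← norm_mul, ← hu, Complex.norm_exp]
  have nv : ‖exp (-(ζ / 2))‖ * ‖exp (-(ζ / 2))‖ = Real.exp (-ζ.re) := by
    rw [← norm_mul, ← hv, Complex.norm_exp, Complex.neg_re]
  have h1 : E z₀ b ζ - (z₀ + 2 * b) = b * ((exp (ζ / 2) - exp (-(ζ / 2))) * (exp (ζ / 2) - exp (-(ζ / 2)))) := by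
    rw [E_eq, hu, hv]
    linear_combination (2 * b) * huv
  have h2 : E z₀ b ζ - (z₀ - 2 * b) = b * ((exp (ζ / 2) + exp (-(ζ / 2))) * (exp (ζ / 2) + exp (-(ζ / 2)))) := by
    rw [E_eq, hu, hv]
    linear_combination (-2 * b) * huv
  rw [lv, h1, h2, norm_mul, norm_mul, norm_mul, norm_mul, lx, ← nu, ← nv]
  have h3 := parallelogram_law_with_norm ℝ (exp (ζ / 2)) (exp (-(ζ / 2)))
  linear_combination ‖b‖ * h3

theorem lx_neg (b : ℂ) (x : ℝ) : lx b (-x) = lx b x := by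
  rw [lx, lx, neg_neg, add_comm (Real.exp (-x))]

theorem lx_lt {b : ℂ} (hb : b ≠ 0) {x y : ℝ} (hx : 0 ≤ x) (hy : 0 ≤ y) : lx b x < lx b y ↔ x < y := by
  have hb' : 0 < 2 * ‖b‖ := by have := norm_pos_iff.2 hb; linarith
  rw [lx, lx, mul_lt_mul_iff_right₀ hb']
  have h := @Real.cosh_lt_cosh x y
  rw [abs_of_nonneg hx, abs_of_nonneg hy, Real.cosh_eq, Real.cosh_eq] at h
  rw [← h]
  constructor
  · intro h'; linarith
  · intro h'; linarith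

theorem lx_zero_le (z₀ b z : ℂ) : lx b 0 ≤ lv z₀ b z := by
  have h1 : ‖(4 : ℂ) * b‖ ≤ ‖z - (z₀ - 2 * b)‖ + ‖z - (z₀ + 2 * b)‖ := by
    have : (4 : ℂ) * b = (z - (z₀ - 2 * b)) - (z - (z₀ + 2 * b)) := by ring
    rw [this]
    exact norm_sub_le _ _
  rw [norm_mul] at h1
  have h4 : ‖(4 : ℂ)‖ = 4 := by norm_num
  rw [h4] at h1
  rw [lx, lv, neg_zero, Real.exp_zero]
  linarith

theorem mem_Sg_iff (z₀ b z : ℂ) : z ∈ Sg z₀ b ↔ lv z₀ b z = lx b 0 := by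
  have h4 : ‖(4 : ℂ)‖ = 4 := by norm_num
  have h5 : dist (z₀ - 2 * b) (z₀ + 2 * b) = 4 * ‖b‖ := by
    rw [dist_eq_norm, ← norm_neg]
    have : -(z₀ - 2 * b - (z₀ + 2 * b)) = (4 : ℂ) * b := by ring
    rw [this, norm_mul, h4]
  rw [Sg, mem_segment_iff_wbtw, ← dist_add_dist_eq_iff, h5, lv, lx, neg_zero, Real.exp_zero,
    dist_comm (z₀ - 2 * b) z, dist_eq_norm, dist_eq_norm]
  constructor
  · intro h; linarith
  · intro h; linarith

theorem exists_E {b : ℂ} (hb : b ≠ 0) (z₀ z : ℂ) :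
    ∃ ζ : ℂ, 0 ≤ ζ.re ∧ 0 ≤ ζ.im ∧ ζ.im < 2 * π ∧ E z₀ b ζ = z := by
  obtain ⟨w, hw⟩ := Complex.cos_surjective ((z - z₀) / b / 2)
  have h1 : exp (w * I) + exp (-(w * I)) = (z - z₀) / b := by
    have := hw
    rw [Complex.cos] at this
    have h2 : exp (w * I) + exp (-w * I) = (z - z₀) / b := by
      field_simp at this ⊢
      linear_combination this
    rw [← h2, neg_mul]
  have h3 : E z₀ b (w * I) = z := by
    rw [E_eq, h1]; field_simp; ring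
  obtain ⟨ζ₀, h4, h5⟩ : ∃ ζ₀ : ℂ, 0 ≤ ζ₀.re ∧ E z₀ b ζ₀ = z := by
    rcases le_total 0 (w * I).re with h | h
    · exact ⟨w * I, h, h3⟩
    · refine ⟨-(w * I), ?_, by rw [E_neg, h3]⟩
      rw [Complex.neg_re]; linarith
  have hpi : (0 : ℝ) < 2 * π := by positivity
  set n : ℤ := ⌊ζ₀.im / (2 * π)⌋ with hn
  have h6 : (n : ℝ) * (2 * π) ≤ ζ₀.im := by
    have := Int.floor_le (ζ₀.im / (2 * π))
    rwa [← hn, le_div_iff₀ hpi] at this
  have h7 : ζ₀.im < ((n : ℝ) + 1) * (2 * π) := by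
    have := Int.lt_floor_add_one (ζ₀.im / (2 * π))
    rwa [← hn, div_lt_iff₀ hpi] at this
  refine ⟨ζ₀ - n * (2 * π * I), ?_, ?_, ?_, ?_⟩
  · have : ((n : ℂ) * (2 * π * I)).re = 0 := by simp
    rw [Complex.sub_re, this]; linarith
  · have : ((n : ℂ) * (2 * π * I)).im = n * (2 * π) := by simp
    rw [Complex.sub_im, this]; linarith
  · have : ((n : ℂ) * (2 * π * I)).im = n * (2 * π) := by simp
    rw [Complex.sub_im, this]; linarith
  · rw [← h5, E, E]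
    congr 1
    rw [Complex.exp_eq_exp_iff_exists_int]
    exact ⟨-n, by push_cast; ring⟩

theorem E_inj {b : ℂ} (hb : b ≠ 0) {z₀ ζ ζ' : ℂ} (h : 0 < ζ.re) (h' : 0 ≤ ζ'.re)
    (he : E z₀ b ζ = E z₀ b ζ') : exp ζ = exp ζ' := by
  rw [E, E, J, J] at he
  have h1 : exp ζ + (exp ζ)⁻¹ = exp ζ' + (exp ζ')⁻¹ := by
    have := add_left_cancel he
    exact mul_left_cancel₀ hb this
  have hs := Complex.exp_ne_zero ζ
  have hs' := Complex.exp_ne_zero ζ'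
  have h2 : (exp ζ - exp ζ') * (exp ζ * exp ζ' - 1) = 0 := by
    field_simp at h1
    linear_combination h1
  rcases mul_eq_zero.1 h2 with h3 | h3
  · exact sub_eq_zero.1 h3
  · exfalso
    have h4 : exp (ζ + ζ') = 1 := by rw [Complex.exp_add]; exact sub_eq_zero.1 h3
    have h5 : Real.exp (ζ + ζ').re = 1 := by rw [← Complex.norm_exp, h4, norm_one]
    rw [Real.exp_eq_one_iff, Complex.add_re] at h5
    linarith

theorem dE_ne {b : ℂ} (hb : b ≠ 0) {ζ : ℂ} (h : 0 < ζ.re) : dE b ζ ≠ 0 := by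
  rw [dE]
  refine mul_ne_zero hb fun h1 => ?_
  have h2 : ‖exp ζ‖ = ‖exp (-ζ)‖ := by rw [sub_eq_zero.1 h1]
  rw [Complex.norm_exp, Complex.norm_exp, Complex.neg_re] at h2
  have := Real.exp_injective h2
  linarith

end ED1
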