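import Pool.Agent.H1.ED.Jk

/-!
ROW Jl. More elementary facts: sets and Chebyshev polynomials. `E_mem_De`, `E_mem_An` from `lv_E`, `lx_neg`, `lx_lt`; `lv` is continuous and convex.
`Polynomial.Chebyshev.C`: `C 0 = 2`, `C 1 = X`, `C (n+2) = X C(n+1) - C n`; so `C n (s + s⁻¹) = s^n + s⁻ⁿ` (maybe in Mathlib); differentiate in `ζ` for `dC_E` (`hasDeriv_E`, `hasDeriv_Cn`).
-/

set_option autoImplicit false

namespace ED1

open Complex Set Filter Topology MeasureTheory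
open scoped ComplexConjugate ContDiff Real

theorem lx_abs (b : ℂ) (x : ℝ) : lx b |x| = lx b x := by
  rcases abs_choice x with h | h
  · rw [h]
  · rw [h, lx_neg]

theorem E_mem_De {z₀ b : ℂ} (hb : b ≠ 0) {x : ℝ} (hx : 0 ≤ x) {ζ : ℂ} : E z₀ b ζ ∈ De z₀ b x ↔ |ζ.re| < x := by
  rw [De, Set.mem_ofPred_eq, lv_E, ← lx_abs b ζ.re]
  exact lx_lt hb (abs_nonneg _) hx

theorem E_mem_An {z₀ b : ℂ} (hb : b ≠ 0) {x y : ℝ} (hx : 0 ≤ x) (hy : 0 ≤ y) {ζ : ℂ} (hζ : 0 ≤ ζ.re) :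
    E z₀ b ζ ∈ An z₀ b x y ↔ x < ζ.re ∧ ζ.re < y := by
  rw [An, Set.mem_ofPred_eq, lv_E, lx_lt hb hx hζ, lx_lt hb hζ hy]

theorem lv_cont (z₀ b : ℂ) : Continuous (lv z₀ b) := by
  unfold lv
  fun_prop

theorem De_open (z₀ b : ℂ) (x : ℝ) : IsOpen (De z₀ b x) :=
  isOpen_lt (lv_cont z₀ b) continuous_const

theorem An_open (z₀ b : ℂ) (x y : ℝ) : IsOpen (An z₀ b x y) :=
  (isOpen_lt continuous_const (lv_cont z₀ b)).inter (isOpen_lt (lv_cont z₀ b) continuous_const)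

theorem De_convex (z₀ b : ℂ) (x : ℝ) : Convex ℝ (De z₀ b x) := by
  have h1 := (convexOn_dist (E := ℂ) (z₀ + 2 * b) (convex_univ (𝕜 := ℝ))).add
    (convexOn_dist (z₀ - 2 * b) (convex_univ (𝕜 := ℝ)))
  have h2 := h1.convex_lt (lx b x)
  have h3 : De z₀ b x = {z ∈ (Set.univ : Set ℂ) | ((fun z' => dist z' (z₀ + 2 * b)) + fun z' => dist z' (z₀ - 2 * b)) z < lx b x} := by
    ext z
    simp [De, lv, dist_eq_norm]
  rw [h3]
  exact h2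

theorem De_bdd (z₀ b : ℂ) (x : ℝ) : Bornology.IsBounded (De z₀ b x) := by
  refine (Metric.isBounded_ball (x := z₀ + 2 * b) (r := lx b x)).subset fun z hz => ?_
  rw [Metric.mem_ball, dist_eq_norm]
  have h1 : lv z₀ b z < lx b x := hz
  rw [lv] at h1
  have := norm_nonneg (z - (z₀ - 2 * b))
  linarith

theorem hasDeriv_Cn (z₀ b : ℂ) (n : ℕ) (z : ℂ) : HasDerivAt (Cn z₀ b n) (dC z₀ b n z) z := by
  have h1 : HasDerivAt (fun z : ℂ => (z - z₀) / b) (1 / b) z :=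
    ((hasDerivAt_id z).sub_const z₀).div_const b
  have h2 := ((Polynomial.Chebyshev.C ℂ (n : ℤ)).hasDerivAt ((z - z₀) / b)).comp z h1
  have h3 : dC z₀ b n z = (Polynomial.derivative (Polynomial.Chebyshev.C ℂ (n : ℤ))).eval ((z - z₀) / b) * (1 / b) := by
    rw [dC, mul_one_div]
  rw [h3]
  exact h2

theorem Cn_E {b : ℂ} (hb : b ≠ 0) (z₀ : ℂ) (n : ℕ) (ζ : ℂ) :
    Cn z₀ b n (E z₀ b ζ) = exp (n * ζ) + exp (-(n * ζ)) := by
  have h1 : (E z₀ b ζ - z₀) / b = 2 * cosh ζ := by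
    rw [E_eq, Complex.cosh]
    field_simp
    ring
  rw [Cn, h1, Polynomial.Chebyshev.C_two_mul_complex_cosh, Complex.cosh]
  push_cast
  ring

theorem dC_E {b : ℂ} (hb : b ≠ 0) (z₀ : ℂ) (n : ℕ) (ζ : ℂ) :
    dC z₀ b n (E z₀ b ζ) * dE b ζ = n * (exp (n * ζ) - exp (-(n * ζ))) := by
  have h1 := (hasDeriv_Cn z₀ b n (E z₀ b ζ)).comp ζ (hasDeriv_E z₀ b ζ)
  have h2 : Cn z₀ b n ∘ E z₀ b = fun ζ => exp (n * ζ) + exp (-(n * ζ)) :=
    funext fun ζ => Cn_E hb z₀ n ζ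
  rw [h2] at h1
  have h3 : HasDerivAt (fun ζ : ℂ => (n : ℂ) * ζ) (n : ℂ) ζ := by
    simpa using (hasDerivAt_id ζ).const_mul (n : ℂ)
  have h4 := h3.cexp.add h3.neg.cexp
  have h5 := h1.unique h4
  rw [h5, Pi.neg_apply]
  ring

end ED1
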