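import Pool.Agent.H1.ED.Jl

/-!
ROW Ke. Kernel expansion. Write `w = J v`, `1 ≤ ‖v‖ ≤ e^x` (`exists_E`, `lv_E`, `lx_lt`), `‖s‖ > e^x`.
* `dC n w = n S (n-1) (v + v⁻¹) / b` (`S` the rescaled Chebyshev polynomials of the second kind), and
  `S n (v + v⁻¹) = ∑_{j ≤ n} v^(n-j) v⁻¹^j`, so `‖dC n w‖ ≤ n² e^(nx)/‖b‖`.
* `kernel`: with `t = s⁻¹`, `u = v + v⁻¹`, `A = ∑ S n t^n`, `B = ∑ (n+1) S n t^n` the recurrence of `S`
  gives `A (1 - u t + t²) = 1` and `B (1 - u t + t²)² = 1 - t²`.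
-/

set_option autoImplicit false

namespace ED1

open Complex Set Filter Topology MeasureTheory
open scoped ComplexConjugate ContDiff Real

/-- values of the rescaled Chebyshev polynomials of the second kind -/
noncomputable def sC (u : ℂ) (n : ℕ) : ℂ := (Polynomial.Chebyshev.S ℂ (n : ℤ)).eval u

theorem sC_zero (u : ℂ) : sC u 0 = 1 := by simp [sC]

theorem sC_one (u : ℂ) : sC u 1 = u := by simp [sC]

theorem sC_rec (u : ℂ) (n : ℕ) : sC u (n + 2) = u * sC u (n + 1) - sC u n := by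
  have h := Polynomial.Chebyshev.S_add_two ℂ (n : ℤ)
  simp only [sC]
  have e1 : ((n + 2 : ℕ) : ℤ) = (n : ℤ) + 2 := by push_cast; ring
  have e2 : ((n + 1 : ℕ) : ℤ) = (n : ℤ) + 1 := by push_cast; ring
  rw [e1, e2, h]
  simp

theorem derivative_C (n : ℤ) : Polynomial.derivative (Polynomial.Chebyshev.C ℂ n) =
    (n : Polynomial ℂ) * Polynomial.Chebyshev.S ℂ (n - 1) := by
  haveI : Invertible (2 : ℂ) := invertibleOfNonzero two_ne_zero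
  rw [Polynomial.Chebyshev.C_eq_two_mul_T_comp_half_mul_X, Polynomial.Chebyshev.S_eq_U_comp_half_mul_X]
  have h2 : (2 : Polynomial ℂ) = Polynomial.C 2 := rfl
  rw [h2, Polynomial.derivative_C_mul, Polynomial.derivative_comp, Polynomial.Chebyshev.T_derivative_eq_U,
    Polynomial.derivative_C_mul, Polynomial.derivative_X, Polynomial.mul_comp, Polynomial.intCast_comp]
  have h3 : (Polynomial.C (2 : ℂ)) * Polynomial.C (⅟ (2 : ℂ)) = 1 := by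
    rw [← Polynomial.C_mul, mul_invOf_self, Polynomial.C_1]
  calc Polynomial.C 2 * (Polynomial.C (⅟ (2 : ℂ)) * 1 * ((n : Polynomial ℂ) * (Polynomial.Chebyshev.U ℂ (n - 1)).comp (Polynomial.C (⅟ (2 : ℂ)) * Polynomial.X)))
      = (Polynomial.C 2 * Polynomial.C (⅟ (2 : ℂ))) * ((n : Polynomial ℂ) * (Polynomial.Chebyshev.U ℂ (n - 1)).comp (Polynomial.C (⅟ (2 : ℂ)) * Polynomial.X)) := by ring
    _ = _ := by rw [h3, one_mul]

theorem dC_eq (z₀ b : ℂ) (n : ℕ) (w : ℂ) :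
    dC z₀ b (n + 1) w = ((n : ℂ) + 1) * sC ((w - z₀) / b) n / b := by
  rw [dC, derivative_C, sC]
  have e2 : ((n + 1 : ℕ) : ℤ) - 1 = (n : ℤ) := by push_cast; ring
  rw [e2]
  simp

theorem dC_zero (z₀ b w : ℂ) : dC z₀ b 0 w = 0 := by
  rw [dC, derivative_C]; simp

theorem sC_sum {v : ℂ} (hv : v ≠ 0) (n : ℕ) :
    sC (v + v⁻¹) n = ∑ j ∈ Finset.range (n + 1), v ^ (n - j) * v⁻¹ ^ j := by
  induction n using Nat.twoStepInduction with
  | zero => simp [sC_zero]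
  | one => simp [sC_one, Finset.sum_range_succ]
  | more n ih1 ih2 =>
    rw [sC_rec, ih1, ih2]
    have h1 : ∀ m : ℕ, ∑ j ∈ Finset.range (m + 2), v ^ (m + 1 - j) * v⁻¹ ^ j =
        v * (∑ j ∈ Finset.range (m + 1), v ^ (m - j) * v⁻¹ ^ j) + v⁻¹ ^ (m + 1) := by
      intro m
      rw [Finset.sum_range_succ, Finset.mul_sum]
      congr 1
      · refine Finset.sum_congr rfl fun j hj => ?_
        have : j ≤ m := by have := Finset.mem_range.1 hj; omega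
        rw [show m + 1 - j = (m - j) + 1 by omega, pow_succ]; ring
      · simp
    have h2 := h1 n
    have h3 := h1 (n + 1)
    rw [show n + 1 + 1 = n + 2 by ring, show n + 1 + 2 = n + 2 + 1 by ring] at h3
    rw [show n + 1 + 1 = n + 2 by ring, h3, h2]
    have hvv : v * v⁻¹ = 1 := mul_inv_cancel₀ hv
    have h4 : v⁻¹ ^ (n + 2) = v⁻¹ * v⁻¹ ^ (n + 1) := by rw [pow_succ]; ring
    rw [h4]
    linear_combination (∑ j ∈ Finset.range (n + 1), v ^ (n - j) * v⁻¹ ^ j) * hvv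

theorem sC_bound {v : ℂ} (hv : v ≠ 0) {R : ℝ} (h1 : ‖v‖ ≤ R) (h2 : ‖v⁻¹‖ ≤ R) (n : ℕ) :
    ‖sC (v + v⁻¹) n‖ ≤ ((n : ℝ) + 1) * R ^ n := by
  have hR0 : 0 ≤ R := (norm_nonneg v).trans h1
  rw [sC_sum hv]
  refine (norm_sum_le _ _).trans ?_
  have : ∀ j ∈ Finset.range (n + 1), ‖v ^ (n - j) * v⁻¹ ^ j‖ ≤ R ^ n := by
    intro j hj
    have hj' : j ≤ n := by have := Finset.mem_range.1 hj; omega
    rw [norm_mul, norm_pow, norm_pow]
    calc ‖v‖ ^ (n - j) * ‖v⁻¹‖ ^ j ≤ R ^ (n - j) * R ^ j := by gcongr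
      _ = R ^ n := by rw [← pow_add]; congr 1; omega
  refine (Finset.sum_le_sum this).trans ?_
  rw [Finset.sum_const, Finset.card_range, nsmul_eq_mul]
  push_cast
  exact le_refl _

theorem exists_v {z₀ b : ℂ} (hb : b ≠ 0) {x : ℝ} (hx : 0 ≤ x) {w : ℂ} (hw : lv z₀ b w ≤ lx b x) :
    ∃ v : ℂ, v ≠ 0 ∧ ‖v‖ ≤ Real.exp x ∧ ‖v⁻¹‖ ≤ Real.exp x ∧ (w - z₀) / b = v + v⁻¹ := by
  obtain ⟨ζ, h1, -, -, h4⟩ := exists_E hb z₀ w
  have h5 : ζ.re ≤ x := by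
    by_contra hc
    push Not at hc
    have := (lx_lt hb hx h1).2 hc
    rw [← h4, lv_E] at hw
    linarith
  refine ⟨exp ζ, Complex.exp_ne_zero ζ, ?_, ?_, ?_⟩
  · rw [Complex.norm_exp]; exact Real.exp_le_exp.2 h5
  · rw [← Complex.exp_neg, Complex.norm_exp, Complex.neg_re]; exact Real.exp_le_exp.2 (by linarith)
  · rw [← h4, E, J]; field_simp; ring

theorem dC_bound {z₀ b : ℂ} (hb : b ≠ 0) {x : ℝ} (hx : 0 ≤ x) (n : ℕ) {w : ℂ} (hw : lv z₀ b w ≤ lx b x) :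
    ‖dC z₀ b n w‖ ≤ n ^ 2 * Real.exp (n * x) / ‖b‖ := by
  have hb' : 0 < ‖b‖ := norm_pos_iff.2 hb
  rcases n with _ | n
  · rw [dC_zero]; simp
  obtain ⟨v, hv, h1, h2, h3⟩ := exists_v hb hx hw
  rw [dC_eq, h3, norm_div, norm_mul]
  have h4 := sC_bound hv h1 h2 n
  have h5 : ‖(n : ℂ) + 1‖ = (n : ℝ) + 1 := by
    have : (n : ℂ) + 1 = ((n + 1 : ℕ) : ℂ) := by push_cast; ring
    rw [this, Complex.norm_natCast]; push_cast; ring
  rw [h5]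
  have h6 : Real.exp x ^ n ≤ Real.exp (((n + 1 : ℕ) : ℝ) * x) := by
    rw [← Real.exp_nat_mul]
    apply Real.exp_le_exp.2
    push_cast
    nlinarith
  have h7 : (0 : ℝ) ≤ (n : ℝ) + 1 := by positivity
  apply div_le_div_of_nonneg_right _ hb'.le
  calc ((n : ℝ) + 1) * ‖sC (v + v⁻¹) n‖ ≤ ((n : ℝ) + 1) * (((n : ℝ) + 1) * Real.exp x ^ n) := by gcongr
    _ ≤ ((n : ℝ) + 1) * (((n : ℝ) + 1) * Real.exp (((n + 1 : ℕ) : ℝ) * x)) := by gcongr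
    _ = _ := by push_cast; ring

theorem sC_genfun {v t : ℂ} (hv : v ≠ 0) {R : ℝ} (hR : 0 ≤ R) (h1 : ‖v‖ ≤ R) (h2 : ‖v⁻¹‖ ≤ R) (ht : R * ‖t‖ < 1) :
    HasSum (fun n : ℕ => ((n : ℂ) + 1) * sC (v + v⁻¹) n * t ^ n)
      ((1 - t ^ 2) / (1 - (v + v⁻¹) * t + t ^ 2) ^ 2) := by
  set u := v + v⁻¹ with hu
  set r := R * ‖t‖ with hr
  have hr0 : 0 ≤ r := by positivity
  have hr1 : ‖r‖ < 1 := by rw [Real.norm_of_nonneg hr0]; exact ht
  have hs2 : Summable (fun n : ℕ => ((n : ℝ) + 1) ^ 2 * r ^ n) := by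
    have e0 := summable_pow_mul_geometric_of_norm_lt_one 0 hr1
    have e1 := (summable_pow_mul_geometric_of_norm_lt_one 1 hr1).mul_left 2
    have e2 := summable_pow_mul_geometric_of_norm_lt_one 2 hr1
    refine ((e2.add e1).add e0).congr fun n => ?_
    ring
  have hB : Summable (fun n : ℕ => ((n : ℂ) + 1) * sC u n * t ^ n) := by
    refine Summable.of_norm_bounded hs2 fun n => ?_
    have h5 : ‖(n : ℂ) + 1‖ = (n : ℝ) + 1 := by
      have : (n : ℂ) + 1 = ((n + 1 : ℕ) : ℂ) := by push_cast; ring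
      rw [this, Complex.norm_natCast]; push_cast; ring
    rw [norm_mul, norm_mul, norm_pow, h5, hr, mul_pow]
    have h4 := sC_bound hv h1 h2 n
    calc ((n : ℝ) + 1) * ‖sC u n‖ * ‖t‖ ^ n ≤ ((n : ℝ) + 1) * (((n : ℝ) + 1) * R ^ n) * ‖t‖ ^ n := by gcongr
      _ = _ := by ring
  have hA : Summable (fun n : ℕ => sC u n * t ^ n) := by
    refine Summable.of_norm_bounded hs2 fun n => ?_
    rw [norm_mul, norm_pow, hr, mul_pow]
    have h4 := sC_bound hv h1 h2 n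
    have h6 : (1 : ℝ) ≤ (n : ℝ) + 1 := by have : (0 : ℝ) ≤ n := Nat.cast_nonneg n; linarith
    calc ‖sC u n‖ * ‖t‖ ^ n ≤ (((n : ℝ) + 1) * R ^ n) * ‖t‖ ^ n := by gcongr
      _ = ((n : ℝ) + 1) ^ 1 * (R ^ n * ‖t‖ ^ n) := by ring
      _ ≤ ((n : ℝ) + 1) ^ 2 * (R ^ n * ‖t‖ ^ n) := by gcongr; norm_num
  have hA1 : Summable (fun n : ℕ => sC u (n + 1) * t ^ (n + 1)) := (summable_nat_add_iff 1).2 hA
  have hB1 : Summable (fun n : ℕ => (((n + 1 : ℕ) : ℂ) + 1) * sC u (n + 1) * t ^ (n + 1)) :=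
    (summable_nat_add_iff (f := fun n : ℕ => ((n : ℂ) + 1) * sC u n * t ^ n) 1).2 hB
  set A := ∑' n : ℕ, sC u n * t ^ n with hAd
  set B := ∑' n : ℕ, ((n : ℂ) + 1) * sC u n * t ^ n with hBd
  have a1 : A = 1 + ∑' n : ℕ, sC u (n + 1) * t ^ (n + 1) := by
    rw [hAd, hA.tsum_eq_zero_add]; simp [sC_zero]
  have a2 : ∑' n : ℕ, sC u (n + 1) * t ^ (n + 1) = u * t + ∑' n : ℕ, sC u (n + 2) * t ^ (n + 2) := by
    rw [hA1.tsum_eq_zero_add]; simp [sC_one]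
  have a3 : ∑' n : ℕ, sC u (n + 2) * t ^ (n + 2) = u * t * (∑' n : ℕ, sC u (n + 1) * t ^ (n + 1)) - t ^ 2 * A := by
    rw [hAd, ← tsum_mul_left, ← tsum_mul_left, ← (hA1.mul_left _).tsum_sub (hA.mul_left _)]
    refine tsum_congr fun n => ?_
    rw [sC_rec]; ring
  have b1 : B = 1 + ∑' n : ℕ, (((n + 1 : ℕ) : ℂ) + 1) * sC u (n + 1) * t ^ (n + 1) := by
    rw [hBd, hB.tsum_eq_zero_add]; simp [sC_zero]
  have b2 : ∑' n : ℕ, (((n + 1 : ℕ) : ℂ) + 1) * sC u (n + 1) * t ^ (n + 1) =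
      2 * u * t + ∑' n : ℕ, (((n + 2 : ℕ) : ℂ) + 1) * sC u (n + 2) * t ^ (n + 2) := by
    rw [hB1.tsum_eq_zero_add]
    have e0 : (((0 + 1 : ℕ) : ℂ) + 1) * sC u (0 + 1) * t ^ (0 + 1) = 2 * u * t := by
      simp only [zero_add, Nat.cast_one, sC_one, pow_one]; ring
    rw [e0]
  have b3 : ∑' n : ℕ, (((n + 2 : ℕ) : ℂ) + 1) * sC u (n + 2) * t ^ (n + 2) =
      u * t * (∑' n : ℕ, (((n + 1 : ℕ) : ℂ) + 1) * sC u (n + 1) * t ^ (n + 1)) +
      u * t * (∑' n : ℕ, sC u (n + 1) * t ^ (n + 1)) - t ^ 2 * B - 2 * t ^ 2 * A := by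
    rw [hAd, hBd, ← tsum_mul_left, ← tsum_mul_left, ← tsum_mul_left, ← tsum_mul_left,
      ← (hB1.mul_left _).tsum_add (hA1.mul_left _),
      ← ((hB1.mul_left _).add (hA1.mul_left _)).tsum_sub (hB.mul_left _),
      ← (((hB1.mul_left _).add (hA1.mul_left _)).sub (hB.mul_left _)).tsum_sub (hA.mul_left _)]
    refine tsum_congr fun n => ?_
    rw [sC_rec]; push_cast; ring
  have hD : A * (1 - u * t + t ^ 2) = 1 := by
    linear_combination (1 - u * t) * a1 + a2 + a3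
  have hD0 : (1 - u * t + t ^ 2) ≠ 0 := by
    intro h; rw [h, mul_zero] at hD; exact zero_ne_one hD
  have hBD : B * (1 - u * t + t ^ 2) = 1 + A * (u * t - 2 * t ^ 2) := by
    linear_combination (1 - u * t) * b1 + b2 + b3 - u * t * a1
  have hfin : B = (1 - t ^ 2) / (1 - u * t + t ^ 2) ^ 2 := by
    rw [eq_div_iff (pow_ne_zero 2 hD0)]
    linear_combination (1 - u * t + t ^ 2) * hBD + (u * t - 2 * t ^ 2) * hD
  rw [← hfin]
  exact hB.hasSum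

theorem kernel {z₀ b : ℂ} (hb : b ≠ 0) {x : ℝ} (hx : 0 ≤ x) {w s : ℂ} (hw : lv z₀ b w ≤ lx b x)
    (hs : Real.exp x < ‖s‖) :
    HasSum (fun n : ℕ => dC z₀ b (n + 1) w * s⁻¹ ^ (n + 1)) (b * (s - s⁻¹) / (J z₀ b s - w) ^ 2) := by
  obtain ⟨v, hv, h1, h2, h3⟩ := exists_v hb hx hw
  have he : 0 < Real.exp x := Real.exp_pos x
  have hs0 : 0 < ‖s‖ := lt_trans he hs
  have hs1 : s ≠ 0 := norm_pos_iff.1 hs0
  have ht : Real.exp x * ‖s⁻¹‖ < 1 := by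
    rw [norm_inv, ← div_eq_mul_inv, div_lt_one hs0]; exact hs
  have h := (sC_genfun hv he.le h1 h2 ht).mul_left (s⁻¹ / b)
  have hw' : w = z₀ + b * (v + v⁻¹) := by
    rw [← h3]; field_simp; ring
  have e : s⁻¹ / b * ((1 - s⁻¹ ^ 2) / (1 - (v + v⁻¹) * s⁻¹ + s⁻¹ ^ 2) ^ 2) = b * (s - s⁻¹) / (J z₀ b s - w) ^ 2 := by
    have e1 : J z₀ b s - w = b * s * (1 - (v + v⁻¹) * s⁻¹ + s⁻¹ ^ 2) := by
      rw [J, hw']; field_simp; ring
    rw [e1]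
    by_cases hz : (1 - (v + v⁻¹) * s⁻¹ + s⁻¹ ^ 2) = 0
    · rw [hz]; simp
    · generalize (1 - (v + v⁻¹) * s⁻¹ + s⁻¹ ^ 2) = D at hz
      field_simp
  rw [← e]
  refine h.congr_fun ?_
  intro n
  rw [dC_eq, h3]; ring

end ED1
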