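import Pool.Agent.H1.ED.P0

/-!
ROW Me. Equality of the moments. `closure Ω ⊆ ball 0 R`, `‖z‖ > R` (take `R + 1`). Test function `φ w = χ w Re (c/(z - w))`, `χ` smooth, `1` on `ball 0 R`, support in `ball 0 ‖z‖`
(a smooth bump; `w ↦ 1/(z-w)` smooth there). On `Ω`: `dφ_w(v) = Re (c v/(z-w)²)`, `lap φ = 0` (second derivatives of `Re` of a holomorphic function).
`h₁.eq φ`, `h₂.eq φ`: `∫ σ₁ dφ(G₁) = ∫ σ₂ dφ(G₂)`. `SameTrace` with the test functions `∂_v φ`, `v = 1, I`, added: `0 = ∫ (u₁-u₂) lap φ = -∫ dφ(G₁ - G₂)`. So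
`∫ (σ₁ - 1) dφ(G₁) = ∫ (σ₂ - 1) dφ(G₂)`, i.e. `Re (c A₁) = Re (c A₂)` for all `c` (`c = 1, I`). Integrability: `G ∈ L²(Ω)`, `Ω` bounded, `σ` bounded measurable.
-/

set_option autoImplicit false

namespace ED1

open Complex Set Filter Topology MeasureTheory MD12
open scoped ComplexConjugate ContDiff Real

private theorem Me_re {f : ℂ → ℂ} {f' w : ℂ} (h : HasDerivAt f f' w) (v : ℂ) :
    fderiv ℝ (fun w => (f w).re) w v = (v * f').re := by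
  have h1 := h.hasFDerivAt.restrictScalars ℝ
  have h2 := (Complex.reCLM.hasFDerivAt.comp w h1).fderiv
  have h3 : (fun w => (f w).re) = Complex.reCLM ∘ f := rfl
  rw [h3, h2]
  simp

private theorem Me_d1 {z w : ℂ} (c : ℂ) (h : z - w ≠ 0) :
    HasDerivAt (fun w => c * (z - w)⁻¹) (c * ((z - w) ^ 2)⁻¹) w := by
  have h1 := (((hasDerivAt_id w).const_sub z).inv h).const_mul c
  refine h1.congr_deriv ?_
  simp only [id]
  rw [neg_neg, one_div]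

private theorem Me_d2 {z w : ℂ} (a : ℂ) (h : z - w ≠ 0) :
    HasDerivAt (fun w => a * ((z - w) ^ 2)⁻¹) (a * (2 * ((z - w) ^ 3)⁻¹)) w := by
  have h1 := ((((hasDerivAt_id w).const_sub z).pow 2).inv (pow_ne_zero 2 h)).const_mul a
  refine h1.congr_deriv ?_
  simp only [id, Pi.pow_apply]
  field_simp
  push_cast
  ring

private theorem Me_test {R : ℝ} (hR : 0 < R) {z : ℂ} (hz : R < ‖z‖) (c : ℂ) :
    ∃ φ : ℂ → ℝ, IsTest φ ∧ ∀ w ∈ Metric.ball (0 : ℂ) R, φ w = (c * (z - w)⁻¹).re := by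
  obtain ⟨χ, hχi, hχo⟩ : ∃ χ : ContDiffBump (0 : ℂ), χ.rIn = R ∧ χ.rOut = (R + ‖z‖) / 2 :=
    ⟨⟨R, (R + ‖z‖) / 2, hR, by linarith⟩, rfl, rfl⟩
  have hts : tsupport χ = Metric.closedBall (0 : ℂ) ((R + ‖z‖) / 2) := by
    rw [χ.tsupport_eq, hχo]
  refine ⟨fun w => χ w * (c * (z - w)⁻¹).re, ⟨?_, ?_⟩, ?_⟩
  · rw [contDiff_iff_contDiffAt]
    intro w
    by_cases hw : w ∈ tsupport χ
    · have hne : z - w ≠ 0 := by
        intro h0
        have h1 : w = z := (sub_eq_zero.1 h0).symm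
        rw [hts, Metric.mem_closedBall, dist_zero_right, h1] at hw
        linarith
      refine χ.contDiff.contDiffAt.mul ?_
      have h2 : ContDiffAt ℝ ∞ (fun w => c * (z - w)⁻¹) w :=
        contDiffAt_const.mul ((contDiffAt_const.sub contDiffAt_id).inv hne)
      exact Complex.reCLM.contDiff.contDiffAt.comp w h2
    · have h1 : χ =ᶠ[𝓝 w] 0 := notMem_tsupport_iff_eventuallyEq.1 hw
      have h2 : (fun w => χ w * (c * (z - w)⁻¹).re) =ᶠ[𝓝 w] fun _ => 0 := by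
        filter_upwards [h1] with w' hw'
        rw [hw']
        simp
      exact contDiffAt_const.congr_of_eventuallyEq h2
  · exact χ.hasCompactSupport.mul_right
  · intro w hw
    show χ w * (c * (z - w)⁻¹).re = _
    rw [χ.one_of_mem_closedBall (by rw [hχi]; exact Metric.ball_subset_closedBall hw), one_mul]

private theorem Me_fd {R : ℝ} {z : ℂ} (hz : R < ‖z‖) {c : ℂ} {φ : ℂ → ℝ}
    (h : ∀ w ∈ Metric.ball (0 : ℂ) R, φ w = (c * (z - w)⁻¹).re) {w : ℂ}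
    (hw : w ∈ Metric.ball (0 : ℂ) R) (v : ℂ) :
    fderiv ℝ φ w v = (v * (c * ((z - w) ^ 2)⁻¹)).re := by
  have hne : z - w ≠ 0 := by
    intro h0
    have h1 : w = z := (sub_eq_zero.1 h0).symm
    rw [Metric.mem_ball, dist_zero_right, h1] at hw
    linarith
  have h1 : φ =ᶠ[𝓝 w] fun w => (c * (z - w)⁻¹).re := by
    filter_upwards [Metric.isOpen_ball.mem_nhds hw] with w' hw'
    exact h w' hw'
  rw [h1.fderiv_eq]
  exact Me_re (Me_d1 c hne) v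

private theorem Me_lap {R : ℝ} {z : ℂ} (hz : R < ‖z‖) {c : ℂ} {φ : ℂ → ℝ}
    (h : ∀ w ∈ Metric.ball (0 : ℂ) R, φ w = (c * (z - w)⁻¹).re) {w : ℂ}
    (hw : w ∈ Metric.ball (0 : ℂ) R) : lap φ w = 0 := by
  have hne : z - w ≠ 0 := by
    intro h0
    have h1 : w = z := (sub_eq_zero.1 h0).symm
    rw [Metric.mem_ball, dist_zero_right, h1] at hw
    linarith
  have h1 : ∀ v : ℂ, fderiv ℝ (fun w => fderiv ℝ φ w v) w v =
      (v * ((v * c) * (2 * ((z - w) ^ 3)⁻¹))).re := by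
    intro v
    have h2 : (fun w => fderiv ℝ φ w v) =ᶠ[𝓝 w] fun w => ((v * c) * ((z - w) ^ 2)⁻¹).re := by
      filter_upwards [Metric.isOpen_ball.mem_nhds hw] with w' hw'
      rw [Me_fd hz h hw' v, mul_assoc]
    rw [h2.fderiv_eq]
    exact Me_re (Me_d2 (v * c) hne) v
  unfold lap
  rw [h1 1, h1 I, ← Complex.add_re]
  have h3 : (1 : ℂ) * ((1 * c) * (2 * ((z - w) ^ 3)⁻¹)) + I * ((I * c) * (2 * ((z - w) ^ 3)⁻¹)) =
      0 := by
    linear_combination (c * (2 * ((z - w) ^ 3)⁻¹)) * Complex.I_mul_I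
  rw [h3, Complex.zero_re]

private theorem Me_int {Ω : Set ℂ} {G : ℂ → ℂ} (hG : MemLp G 2 (volume.restrict Ω)) {φ : ℂ → ℝ}
    (hφ : IsTest φ) : Integrable (fun z => fderiv ℝ φ z (G z)) (volume.restrict Ω) := by
  have h1 := pdb_int (pdb_inner hG 1) (hφ.fd 1).1
  have h2 := pdb_int (pdb_inner hG I) (hφ.fd I).1
  refine (h1.add h2).congr (Eventually.of_forall fun z => ?_)
  exact (fd_eq φ z (G z)).symm

private theorem Me_one {Ω : Set ℂ} (hΩo : IsOpen Ω) {σ₁ σ₂ : ℂ → ℝ}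
    (hm₁ : Measurable σ₁) (hm₂ : Measurable σ₂) {M : ℝ} (hM₁ : ∀ z, |σ₁ z| ≤ M) (hM₂ : ∀ z, |σ₂ z| ≤ M)
    {g u₁ u₂ : ℂ → ℝ} {G₁ G₂ : ℂ → ℂ} (h₁ : SolvesC Ω σ₁ g u₁ G₁) (h₂ : SolvesC Ω σ₂ g u₂ G₂)
    (ht : SameTrace Ω u₁ u₂ G₁ G₂) {φ : ℂ → ℝ} (hφ : IsTest φ) (hl : ∀ w ∈ Ω, lap φ w = 0) :
    ∫ w in Ω, (σ₁ w - 1) * fderiv ℝ φ w (G₁ w) = ∫ w in Ω, (σ₂ w - 1) * fderiv ℝ φ w (G₂ w) := by
  have i1 := Me_int h₁.sob.memG hφ
  have i2 := Me_int h₂.sob.memG hφ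
  have hb : ∀ {σ : ℂ → ℝ} (_ : Measurable σ) (_ : ∀ z, |σ z| ≤ M) {f : ℂ → ℝ}
      (_ : Integrable f (volume.restrict Ω)), Integrable (fun z => σ z * f z) (volume.restrict Ω) :=
    fun hm hM _ hf => hf.bdd_mul hm.aestronglyMeasurable (Eventually.of_forall fun z => hM z)
  have e1 : ∫ w in Ω, σ₁ w * fderiv ℝ φ w (G₁ w) = ∫ w in Ω, σ₂ w * fderiv ℝ φ w (G₂ w) := by
    rw [h₁.eq φ hφ, h₂.eq φ hφ]
  have hS := zex_sob hΩo h₁.sob h₂.sob ht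
  have e2 := sob_lap hS hφ (subset_univ _)
  rw [zex_int hΩo] at e2
  have e3 : ∫ z in Ω, (u₁ z - u₂ z) * lap φ z = 0 := by
    rw [setIntegral_congr_fun (g := fun _ => (0 : ℝ)) hΩo.measurableSet (fun z hz => ?_)]
    · simp
    · show (u₁ z - u₂ z) * lap φ z = 0
      rw [hl z hz, mul_zero]
  have e4 : ∫ z in Set.univ, fderiv ℝ φ z ((Ω.indicator fun z => G₁ z - G₂ z) z) =
      ∫ z in Ω, (fderiv ℝ φ z (G₁ z) - fderiv ℝ φ z (G₂ z)) := by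
    rw [setIntegral_univ, ← integral_indicator hΩo.measurableSet]
    refine integral_congr_ae (Eventually.of_forall fun z => ?_)
    by_cases hz : z ∈ Ω
    · simp only [Set.indicator_of_mem hz, map_sub]
    · simp only [Set.indicator_of_notMem hz, map_zero]
  rw [e3, e4, integral_sub i1 i2] at e2
  have e5 : ∫ w in Ω, (σ₁ w - 1) * fderiv ℝ φ w (G₁ w) =
      (∫ w in Ω, σ₁ w * fderiv ℝ φ w (G₁ w)) - ∫ w in Ω, fderiv ℝ φ w (G₁ w) := by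
    rw [← integral_sub (hb hm₁ hM₁ i1) i1]
    refine integral_congr_ae (Eventually.of_forall fun w => ?_)
    show (σ₁ w - 1) * fderiv ℝ φ w (G₁ w) = _
    ring
  have e6 : ∫ w in Ω, (σ₂ w - 1) * fderiv ℝ φ w (G₂ w) =
      (∫ w in Ω, σ₂ w * fderiv ℝ φ w (G₂ w)) - ∫ w in Ω, fderiv ℝ φ w (G₂ w) := by
    rw [← integral_sub (hb hm₂ hM₂ i2) i2]
    refine integral_congr_ae (Eventually.of_forall fun w => ?_)
    show (σ₂ w - 1) * fderiv ℝ φ w (G₂ w) = _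
    ring
  rw [e5, e6, e1]
  linarith

private theorem Me_F {Ω : Set ℂ} (hΩo : IsOpen Ω) (hΩb : Bornology.IsBounded Ω) {R : ℝ}
    (hR : Ω ⊆ Metric.ball (0 : ℂ) R) {z : ℂ} (hz : R < ‖z‖) {σ : ℂ → ℝ} (hm : Measurable σ) {M : ℝ}
    (hM : ∀ z, |σ z| ≤ M) {G : ℂ → ℂ} (hG : MemLp G 2 (volume.restrict Ω)) :
    Integrable (fun w => ((σ w - 1 : ℝ) : ℂ) * G w / (z - w) ^ 2) (volume.restrict Ω) := by
  have hfin : IsFiniteMeasure (volume.restrict Ω) :=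
    ⟨by rw [Measure.restrict_apply_univ]; exact hΩb.measure_lt_top⟩
  have hGi : Integrable G (volume.restrict Ω) := hG.integrable (by norm_num)
  have hm1 : Measurable (fun w : ℂ => ((σ w - 1 : ℝ) : ℂ) / (z - w) ^ 2) :=
    (Complex.measurable_ofReal.comp (hm.sub_const 1)).div
      ((measurable_const.sub measurable_id).pow_const 2)
  have h1 : Integrable (fun w => (((σ w - 1 : ℝ) : ℂ) / (z - w) ^ 2) * G w) (volume.restrict Ω) := by
    refine hGi.bdd_mul (c := (M + 1) / (‖z‖ - R) ^ 2) hm1.aestronglyMeasurable ?_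
    filter_upwards [ae_restrict_mem hΩo.measurableSet] with w hw
    have hw1 : ‖w‖ < R := by
      have := hR hw
      rwa [Metric.mem_ball, dist_zero_right] at this
    have hw2 : ‖z‖ - R ≤ ‖z - w‖ := by
      have := norm_sub_norm_le z w
      linarith
    rw [norm_div, norm_pow, Complex.norm_real]
    have h2 : ‖σ w - 1‖ ≤ M + 1 := by
      have h3 := norm_sub_le (σ w) 1
      rw [norm_one] at h3
      have h4 : ‖σ w‖ ≤ M := hM w
      linarith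
    have h5 : 0 < ‖z‖ - R := by linarith
    exact div_le_div₀ ((norm_nonneg _).trans h2) h2 (by positivity)
      (pow_le_pow_left₀ h5.le hw2 2)
  refine h1.congr (Eventually.of_forall fun w => ?_)
  show (((σ w - 1 : ℝ) : ℂ) / (z - w) ^ 2) * G w = ((σ w - 1 : ℝ) : ℂ) * G w / (z - w) ^ 2
  ring

theorem Me {Ω : Set ℂ} (hΩo : IsOpen Ω) (hΩb : Bornology.IsBounded Ω) {σ₁ σ₂ : ℂ → ℝ}
    (hm₁ : Measurable σ₁) (hm₂ : Measurable σ₂) {M : ℝ} (hM₁ : ∀ z, |σ₁ z| ≤ M) (hM₂ : ∀ z, |σ₂ z| ≤ M)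
    {g u₁ u₂ : ℂ → ℝ} {G₁ G₂ : ℂ → ℂ} (h₁ : SolvesC Ω σ₁ g u₁ G₁) (h₂ : SolvesC Ω σ₂ g u₂ G₂)
    (ht : SameTrace Ω u₁ u₂ G₁ G₂) : ∃ R : ℝ, ∀ z : ℂ, R < ‖z‖ →
      ∫ w in Ω, ((σ₁ w - 1 : ℝ) : ℂ) * G₁ w / (z - w) ^ 2 = ∫ w in Ω, ((σ₂ w - 1 : ℝ) : ℂ) * G₂ w / (z - w) ^ 2 := by
  obtain ⟨R0, hR0⟩ := hΩb.subset_closedBall (0 : ℂ)
  refine ⟨|R0| + 1, fun z hz => ?_⟩
  have hRpos : 0 < |R0| + 1 := by positivity
  have hΩR : Ω ⊆ Metric.ball (0 : ℂ) (|R0| + 1) := by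
    intro w hw
    have h3 := mem_closedBall_zero_iff.1 (hR0 hw)
    rw [mem_ball_zero_iff]
    linarith [le_abs_self R0]
  have key : ∀ c : ℂ, (c * ∫ w in Ω, ((σ₁ w - 1 : ℝ) : ℂ) * G₁ w / (z - w) ^ 2).re =
      (c * ∫ w in Ω, ((σ₂ w - 1 : ℝ) : ℂ) * G₂ w / (z - w) ^ 2).re := by
    intro c
    obtain ⟨φ, hφ, hφ1⟩ := Me_test hRpos hz c
    have h3 := Me_one hΩo hm₁ hm₂ hM₁ hM₂ h₁ h₂ ht hφ (fun w hw => Me_lap hz hφ1 (hΩR hw))
    have h4 : ∀ {σ : ℂ → ℝ} (_ : Measurable σ) (_ : ∀ z, |σ z| ≤ M) {G : ℂ → ℂ}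
        (_ : MemLp G 2 (volume.restrict Ω)), ∫ w in Ω, (σ w - 1) * fderiv ℝ φ w (G w) =
          (c * ∫ w in Ω, ((σ w - 1 : ℝ) : ℂ) * G w / (z - w) ^ 2).re := by
      intro σ hm hM G hG
      have h5 := (Me_F hΩo hΩb hΩR hz hm hM hG).const_mul c
      have h6 := Complex.reCLM.integral_comp_comm h5
      rw [integral_const_mul] at h6
      refine Eq.trans ?_ h6
      refine setIntegral_congr_fun hΩo.measurableSet fun w hw => ?_
      show (σ w - 1) * fderiv ℝ φ w (G w) = (c * (((σ w - 1 : ℝ) : ℂ) * G w / (z - w) ^ 2)).re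
      rw [Me_fd hz hφ1 (hΩR hw)]
      have h7 : c * (((σ w - 1 : ℝ) : ℂ) * G w / (z - w) ^ 2) =
          ((σ w - 1 : ℝ) : ℂ) * (G w * (c * ((z - w) ^ 2)⁻¹)) := by
        rw [div_eq_mul_inv]
        ring
      rw [h7, Complex.re_ofReal_mul]
    rw [← h4 hm₁ hM₁ h₁.sob.memG, ← h4 hm₂ hM₂ h₂.sob.memG]
    exact h3
  apply Complex.ext
  · have := key 1
    rwa [one_mul, one_mul] at this
  · have h8 := key (-I)
    simp only [neg_mul, Complex.neg_re, Complex.mul_re, Complex.I_re, Complex.I_im, zero_mul,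
      one_mul, zero_sub, neg_neg] at h8
    exact h8

end ED1
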