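import Pool.Agent.H12.MDM.H
import Pool.Agent.H1.ED.D0

/-!
# ED: weak solutions

`Sob`, `Loc`, `SameTrace`, `IsTest`, `cond`, `MONO_gr` (gradient of a function as a complex number `φ_x + i φ_y`, `MONO_gr_inner`) are in `Pool/Agent/H12/MDM`.
-/

set_option autoImplicit false

namespace ED1

open Complex Set Filter Topology MeasureTheory MD12
open scoped ComplexConjugate ContDiff Real

/-- weak solution of the Neumann problem with conductivity `σ` and data `g` -/
structure SolvesC (Ω : Set ℂ) (σ : ℂ → ℝ) (g u : ℂ → ℝ) (G : ℂ → ℂ) : Prop where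
  /-- Sobolev function -/
  sob : Sob Ω u G
  /-- the weak equation, tested with smooth functions on the plane -/
  eq : ∀ φ : ℂ → ℝ, IsTest φ →
    ∫ z in Ω, σ z * fderiv ℝ φ z (G z) = ∫ z in frontier Ω, g z * φ z ∂μH[1]

/-- the two fields near the interface `lv = lx x`: holomorphic inside and outside -/
structure Flds (z₀ b : ℂ) (k x y : ℝ) (u : ℂ → ℝ) (G Fi Fo : ℂ → ℂ) : Prop where
  hb : b ≠ 0
  hk : 0 < k
  hx : 0 < x
  hxy : x < y
  sob : Sob (De z₀ b y) u G
  loc : Loc (De z₀ b y) k (De z₀ b x) G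
  di : DifferentiableOn ℂ Fi (De z₀ b x)
  do' : DifferentiableOn ℂ Fo (An z₀ b x y)
  ei : ∀ᵐ z ∂volume.restrict (De z₀ b x), G z = conj (Fi z)
  eo : ∀ᵐ z ∂volume.restrict (An z₀ b x y), G z = conj (Fo z)

end ED1
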