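import Pool.Agent.H1.ED.D0

/-!
ROW Sq. `Sg_eq`: the distance of the foci of the first is at most the one of the second and conversely; all four foci are on one line; the midpoints agree (e.g. in the coordinate `(z - z₀)/b`:
`z₁ ± 2c` are real in `[-2,2]`, and `±2 = ` points of the segment with end points `z₁ ± 2c`).
`alg`: the same outer Fourier coefficient of two confocal ellipses. From `h1`, `h2` (add): `A sinh(2nx) = A' sinh(2nx')` (as `k ≠ 1`); put it into `h1`:
`(k+1) ‖A'‖ (S' - S) = |k-1| ‖A'‖ sinh(2n(x'-x))`, `S = sinh 2nx`, `S' = sinh 2nx'`, and `S' - S = 2 cosh(n(x'+x)) sinh(n(x'-x)) > 2 cosh(n(x'-x)) sinh(n(x'-x)) = sinh(2n(x'-x)) > 0`, `|k-1| < k+1`: `A' = 0`.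
-/

set_option autoImplicit false

namespace ED1

open Complex Set Filter Topology MeasureTheory
open scoped ComplexConjugate ContDiff Real

/-- a point of a focal segment -/
theorem Sq_pt {z₁ c w : ℂ} (h : w ∈ Sg z₁ c) : ∃ μ : ℝ, -1 ≤ μ ∧ μ ≤ 1 ∧ w = z₁ + 2 * (μ : ℂ) * c := by
  obtain ⟨α, β, hα, hβ, hab, h⟩ := h
  refine ⟨β - α, by linarith, by linarith, ?_⟩
  have hb : (α : ℂ) + β = 1 := by exact_mod_cast hab
  rw [← h]
  simp only [real_smul]
  push_cast
  linear_combination z₁ * hb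

/-- two focal segments, each of which contains the foci of the other one, are equal -/
theorem Sg_eq {z₀ b z₁ c : ℂ} (h1 : z₀ + 2 * b ∈ Sg z₁ c) (h2 : z₀ - 2 * b ∈ Sg z₁ c)
    (h3 : z₁ + 2 * c ∈ Sg z₀ b) (h4 : z₁ - 2 * c ∈ Sg z₀ b) : z₁ = z₀ ∧ (c = b ∨ c = -b) := by
  obtain ⟨m1, hm1, hm1', e1⟩ := Sq_pt h1
  obtain ⟨m2, hm2, hm2', e2⟩ := Sq_pt h2
  obtain ⟨n1, hn1, hn1', e3⟩ := Sq_pt h3
  obtain ⟨n2, hn2, hn2', e4⟩ := Sq_pt h4
  have hb : b = ((m1 - m2) / 2 : ℝ) * c := by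
    push_cast
    linear_combination (e1 - e2) / 4
  have hc : c = ((n1 - n2) / 2 : ℝ) * b := by
    push_cast
    linear_combination (e3 - e4) / 4
  have hz : z₀ = z₁ + ((m1 + m2 : ℝ) : ℂ) * c := by
    push_cast
    linear_combination (e1 + e2) / 2
  by_cases hc0 : c = 0
  · have hb0 : b = 0 := by rw [hb, hc0, mul_zero]
    refine ⟨?_, Or.inl (by rw [hc0, hb0])⟩
    rw [hz, hc0, mul_zero, add_zero]
  · have hp : ((n1 - n2) / 2) * ((m1 - m2) / 2) = 1 := by
      have h : (((n1 - n2) / 2 * ((m1 - m2) / 2) : ℝ) : ℂ) * c = 1 * c := by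
        rw [one_mul]
        conv_rhs => rw [hc, hb]
        push_cast
        ring
      have h' := mul_right_cancel₀ hc0 h
      exact_mod_cast h'
    have hs : m1 + m2 = 0 := by
      by_contra hne
      rcases lt_or_ge 0 (m1 - m2) with hpos | hneg
      · have : m1 - m2 < 2 := by
          by_contra hge
          exact hne (by linarith)
        nlinarith
      · have : -2 < m1 - m2 := by
          by_contra hge
          exact hne (by linarith)
        nlinarith
    have hz' : z₀ = z₁ := by rw [hz, hs]; simp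
    refine ⟨hz'.symm, ?_⟩
    have hd : m1 - m2 = 2 ∨ m1 - m2 = -2 := by
      rcases lt_or_ge 0 (m1 - m2) with hpos | hneg
      · left
        by_contra hne
        have : m1 - m2 < 2 := lt_of_le_of_ne (by linarith) hne
        nlinarith
      · right
        by_contra hne
        have : -2 < m1 - m2 := lt_of_le_of_ne (by linarith) (Ne.symm hne)
        nlinarith
    rcases hd with hd | hd
    · left
      rw [hb, hd]
      push_cast
      ring
    · right
      rw [hb, hd]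
      push_cast
      ring

theorem alg {k x x' : ℝ} (hk : 0 < k) (hk1 : k ≠ 1) (hx : 0 < x) (hxx : x < x') {n : ℕ} (hn : 1 ≤ n) {A A' : ℂ}
    (h1 : (k + 1) * A - (k - 1) * conj A * exp (-(2 * n * x)) = (k + 1) * A' - (k - 1) * conj A' * exp (-(2 * n * x')))
    (h2 : -((k + 1) * A) + (k - 1) * conj A * exp (2 * n * x) =
      -((k + 1) * A') + (k - 1) * conj A' * exp (2 * n * x')) : A' = 0 := by
  have hn0 : (0 : ℝ) < n := by exact_mod_cast hn
  set P : ℝ := Real.exp (2 * n * x) with hP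
  set Q : ℝ := Real.exp (2 * n * x') with hQ
  have hP1 : 1 < P := by
    rw [hP]; exact Real.one_lt_exp_iff.2 (by positivity)
  have hPQ : P < Q := by
    rw [hP, hQ]; exact Real.exp_lt_exp.2 (by nlinarith)
  have hP0 : 0 < P := by linarith
  have hQ0 : 0 < Q := by linarith
  have eP : exp (2 * n * x) = (P : ℂ) := by rw [hP]; push_cast; rfl
  have eQ : exp (2 * n * x') = (Q : ℂ) := by rw [hQ]; push_cast; rfl
  rw [Complex.exp_neg, Complex.exp_neg, eP, eQ] at h1
  rw [eP, eQ] at h2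
  have hPc : (P : ℂ) ≠ 0 := by exact_mod_cast hP0.ne'
  have hQc : (Q : ℂ) ≠ 0 := by exact_mod_cast hQ0.ne'
  have hkc : (k : ℂ) - 1 ≠ 0 := by
    intro h
    apply hk1
    have : ((k - 1 : ℝ) : ℂ) = 0 := by push_cast; exact h
    have := Complex.ofReal_eq_zero.1 this
    linarith
  -- sum
  have hs : conj A * ((P : ℂ) - (P : ℂ)⁻¹) = conj A' * ((Q : ℂ) - (Q : ℂ)⁻¹) := by
    apply mul_left_cancel₀ hkc
    linear_combination h1 + h2
  have hs' : A * ((P : ℂ) - (P : ℂ)⁻¹) = A' * ((Q : ℂ) - (Q : ℂ)⁻¹) := by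
    have := congrArg conj hs
    simpa using this
  -- the relation
  have hr : ((k : ℂ) + 1) * A' * (((Q - Q⁻¹) - (P - P⁻¹) : ℝ) : ℂ) = (k - 1) * conj A' * ((Q / P - P / Q : ℝ) : ℂ) := by
    push_cast
    have e := congrArg (fun z => z * ((P : ℂ) - (P : ℂ)⁻¹)) h1
    beta_reduce at e
    have e2 : (k + 1) * (A' * ((Q : ℂ) - (Q : ℂ)⁻¹)) - (k - 1) * (conj A' * ((Q : ℂ) - (Q : ℂ)⁻¹)) * (P : ℂ)⁻¹
        = (k + 1) * A' * ((P : ℂ) - (P : ℂ)⁻¹) - (k - 1) * conj A' * (Q : ℂ)⁻¹ * ((P : ℂ) - (P : ℂ)⁻¹) := by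
      rw [← hs, ← hs']
      linear_combination e
    have e3 : ((Q : ℂ) - (Q : ℂ)⁻¹) * (P : ℂ)⁻¹ - (Q : ℂ)⁻¹ * ((P : ℂ) - (P : ℂ)⁻¹) = Q / P - P / Q := by
      field_simp
      ring
    linear_combination e2 + (k - 1) * conj A' * e3
  by_contra hA
  have hn' : 0 < ‖A'‖ := norm_pos_iff.2 hA
  have hN := congrArg norm hr
  have hk1' : ‖(k : ℂ) + 1‖ = k + 1 := by
    have : (k : ℂ) + 1 = ((k + 1 : ℝ) : ℂ) := by push_cast; rfl
    rw [this, Complex.norm_real, Real.norm_of_nonneg (by linarith)]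
  have hk2' : ‖(k : ℂ) - 1‖ = |k - 1| := by
    have : (k : ℂ) - 1 = ((k - 1 : ℝ) : ℂ) := by push_cast; rfl
    rw [this, Complex.norm_real, Real.norm_eq_abs]
  rw [norm_mul, norm_mul, norm_mul, norm_mul, hk1', hk2', Complex.norm_real, Complex.norm_real, Complex.norm_conj] at hN
  have hT : 0 < Q / P - P / Q := by
    have h1 : 1 < Q / P := by rw [one_lt_div hP0]; exact hPQ
    have h2 : P / Q < 1 := by rw [div_lt_one hQ0]; exact hPQ
    linarith
  have hD : Q / P - P / Q < (Q - Q⁻¹) - (P - P⁻¹) := by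
    have e : ((Q - Q⁻¹) - (P - P⁻¹)) - (Q / P - P / Q) = (Q - P) * (P - 1) * (Q - 1) / (P * Q) := by
      field_simp
      ring
    have : 0 < (Q - P) * (P - 1) * (Q - 1) / (P * Q) := by
      apply div_pos
      · apply mul_pos (mul_pos _ _) <;> linarith
      · positivity
    linarith
  rw [Real.norm_of_nonneg hT.le, Real.norm_of_nonneg (by linarith)] at hN
  have hab : |k - 1| < k + 1 := by
    rw [abs_lt]; constructor <;> linarith
  have h3 : |k - 1| * ‖A'‖ * (Q / P - P / Q) < (k + 1) * ‖A'‖ * (Q / P - P / Q) := by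
    apply mul_lt_mul_of_pos_right _ hT
    exact mul_lt_mul_of_pos_right hab hn'
  have h4 : (k + 1) * ‖A'‖ * (Q / P - P / Q) < (k + 1) * ‖A'‖ * ((Q - Q⁻¹) - (P - P⁻¹)) := by
    apply mul_lt_mul_of_pos_left hD
    positivity
  linarith

end ED1
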