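import Pool.Agent.H1.ED.P0

/-!
ROW We. The gradient field of a weak solution is antiholomorphic where the conductivity is constant.
`whar_of_loc`, `weyl`: `u = U` a.e. on `N`, `U` harmonic on `N`. `F = U_x - i U_y`; locally `U = Re f` (`hco_exists` in `MDM/A.lean`), `F = f'`: holomorphic.
`G = conj F` a.e.: for a test function `φ` in `N`: `∫ u dφ(v) = -∫ ⟪G,v⟫ φ` (`Sob.grad`) and `∫ U dφ(v) = -∫ dU(v) φ` (classical, see the proof of `const_of_grad_zero` in `MDM/H.lean`), so
`∫ (⟪G,v⟫ - dU(v)) φ = 0` for all `φ`, `IsOpen.ae_eq_zero_of_integral_contDiff_smul_eq_zero`, `v = 1, I`.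
-/

set_option autoImplicit false

namespace ED1

open Complex Set Filter Topology MeasureTheory MD12
open scoped ComplexConjugate ContDiff Real

/-- the gradient of a harmonic function is antiholomorphic -/
theorem We_hol {U : ℂ → ℝ} {z : ℂ} (hU : InnerProductSpace.HarmonicAt U z) :
    DifferentiableAt ℂ (fun w => conj (MONO_gr U w)) z := by
  obtain ⟨f, hf, he⟩ := hco_exists hU
  have h1 : ∀ᶠ w in 𝓝 z, conj (MONO_gr U w) = deriv f w := by
    filter_upwards [he.eventually_nhds, hf.eventually_analyticAt] with w hw hfw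
    have hfd : HasFDerivAt f (ContinuousLinearMap.toSpanSingleton ℂ (deriv f w)) w :=
      hfw.differentiableAt.hasDerivAt.hasFDerivAt
    have hfd2 : HasFDerivAt U (Complex.reCLM.comp
        ((ContinuousLinearMap.toSpanSingleton ℂ (deriv f w)).restrictScalars ℝ)) w := by
      refine HasFDerivAt.congr_of_eventuallyEq (f := fun y => (f y).re) ?_ hw
      exact (Complex.reCLM.hasFDerivAt (x := f w)).comp w (hfd.restrictScalars ℝ)
    have h2 : fderiv ℝ U w = _ := hfd2.fderiv
    unfold MONO_gr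
    rw [h2]
    apply Complex.ext <;> simp
  exact (hf.deriv.differentiableAt).congr_of_eventuallyEq h1

theorem We_grad {N : Set ℂ} (hN : IsOpen N) {u : ℂ → ℝ} {G : ℂ → ℂ} (hS : Sob N u G)
    {V : ℂ → ℝ} (hV : ∀ z ∈ N, InnerProductSpace.HarmonicAt V z)
    (hVu : ∀ᵐ z ∂volume.restrict N, V z = u z) (v : ℂ) :
    ∀ᵐ z ∂volume.restrict N, (inner ℝ (G z) v : ℝ) = fderiv ℝ V z v := by
  have hC2 : ContDiffOn ℝ 2 V N := fun z hz => (hV z hz).1.contDiffWithinAt
  have hC1 : ContDiffOn ℝ 1 V N := hC2.of_le (by norm_num)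
  have hcont : ContinuousOn V N := hC2.continuousOn
  have hdiff : ∀ z ∈ N, DifferentiableAt ℝ V z := fun z hz => (hV z hz).1.differentiableAt (by norm_num)
  have hfd : ContinuousOn (fderiv ℝ V) N := hC1.continuousOn_fderiv_of_isOpen hN le_rfl
  have hfv : ContinuousOn (fun z => fderiv ℝ V z v) N := hfd.clm_apply continuousOn_const
  have hli1 : LocallyIntegrableOn (fun z => (inner ℝ (G z) v : ℝ)) N volume :=
    locallyIntegrableOn_of_locallyIntegrable_restrict
      ((pdb_inner hS.memG v).locallyIntegrable (by norm_num))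
  have hae : ∀ᵐ z ∂(volume : Measure ℂ), z ∈ N → (inner ℝ (G z) v : ℝ) - fderiv ℝ V z v = 0 := by
    apply hN.ae_eq_zero_of_integral_contDiff_smul_eq_zero
      (hli1.sub (hfv.locallyIntegrableOn hN.measurableSet))
    intro φ hφ1 hφ2 hφ3
    have hφc : Continuous φ := hφ1.continuous
    have hφd : Continuous (fun z => fderiv ℝ φ z v) :=
      (hφ1.continuous_fderiv (by simp)).clm_apply continuous_const
    have hφdc : HasCompactSupport (fun z => fderiv ℝ φ z v) := hφ2.fderiv_apply ℝ v
    have hsub : tsupport (fun z => fderiv ℝ φ z v) ⊆ N := (IsTest.fd ⟨hφ1, hφ2⟩ v).2.trans hφ3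
    have hparts := integral_mul_fderiv_eq_neg_fderiv_mul_of_integrable (μ := (volume : Measure ℂ)) (f := V) (g := φ) (v := v)
      (grz_int hN hfv hφc hφ2 hφ3) (grz_int hN hcont hφd hφdc hsub) (grz_int hN hcont hφc hφ2 hφ3)
      (fun x hx => hdiff x (hφ3 hx)) (fun x _ => hφ1.contDiffAt.differentiableAt (by simp))
    have hfull : ∫ z, V z * fderiv ℝ φ z v = ∫ z in N, u z * fderiv ℝ φ z v := by
      rw [← setIntegral_eq_integral_of_forall_compl_eq_zero (s := N)]
      · apply integral_congr_ae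
        filter_upwards [hVu] with z hz
        rw [hz]
      · intro z hz
        have h2 : fderiv ℝ φ z v = 0 := by
          by_contra h3
          exact hz (hsub (subset_tsupport _ h3))
        rw [h2, mul_zero]
    have hg := hS.grad φ ⟨hφ1, hφ2⟩ hφ3 v
    have hVN : ∫ z, fderiv ℝ V z v * φ z = ∫ z in N, fderiv ℝ V z v * φ z := by
      rw [← setIntegral_eq_integral_of_forall_compl_eq_zero (s := N)]
      intro z hz
      rw [image_eq_zero_of_notMem_tsupport (fun h' => hz (hφ3 h')), mul_zero]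
    have e5 : ∫ z, φ z • ((inner ℝ (G z) v : ℝ) - fderiv ℝ V z v)
        = ∫ z in N, ((inner ℝ (G z) v : ℝ) * φ z - fderiv ℝ V z v * φ z) := by
      rw [← setIntegral_eq_integral_of_forall_compl_eq_zero (s := N)]
      · refine integral_congr_ae ?_
        filter_upwards with z
        rw [smul_eq_mul]
        ring
      · intro z hz
        rw [image_eq_zero_of_notMem_tsupport (fun h' => hz (hφ3 h')), zero_smul]
    simp only [Pi.sub_apply]
    rw [e5, integral_sub (pdb_int (pdb_inner hS.memG v) ⟨hφ1, hφ2⟩)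
      ((grz_int hN hfv hφc hφ2 hφ3).mono_measure Measure.restrict_le_self)]
    rw [hfull, hg, hVN] at hparts
    linarith
  rw [ae_restrict_iff' hN.measurableSet]
  filter_upwards [hae] with z hz hzN
  exact sub_eq_zero.1 (hz hzN)

theorem We {N : Set ℂ} (hN : IsOpen N) {u : ℂ → ℝ} {G : ℂ → ℂ} (hS : Sob N u G) {k : ℝ} (hk : 0 < k)
    {D : Set ℂ} (hL : Loc N k D G) (hD : Disjoint D N ∨ N ⊆ D) :
    ∃ F : ℂ → ℂ, DifferentiableOn ℂ F N ∧ ∀ᵐ z ∂volume.restrict N, G z = conj (F z) := by
  have h := whar_of_loc hN hS hk hL hD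
  obtain ⟨U, hU, hUu⟩ := weyl hN (locallyIntegrableOn_of_locallyIntegrable_restrict
    (hS.memu.locallyIntegrable (by norm_num))) h
  refine ⟨fun w => conj (MONO_gr U w), fun z hz => (We_hol (hU z hz)).differentiableWithinAt, ?_⟩
  filter_upwards [We_grad hN hS hU hUu 1, We_grad hN hS hU hUu I] with z h1 h2
  have h1' : (G z).re = fderiv ℝ U z 1 := by
    rw [← h1]; simp [Complex.inner]
  have h2' : (G z).im = fderiv ℝ U z I := by
    rw [← h2]; simp [Complex.inner]
  apply Complex.ext
  · simp [MONO_gr, h1']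
  · simp [MONO_gr, h2']

end ED1
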