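import Pool.Agent.H1.ED.Dk
import Pool.Agent.H1.ED.We
import Pool.Agent.H1.ED.Me
import Pool.Agent.H1.ED.Fg
import Pool.Agent.H1.ED.Ev
import Pool.Agent.H1.ED.Dd
import Pool.Agent.H1.ED.C1
import Pool.Agent.H1.ED.C2

/-!
# Assembly: the first theorem
-/

set_option autoImplicit false

namespace ED1

open Complex Set Filter Topology MeasureTheory MD12
open scoped ComplexConjugate ContDiff Real

/-- the data of a solution near an ellipse -/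
theorem deep' {Ω : Set ℂ} (hΩo : IsOpen Ω) {k : ℝ} (hk : 0 < k) {z₀ b : ℂ} (hb : b ≠ 0) {x y : ℝ} (hx : 0 < x)
    (hxy : x < y) (hyΩ : De z₀ b y ⊆ Ω) {g u : ℂ → ℝ} {G : ℂ → ℂ}
    (h : SolvesC Ω (cond k (De z₀ b x)) g u G) :
    ∃ Fi Fo : ℂ → ℂ, Flds z₀ b k x y u G Fi Fo := by
  have hs : Solves Ω k (De z₀ b x) g u G := ⟨h.sob, h.eq⟩
  have hLΩ : Loc Ω k (De z₀ b x) G := hs.loc hΩo
  have hDo := De_open z₀ b y
  have hxy' : De z₀ b x ⊆ De z₀ b y := by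
    intro z hz
    have h1 : lv z₀ b z < lx b x := hz
    have h2 : lx b x < lx b y := (lx_lt hb hx.le (by linarith)).2 hxy
    exact h1.trans h2
  have hAn : An z₀ b x y ⊆ De z₀ b y := fun z hz => hz.2
  have hSy : Sob (De z₀ b y) u G := h.sob.mono hΩo hDo hyΩ
  have hLy : Loc (De z₀ b y) k (De z₀ b x) G := hLΩ.mono hΩo hDo hyΩ
  obtain ⟨Fi, hFi, hei⟩ := We (De_open z₀ b x) (hSy.mono hDo (De_open z₀ b x) hxy') hk
    (hLy.mono hDo (De_open z₀ b x) hxy') (Or.inr le_rfl)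
  obtain ⟨Fo, hFo, heo⟩ := We (An_open z₀ b x y) (hSy.mono hDo (An_open z₀ b x y) hAn) hk
    (hLy.mono hDo (An_open z₀ b x y) hAn) (Or.inl (by
      rw [Set.disjoint_left]
      intro z hz hz'
      have h1 : lv z₀ b z < lx b x := hz
      exact absurd h1 (not_lt.2 hz'.1.le)))
  exact ⟨Fi, Fo, ⟨hb, hk, hx, hxy, hSy, hLy, hFi, hFo, hei, heo⟩⟩

/-- the data of a solution near a deep ellipse -/
theorem deep {Ω : Set ℂ} (hΩo : IsOpen Ω) {k : ℝ} (hk : 0 < k) {z₀ b : ℂ} (hb : b ≠ 0) {x : ℝ} (hx : 0 < x)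
    (hD : {z | lv z₀ b z ≤ lx b (2 * x)} ⊆ Ω) {g u : ℂ → ℝ} {G : ℂ → ℂ}
    (h : SolvesC Ω (cond k (De z₀ b x)) g u G) :
    ∃ (y : ℝ) (Fi Fo : ℂ → ℂ), 2 * x < y ∧ De z₀ b y ⊆ Ω ∧ Flds z₀ b k x y u G Fi Fo := by
  obtain ⟨y, hy, hyΩ⟩ := Dd hb (by linarith : (0 : ℝ) ≤ 2 * x) hΩo hD
  obtain ⟨Fi, Fo, hF⟩ := deep' hΩo hk hb hx (by linarith) hyΩ h
  exact ⟨y, Fi, Fo, hy, hyΩ, hF⟩

theorem Flds.fi2 {z₀ b : ℂ} {k x y : ℝ} {u : ℂ → ℝ} {G Fi Fo : ℂ → ℂ} (h : Flds z₀ b k x y u G Fi Fo) :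
    MemLp Fi 2 (volume.restrict (De z₀ b x)) := by
  have hxy' : De z₀ b x ⊆ De z₀ b y := by
    intro z hz
    have h1 : lv z₀ b z < lx b x := hz
    have h2 : lx b x < lx b y := (lx_lt h.hb h.hx.le (by linarith [h.hx, h.hxy])).2 h.hxy
    exact h1.trans h2
  have h1 : MemLp G 2 (volume.restrict (De z₀ b x)) :=
    h.sob.memG.mono_measure (Measure.restrict_mono hxy' le_rfl)
  refine h1.of_le ?_ ?_
  · exact (h.di.continuousOn.aestronglyMeasurable (De_open z₀ b x).measurableSet)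
  · filter_upwards [h.ei] with z hz
    rw [hz, RCLike.norm_conj]

/-- the moments -/
noncomputable def mo (z₀ b : ℂ) (x : ℝ) (F : ℂ → ℂ) (n : ℕ) : ℂ :=
  ∫ z in De z₀ b x, conj (F z) * dC z₀ b (n + 1) z

theorem vol_De (z₀ b : ℂ) (x : ℝ) : volume (De z₀ b x) < ⊤ := (De_bdd z₀ b x).measure_lt_top

theorem Flds.int {z₀ b : ℂ} {k x y : ℝ} {u : ℂ → ℝ} {G Fi Fo : ℂ → ℂ} (h : Flds z₀ b k x y u G Fi Fo) :
    IntegrableOn (fun z => conj (Fi z)) (De z₀ b x) := by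
  have : IsFiniteMeasure (volume.restrict (De z₀ b x)) := ⟨by
    rw [Measure.restrict_apply_univ]
    exact vol_De z₀ b x⟩
  have h1 : MemLp Fi 1 (volume.restrict (De z₀ b x)) := h.fi2.mono_exponent (by norm_num)
  have h2 : Integrable Fi (volume.restrict (De z₀ b x)) := memLp_one_iff_integrable.1 h1
  refine ⟨(Complex.continuous_conj.comp_aestronglyMeasurable h2.1), ?_⟩
  refine h2.2.congr' ?_
  filter_upwards with z
  rw [RCLike.norm_conj]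

/-- the transform of the inner field -/
theorem Flds.tr {z₀ b : ℂ} {k x y : ℝ} {u : ℂ → ℝ} {G Fi Fo : ℂ → ℂ} (h : Flds z₀ b k x y u G Fi Fo)
    {Ω : Set ℂ} (hΩ : De z₀ b y ⊆ Ω) (hΩo : IsOpen Ω) {s : ℂ} (hs : Real.exp x < ‖s‖) :
    ∑' n, ((k - 1 : ℝ) : ℂ) * mo z₀ b x Fi n * s⁻¹ ^ (n + 1) =
      b * (s - s⁻¹) * ∫ w in Ω, ((cond k (De z₀ b x) w - 1 : ℝ) : ℂ) * G w / (J z₀ b s - w) ^ 2 := by
  have h1 := (C1 h.hb h.hx.le h.int hs).tsum_eq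
  have hxy' : De z₀ b x ⊆ Ω := by
    intro z hz
    apply hΩ
    have h1 : lv z₀ b z < lx b x := hz
    have h2 : lx b x < lx b y := (lx_lt h.hb h.hx.le (by linarith [h.hx, h.hxy])).2 h.hxy
    exact h1.trans h2
  have h2 : ∫ w in Ω, ((cond k (De z₀ b x) w - 1 : ℝ) : ℂ) * G w / (J z₀ b s - w) ^ 2 =
      ((k - 1 : ℝ) : ℂ) * ∫ w in De z₀ b x, conj (Fi w) / (J z₀ b s - w) ^ 2 := by
    rw [← integral_const_mul]
    have e1 : ∫ w in Ω, ((cond k (De z₀ b x) w - 1 : ℝ) : ℂ) * G w / (J z₀ b s - w) ^ 2 =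
        ∫ w in De z₀ b x, ((cond k (De z₀ b x) w - 1 : ℝ) : ℂ) * G w / (J z₀ b s - w) ^ 2 := by
      refine setIntegral_eq_of_subset_of_forall_diff_eq_zero hΩo.measurableSet hxy' ?_
      intro w hw
      have : cond k (De z₀ b x) w = 1 := by
        unfold MD12.cond
        rw [Set.indicator_of_notMem hw.2, mul_zero, add_zero]
      rw [this]
      simp
    rw [e1]
    refine setIntegral_congr_ae (De_open z₀ b x).measurableSet ?_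
    have h3 := h.ei
    rw [ae_restrict_iff' (De_open z₀ b x).measurableSet] at h3
    filter_upwards [h3] with w hw hwD
    rw [hw hwD]
    have : cond k (De z₀ b x) w = k := by
      unfold MD12.cond
      rw [Set.indicator_of_mem hwD]
      ring
    rw [this]
    ring
  rw [h2]
  have h4 : ∑' n, ((k - 1 : ℝ) : ℂ) * mo z₀ b x Fi n * s⁻¹ ^ (n + 1) =
      ((k - 1 : ℝ) : ℂ) * ∑' n, mo z₀ b x Fi n * s⁻¹ ^ (n + 1) := by
    rw [← tsum_mul_left]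
    congr 1
    funext n
    ring
  rw [h4]
  unfold mo
  rw [h1]
  ring

/-- the moments decide -/
theorem Flds.zero {z₀ b : ℂ} {k x y : ℝ} {u : ℂ → ℝ} {G Fi Fo : ℂ → ℂ} (h : Flds z₀ b k x y u G Fi Fo)
    (hk1 : k ≠ 1) (h0 : ∀ n, ((k - 1 : ℝ) : ℂ) * mo z₀ b x Fi n = 0) :
    ∀ᵐ z ∂volume.restrict (De z₀ b x), G z = 0 := by
  have hne : ((k - 1 : ℝ) : ℂ) ≠ 0 := by
    exact_mod_cast sub_ne_zero.2 hk1
  have h1 := Dz h.hb h.hx h.di h.fi2 (fun n => by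
    have := h0 n
    unfold mo at this
    exact (mul_eq_zero.1 this).resolve_left hne)
  have h3 := h.ei
  rw [ae_restrict_iff' (De_open z₀ b x).measurableSet] at h3 ⊢
  filter_upwards [h3] with w hw hwD
  rw [hw hwD, h1 w hwD, map_zero]

theorem Flds.bd {z₀ b : ℂ} {k x y : ℝ} {u : ℂ → ℝ} {G Fi Fo : ℂ → ℂ} (h : Flds z₀ b k x y u G Fi Fo)
    (hy : 2 * x < y) : ∃ C θ : ℝ, 0 < θ ∧ θ < 1 ∧
      ∀ n : ℕ, ‖((k - 1 : ℝ) : ℂ) * mo z₀ b x Fi n‖ ≤ C * θ ^ n := by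
  obtain ⟨C, θ, h0, h1, h2⟩ := Dk h hy
  refine ⟨|k - 1| * C, θ, h0, h1, fun n => ?_⟩
  rw [norm_mul, Complex.norm_real, Real.norm_eq_abs, mul_assoc]
  exact mul_le_mul_of_nonneg_left (h2 n) (abs_nonneg _)

theorem De_nonempty {z₀ b : ℂ} (hb : b ≠ 0) {x : ℝ} (hx : 0 < x) : (De z₀ b x).Nonempty :=
  ⟨E z₀ b 0, (E_mem_De hb hx.le).2 (by simpa using hx)⟩

theorem De_meas_cond (k : ℝ) (z₀ b : ℂ) (x : ℝ) : Measurable (cond k (De z₀ b x)) :=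
  TSOB_cond_meas k (De_open z₀ b x).measurableSet

/-- large `z` has large `s` -/
theorem J_large {z₀ b s : ℂ} {R : ℝ} (hb : b ≠ 0) (hs : 1 < ‖s‖)
    (h : (R + ‖z₀‖) / ‖b‖ + 1 < ‖s‖) : R < ‖J z₀ b s‖ := by
  have hb' : 0 < ‖b‖ := norm_pos_iff.2 hb
  have h1 : ‖b * s‖ ≤ ‖J z₀ b s‖ + ‖z₀‖ + ‖b‖ := by
    have : b * s = J z₀ b s - z₀ - b * s⁻¹ := by
      unfold J
      ring
    rw [this]
    calc ‖J z₀ b s - z₀ - b * s⁻¹‖ ≤ ‖J z₀ b s - z₀‖ + ‖b * s⁻¹‖ := norm_sub_le _ _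
      _ ≤ ‖J z₀ b s‖ + ‖z₀‖ + ‖b‖ := by
        have e1 := norm_sub_le (J z₀ b s) z₀
        have e2 : ‖b * s⁻¹‖ ≤ ‖b‖ := by
          rw [norm_mul, norm_inv]
          have : ‖s‖⁻¹ ≤ 1 := inv_le_one_of_one_le₀ hs.le
          nlinarith
        linarith
  rw [norm_mul] at h1
  have h2 : ((R + ‖z₀‖) / ‖b‖ + 1) * ‖b‖ < ‖s‖ * ‖b‖ := mul_lt_mul_of_pos_right h hb'
  have h3 : ((R + ‖z₀‖) / ‖b‖ + 1) * ‖b‖ = R + ‖z₀‖ + ‖b‖ := by
    field_simp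
  linarith [mul_comm ‖b‖ ‖s‖]

theorem main1 {Ω : Set ℂ} (hΩo : IsOpen Ω) (hΩb : Bornology.IsBounded Ω) (hΩc : IsPreconnected Ω)
    (hσ : μH[1] (frontier Ω) < ⊤) {k : ℝ} (hk : 0 < k) (hk1 : k ≠ 1) {z₀ b : ℂ} (hb : b ≠ 0) {x : ℝ} (hx : 0 < x)
    (hD : {z | lv z₀ b z ≤ lx b (2 * x)} ⊆ Ω) {K : Set ℂ} (hK : IsCompact K) (hKΩ : K ⊆ Ω) {σ : ℂ → ℝ}
    (hm : Measurable σ) {M : ℝ} (hM : ∀ z, |σ z| ≤ M) (hσ1 : ∀ z, z ∉ K → σ z = 1)
    (htop : ∃ p ∈ Sg z₀ b, p ∉ K ∧ ∃ U : Set ℂ, IsOpen U ∧ IsPreconnected U ∧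
      Disjoint U K ∧ Disjoint U (Sg z₀ b) ∧ (∀ R : ℝ, ∃ z ∈ U, R < ‖z‖) ∧
      ∀ᶠ z in 𝓝 p, z ∉ Sg z₀ b → z ∈ U)
    {g u₁ u₂ : ℂ → ℝ} {G₁ G₂ : ℂ → ℂ} (hg : MemLp g 2 (μH[1].restrict (frontier Ω)))
    (h₁ : SolvesC Ω (cond k (De z₀ b x)) g u₁ G₁) (h₂ : SolvesC Ω σ g u₂ G₂)
    (ht : SameTrace Ω u₁ u₂ G₁ G₂) : g =ᵐ[μH[1].restrict (frontier Ω)] 0 := by
  obtain ⟨y, Fi, Fo, hy, hyΩ, hF⟩ := deep hΩo hk hb hx hD h₁
  obtain ⟨C, θ, hθ0, hθ1, hX⟩ := hF.bd hy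
  obtain ⟨R, hR⟩ := Me hΩo hΩb (De_meas_cond k z₀ b x) hm (M := max (1 + |k - 1|) M)
    (fun z => (TSOB_cond_bdd k (De z₀ b x) z).trans (le_max_left _ _))
    (fun z => (hM z).trans (le_max_right _ _)) h₁ h₂ ht
  have hGi : IntegrableOn (fun w => ((σ w - 1 : ℝ) : ℂ) * G₂ w) K := by
    have : IsFiniteMeasure (volume.restrict K) := ⟨by
      rw [Measure.restrict_apply_univ]
      exact hK.measure_lt_top⟩
    have h3 : MemLp G₂ 2 (volume.restrict K) := h₂.sob.memG.mono_measure (Measure.restrict_mono hKΩ le_rfl)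
    have h4 : Integrable G₂ (volume.restrict K) := memLp_one_iff_integrable.1 (h3.mono_exponent (by norm_num))
    refine h4.bdd_mul (c := M + 1) ?_ ?_
    · exact (Complex.continuous_ofReal.measurable.comp (hm.sub_const 1)).aestronglyMeasurable
    · refine Eventually.of_forall fun z => ?_
      rw [Complex.norm_real, Real.norm_eq_abs]
      calc |σ z - 1| ≤ |σ z| + |(1 : ℝ)| := abs_sub _ _
        _ ≤ M + 1 := by rw [abs_one]; linarith [hM z]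
  have hC2 := C2 hK hGi
  obtain ⟨p, hp, hpK, U, hUo, hUc, hUK, hUS, hUi, hpU⟩ := htop
  have hall := Ev hb hθ0 hθ1 hX hK hC2 (R := max (Real.exp x) (max 1 ((R + ‖z₀‖) / ‖b‖ + 1))) (fun s hs => by
    have hs1 : Real.exp x < ‖s‖ := (le_max_left _ _).trans_lt hs
    have hs2 : 1 < ‖s‖ := ((le_max_left _ _).trans (le_max_right _ _)).trans_lt hs
    have hs3 : (R + ‖z₀‖) / ‖b‖ + 1 < ‖s‖ := ((le_max_right _ _).trans (le_max_right _ _)).trans_lt hs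
    rw [hF.tr hyΩ hΩo hs1, hR _ (J_large hb hs2 hs3)]
    congr 1
    refine setIntegral_eq_of_subset_of_forall_diff_eq_zero hΩo.measurableSet hKΩ ?_
    intro w hw
    rw [hσ1 w hw.2]
    simp) hUo hUc hUK hUS hUi hp hpK hpU
  have hxΩ : De z₀ b x ⊆ Ω := by
    intro z hz
    apply hyΩ
    have h1 : lv z₀ b z < lx b x := hz
    have h2 : lx b x < lx b y := (lx_lt hb hx.le (by linarith)).2 (by linarith)
    exact h1.trans h2
  exact Fg hΩo hΩb hΩc hσ (De_open z₀ b x) (De_nonempty hb hx) hxΩ hg h₁ (hF.zero hk1 hall)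

end ED1
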