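import Pool.Agent.H1.ED.D0

/-!
ROW Tp. Topology for a convex compact `K` which does not contain the focus `f = z₀ + 2b` (or `z₀ - 2b`: replace `b` by `-b`, `Sg z₀ (-b) = Sg z₀ b` by `segment_symm`).
Take `p = f`. `geometric_hahn_banach_point_compact`/`..._closed`: a continuous real linear `ℓ` and `u` with `ℓ f < u < ℓ a` for `a ∈ K`; `H = {ℓ < u}` open half plane, `f ∈ H`, `H ∩ K = ∅`.
`q z = (z - z₀)/b`; the segment is `{Im q = 0, |Re q| ≤ 2}`. `U = (H ∩ {Im q > 0}) ∪ (H ∩ {Im q < 0}) ∪ (H ∩ {Re q > 2})`: three open convex sets, the third one meets the other two near `f`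
(points `f + b (ε ± iε)`, `ε` small): `U` preconnected (`IsPreconnected.union`). Disjoint from `K` and from the segment. Unbounded: pick a vector `v ≠ 0` with `ℓ v ≤ 0` and `v` or `-v`... : among
`v` with `ℓ v ≤ 0` (a closed half plane) take one with `Im (v/b) ≠ 0` (`ℓ ≠ 0`; if `v` has `ℓ v < 0` and `Im (v/b) = 0` perturb it; or use `v = ± b I`: one of `ℓ (b I) ≤ 0`, `ℓ (-(b I)) ≤ 0` holds);
the points `f + b (ε + iε) + t v` resp. `f + b(ε - iε) + t v`, `t → ∞`, are in `U`. Near `f`: `z ∉ Sg`, `z` near `f`: `Im q ≠ 0`, or `Im q = 0` and then `Re q > 2`.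
-/

set_option autoImplicit false

namespace ED1

open Complex Set Filter Topology MeasureTheory
open scoped ComplexConjugate ContDiff Real

private lemma Tp_seg {z₀ b : ℂ} (hb : b ≠ 0) (z : ℂ) :
    z ∈ Sg z₀ b ↔ (b⁻¹ * z).im = (b⁻¹ * z₀).im ∧ (b⁻¹ * z₀).re - 2 ≤ (b⁻¹ * z).re ∧
      (b⁻¹ * z).re ≤ (b⁻¹ * z₀).re + 2 := by
  constructor
  · intro h
    unfold Sg at h
    rw [segment_eq_image] at h
    obtain ⟨t, ⟨h0, h1⟩, rfl⟩ := h
    have he : b⁻¹ * ((1 - t) • (z₀ - 2 * b) + t • (z₀ + 2 * b)) = b⁻¹ * z₀ + ((4 * t - 2 : ℝ) : ℂ) := by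
      rw [real_smul, real_smul]
      push_cast
      field_simp
      ring
    rw [he, add_im, add_re, ofReal_im, ofReal_re]
    refine ⟨by ring, by linarith, by linarith⟩
  · rintro ⟨h0, h1, h2⟩
    unfold Sg
    rw [segment_eq_image]
    refine ⟨((b⁻¹ * z).re - (b⁻¹ * z₀).re + 2) / 4, ⟨by linarith, by linarith⟩, ?_⟩
    have he : b⁻¹ * z = b⁻¹ * z₀ + (((b⁻¹ * z).re - (b⁻¹ * z₀).re : ℝ) : ℂ) := by
      apply Complex.ext
      · rw [add_re, ofReal_re]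
        ring
      · rw [add_im, ofReal_im, h0]
        ring
    have hz : z = z₀ + b * (((b⁻¹ * z).re - (b⁻¹ * z₀).re : ℝ) : ℂ) := by
      have h3 : z = b * (b⁻¹ * z) := by
        rw [← mul_assoc, mul_inv_cancel₀ hb, one_mul]
      conv_lhs => rw [h3, he]
      rw [mul_add, ← mul_assoc, mul_inv_cancel₀ hb, one_mul]
    simp only [real_smul]
    conv_rhs => rw [hz]
    push_cast
    ring

private lemma Tp_one {z₀ b : ℂ} (hb : b ≠ 0) {K : Set ℂ} (hK : IsCompact K) (hKc : Convex ℝ K)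
    (hf : z₀ + 2 * b ∉ K) : ∃ p ∈ Sg z₀ b, p ∉ K ∧ ∃ U : Set ℂ, IsOpen U ∧ IsPreconnected U ∧
      Disjoint U K ∧ Disjoint U (Sg z₀ b) ∧ (∀ R : ℝ, ∃ z ∈ U, R < ‖z‖) ∧
      ∀ᶠ z in 𝓝 p, z ∉ Sg z₀ b → z ∈ U := by
  obtain ⟨ℓ, u, hℓf, hℓK⟩ := geometric_hahn_banach_point_closed hKc hK.isClosed hf
  refine ⟨z₀ + 2 * b, right_mem_segment ℝ _ _, hf, ?_⟩
  have hcφ : Continuous fun z : ℂ => (b⁻¹ * z).im := by fun_prop
  have hcψ : Continuous fun z : ℂ => (b⁻¹ * z).re := by fun_prop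
  have hlφ : IsLinearMap ℝ fun z : ℂ => (b⁻¹ * z).im := by
    refine ⟨fun x y => ?_, fun c x => ?_⟩
    · simp only [mul_add, add_im]
    · rw [real_smul, mul_left_comm, im_ofReal_mul, smul_eq_mul]
  have hlψ : IsLinearMap ℝ fun z : ℂ => (b⁻¹ * z).re := by
    refine ⟨fun x y => ?_, fun c x => ?_⟩
    · simp only [mul_add, add_re]
    · rw [real_smul, mul_left_comm, re_ofReal_mul, smul_eq_mul]
  have hlℓ : IsLinearMap ℝ fun z : ℂ => ℓ z := ⟨fun x y => map_add ℓ x y, fun c x => map_smul ℓ c x⟩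
  set H : Set ℂ := {z | ℓ z < u} with hH
  set A : Set ℂ := {z | (b⁻¹ * z₀).im < (b⁻¹ * z).im} with hA
  set B : Set ℂ := {z | (b⁻¹ * z).im < (b⁻¹ * z₀).im} with hB
  set C : Set ℂ := {z | (b⁻¹ * z₀).re + 2 < (b⁻¹ * z).re} with hC
  have oH : IsOpen H := isOpen_lt ℓ.continuous continuous_const
  have oA : IsOpen A := isOpen_lt continuous_const hcφ
  have oB : IsOpen B := isOpen_lt hcφ continuous_const
  have oC : IsOpen C := isOpen_lt continuous_const hcψ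
  have cH : Convex ℝ H := convex_halfSpace_lt hlℓ u
  have cA : Convex ℝ A := convex_halfSpace_gt hlφ _
  have cB : Convex ℝ B := convex_halfSpace_lt hlφ _
  have cC : Convex ℝ C := convex_halfSpace_gt hlψ _
  have hsmall : ∀ v : ℂ, ∃ ε : ℝ, 0 < ε ∧ z₀ + 2 * b + ε * v ∈ H := by
    intro v
    have h1 : 0 < |ℓ v| + 1 := by positivity
    refine ⟨(u - ℓ (z₀ + 2 * b)) / (|ℓ v| + 1), div_pos (by linarith) h1, ?_⟩
    rw [hH, mem_ofPred_eq, map_add, ← real_smul, map_smul, smul_eq_mul]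
    have h2 : (u - ℓ (z₀ + 2 * b)) / (|ℓ v| + 1) * ℓ v < u - ℓ (z₀ + 2 * b) := by
      rw [div_mul_eq_mul_div, div_lt_iff₀ h1]
      have h3 : ℓ v < |ℓ v| + 1 := by linarith [le_abs_self (ℓ v)]
      exact mul_lt_mul_of_pos_left h3 (by linarith)
    linarith
  have hbb : b⁻¹ * b = 1 := inv_mul_cancel₀ hb
  have hval : ∀ v : ℂ, ∀ ε : ℝ, b⁻¹ * (z₀ + 2 * b + ε * (b * v)) = b⁻¹ * z₀ + 2 + ε * v := by
    intro v ε
    have : b⁻¹ * (z₀ + 2 * b + ε * (b * v)) = b⁻¹ * z₀ + 2 * (b⁻¹ * b) + ε * ((b⁻¹ * b) * v) := by ring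
    rw [this, hbb]
    ring
  have hAC : ((H ∩ A) ∩ (H ∩ C)).Nonempty := by
    obtain ⟨ε, h0, h1⟩ := hsmall (b * (1 + I))
    refine ⟨_, ⟨h1, ?_⟩, h1, ?_⟩
    · rw [hA, mem_ofPred_eq, hval]
      simp
      exact h0
    · rw [hC, mem_ofPred_eq, hval]
      simp
      exact h0
  have hBC : ((H ∩ B) ∩ (H ∩ C)).Nonempty := by
    obtain ⟨ε, h0, h1⟩ := hsmall (b * (1 - I))
    refine ⟨_, ⟨h1, ?_⟩, h1, ?_⟩
    · rw [hB, mem_ofPred_eq, hval]
      simp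
      exact h0
    · rw [hC, mem_ofPred_eq, hval]
      simp
      exact h0
  refine ⟨(H ∩ A) ∪ (H ∩ C) ∪ (H ∩ B), ?_, ?_, ?_, ?_, ?_, ?_⟩
  · exact ((oH.inter oA).union (oH.inter oC)).union (oH.inter oB)
  · obtain ⟨x, hx1, hx2⟩ := hAC
    obtain ⟨y, hy1, hy2⟩ := hBC
    have h1 : IsPreconnected ((H ∩ A) ∪ (H ∩ C)) :=
      IsPreconnected.union x hx1 hx2 (cH.inter cA).isPreconnected (cH.inter cC).isPreconnected
    exact IsPreconnected.union y (Or.inr hy2) hy1 h1 (cH.inter cB).isPreconnected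
  · rw [Set.disjoint_left]
    intro z hz hzK
    have h1 : ℓ z < u := by
      rcases hz with (h | h) | h
      · exact h.1
      · exact h.1
      · exact h.1
    exact lt_asymm h1 (hℓK z hzK)
  · rw [Set.disjoint_left]
    intro z hz hzS
    obtain ⟨h0, h1, h2⟩ := (Tp_seg hb z).1 hzS
    rcases hz with (h | h) | h
    · exact absurd h.2 (by rw [hA, mem_ofPred_eq, h0]; exact lt_irrefl _)
    · exact absurd h.2 (by rw [hC, mem_ofPred_eq]; exact not_lt.2 h2)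
    · exact absurd h.2 (by rw [hB, mem_ofPred_eq, h0]; exact lt_irrefl _)
  · intro R
    have hbn : 0 < ‖b‖ := norm_pos_iff.2 hb
    obtain ⟨t, ht0, ht⟩ : ∃ t : ℝ, 0 < t ∧ R + ‖z₀ + 2 * b‖ < t * ‖b‖ := by
      refine ⟨(|R| + ‖z₀ + 2 * b‖ + 1) / ‖b‖, by positivity, ?_⟩
      rw [div_mul_cancel₀ _ hbn.ne']
      linarith [le_abs_self R]
    have hnorm : ∀ v : ℂ, ‖v‖ = 1 → R < ‖z₀ + 2 * b + t * (b * v)‖ := by
      intro v hv
      have h1 : ‖(t : ℂ) * (b * v)‖ = t * ‖b‖ := by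
        rw [norm_mul, norm_mul, hv, mul_one, norm_real, Real.norm_of_nonneg ht0.le]
      have h2 : ‖(t : ℂ) * (b * v)‖ ≤ ‖z₀ + 2 * b + t * (b * v)‖ + ‖z₀ + 2 * b‖ := by
        calc ‖(t : ℂ) * (b * v)‖ = ‖(z₀ + 2 * b + t * (b * v)) - (z₀ + 2 * b)‖ := by
              congr 1
              ring
          _ ≤ _ := norm_sub_le _ _
      linarith
    have hHt : ∀ v : ℂ, ℓ v ≤ 0 → z₀ + 2 * b + t * v ∈ H := by
      intro v hv
      rw [hH, mem_ofPred_eq, map_add, ← real_smul, map_smul, smul_eq_mul]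
      have := mul_nonpos_of_nonneg_of_nonpos ht0.le hv
      linarith
    by_cases hs : ℓ (b * I) ≤ 0
    · refine ⟨z₀ + 2 * b + t * (b * I), Or.inl (Or.inl ⟨hHt _ hs, ?_⟩), hnorm I norm_I⟩
      rw [hA, mem_ofPred_eq, hval]
      simp
      exact ht0
    · have hs' : ℓ (b * (-I)) ≤ 0 := by
        rw [mul_neg, map_neg]
        linarith [not_le.1 hs]
      refine ⟨z₀ + 2 * b + t * (b * (-I)), Or.inr ⟨hHt _ hs', ?_⟩, hnorm (-I) (by rw [norm_neg, norm_I])⟩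
      rw [hB, mem_ofPred_eq, hval]
      simp
      exact ht0
  · have h1 : ∀ᶠ z in 𝓝 (z₀ + 2 * b), z ∈ H := oH.mem_nhds hℓf
    have h2 : ∀ᶠ z in 𝓝 (z₀ + 2 * b), (b⁻¹ * z₀).re - 2 < (b⁻¹ * z).re := by
      have ho : IsOpen {z : ℂ | (b⁻¹ * z₀).re - 2 < (b⁻¹ * z).re} := isOpen_lt continuous_const hcψ
      refine ho.mem_nhds ?_
      rw [mem_ofPred_eq]
      have := hval 0 0
      rw [mul_zero, mul_zero, add_zero, add_zero] at this
      rw [this, add_re]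
      norm_num
      linarith
    filter_upwards [h1, h2] with z hz1 hz2 hzS
    rw [Tp_seg hb z] at hzS
    rcases lt_trichotomy (b⁻¹ * z).im (b⁻¹ * z₀).im with h | h | h
    · exact Or.inr ⟨hz1, h⟩
    · refine Or.inl (Or.inr ⟨hz1, ?_⟩)
      rw [hC, mem_ofPred_eq]
      by_contra hcon
      exact hzS ⟨h, hz2.le, not_lt.1 hcon⟩
    · exact Or.inl (Or.inl ⟨hz1, h⟩)

theorem Tp {z₀ b : ℂ} (hb : b ≠ 0) {K : Set ℂ} (hK : IsCompact K) (hKc : Convex ℝ K)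
    (hf : z₀ + 2 * b ∉ K ∨ z₀ - 2 * b ∉ K) : ∃ p ∈ Sg z₀ b, p ∉ K ∧ ∃ U : Set ℂ, IsOpen U ∧ IsPreconnected U ∧
      Disjoint U K ∧ Disjoint U (Sg z₀ b) ∧ (∀ R : ℝ, ∃ z ∈ U, R < ‖z‖) ∧
      ∀ᶠ z in 𝓝 p, z ∉ Sg z₀ b → z ∈ U := by
  rcases hf with hf | hf
  · exact Tp_one hb hK hKc hf
  · have hS : Sg z₀ (-b) = Sg z₀ b := by
      unfold Sg
      rw [segment_symm, mul_neg, sub_neg_eq_add, ← sub_eq_add_neg]
    have h := Tp_one (z₀ := z₀) (neg_ne_zero.2 hb) hK hKc (by rwa [mul_neg, ← sub_eq_add_neg])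
    rwa [hS] at h

end ED1
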