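import Pool.Agent.H1.ED.P0

/-!
ROW Zx. Two solutions with the same Cauchy data agree outside the supports. As `zex` in `MDM/H.lean` (copy the proof, `cond k (uni s)` replaced by `σ`; `zex_sob`, then `Loc W 1 ∅`, `whar_of_loc`, `weyl`,
`har_ident` from the exterior of `Ω`): `u₁ = u₂` a.e. on `W ∩ Ω`; then `grad_unique` on the open set `W ∩ Ω` (`Sob.mono`).
-/

set_option autoImplicit false

namespace ED1

open Complex Set Filter Topology MeasureTheory MD12
open scoped ComplexConjugate ContDiff Real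

private theorem Zx_fd {Ω W : Set ℂ} (hΩo : IsOpen Ω) {σ : ℂ → ℝ} {g u : ℂ → ℝ}
    {G : ℂ → ℂ} (h : SolvesC Ω σ g u G)
    (hW : ∀ z ∈ W, σ z = 1) {φ : ℂ → ℝ} (hφ : IsTest φ)
    (hφW : tsupport φ ⊆ W) :
    Integrable (fun z => fderiv ℝ φ z (G z)) (volume.restrict Ω) ∧
      ∫ z in Ω, fderiv ℝ φ z (G z) = ∫ z in frontier Ω, g z * φ z ∂μH[1] := by
  constructor
  · have h1 := pdb_int (pdb_inner h.sob.memG 1) (hφ.fd 1).1
    have h2 := pdb_int (pdb_inner h.sob.memG I) (hφ.fd I).1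
    refine (h1.add h2).congr (Eventually.of_forall fun z => ?_)
    exact (fd_eq φ z (G z)).symm
  · rw [← h.eq φ hφ]
    refine setIntegral_congr_fun hΩo.measurableSet fun z _ => ?_
    by_cases hz : z ∈ tsupport φ
    · simp only [hW z (hφW hz), one_mul]
    · simp only [pdb_fd0 hz, mul_zero]

theorem Zx {Ω : Set ℂ} (hΩo : IsOpen Ω) (hΩb : Bornology.IsBounded Ω) {σ₁ σ₂ : ℂ → ℝ}
    {g u₁ u₂ : ℂ → ℝ} {G₁ G₂ : ℂ → ℂ} (h₁ : SolvesC Ω σ₁ g u₁ G₁) (h₂ : SolvesC Ω σ₂ g u₂ G₂)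
    (ht : SameTrace Ω u₁ u₂ G₁ G₂) {W : Set ℂ} (hWo : IsOpen W) (hWc : IsPreconnected W)
    (hWK : Ωᶜ ⊆ W) (hW₁ : ∀ z ∈ W, σ₁ z = 1) (hW₂ : ∀ z ∈ W, σ₂ z = 1) :
    ∀ᵐ z ∂volume.restrict (W ∩ Ω), G₁ z = G₂ z := by
  have hS := zex_sob hΩo h₁.sob h₂.sob ht
  have hSW : Sob W (Ω.indicator fun z => u₁ z - u₂ z) (Ω.indicator fun z => G₁ z - G₂ z) :=
    hS.mono isOpen_univ hWo (subset_univ W)
  have hL : Loc W 1 ∅ (Ω.indicator fun z => G₁ z - G₂ z) := by
    intro φ hφ hφW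
    obtain ⟨i1, e1⟩ := Zx_fd hΩo h₁ hW₁ hφ hφW
    obtain ⟨i2, e2⟩ := Zx_fd hΩo h₂ hW₂ hφ hφW
    have e3 : ∫ z in W, MD12.cond 1 ∅ z * fderiv ℝ φ z ((Ω.indicator fun z => G₁ z - G₂ z) z) =
        ∫ z in Ω, fderiv ℝ φ z (G₁ z - G₂ z) := by
      rw [pdb_sub isOpen_univ (subset_univ W) (fun z hz => by
        rw [pdb_fd0 (fun h' => hz (hφW h')), mul_zero]), setIntegral_univ,
        ← integral_indicator hΩo.measurableSet]
      refine integral_congr_ae (Eventually.of_forall fun z => ?_)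
      unfold MD12.cond
      by_cases hz : z ∈ Ω
      · simp only [Set.indicator_of_mem hz, sub_self, zero_mul, add_zero, one_mul]
      · simp only [Set.indicator_of_notMem hz, sub_self, zero_mul, add_zero, one_mul, map_zero]
    rw [e3]
    have e4 : ∫ z in Ω, fderiv ℝ φ z (G₁ z - G₂ z) =
        (∫ z in Ω, fderiv ℝ φ z (G₁ z)) - ∫ z in Ω, fderiv ℝ φ z (G₂ z) := by
      rw [← integral_sub i1 i2]
      simp only [map_sub]
    rw [e4, e1, e2, sub_self]
  have hw : WHar W (Ω.indicator fun z => u₁ z - u₂ z) :=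
    whar_of_loc hWo hSW one_pos hL (Or.inl (Set.empty_disjoint W))
  have hli : LocallyIntegrableOn (Ω.indicator fun z => u₁ z - u₂ z) W volume :=
    locallyIntegrableOn_of_locallyIntegrable_restrict
      (hSW.memu.locallyIntegrable (by norm_num))
  obtain ⟨U, hU, hUw⟩ := weyl hWo hli hw
  -- the exterior of `Ω`
  have hN0 : IsOpen (closure Ω)ᶜ := isClosed_closure.isOpen_compl
  have hN0W : (closure Ω)ᶜ ⊆ W := (compl_subset_compl.2 subset_closure).trans hWK
  obtain ⟨x, hx⟩ : ((closure Ω)ᶜ).Nonempty := by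
    obtain ⟨R, hR⟩ := hΩb.closure.subset_closedBall (0 : ℂ)
    refine ⟨((|R| + 1 : ℝ) : ℂ), fun hx => ?_⟩
    have h3 := mem_closedBall_zero_iff.1 (hR hx)
    rw [Complex.norm_real, Real.norm_eq_abs, abs_of_pos (by positivity)] at h3
    linarith [le_abs_self R]
  have hU0 : ∀ z ∈ (closure Ω)ᶜ, U z = 0 := by
    refine eq_of_ae hN0 (fun z hz => har_continuousAt (hU z (hN0W hz)))
      (fun z _ => continuousAt_const) ?_
    have h3 := ae_restrict_of_ae_restrict_of_subset hN0W hUw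
    filter_upwards [h3, ae_restrict_mem hN0.measurableSet] with z h4 h5
    rw [h4, Set.indicator_of_notMem (fun h6 => h5 (subset_closure h6))]
  have hxU : U =ᶠ[𝓝 x] fun _ => (0 : ℝ) := by
    filter_upwards [hN0.mem_nhds hx] with z hz
    exact hU0 z hz
  have hUW := har_ident hWc hU (fun z _ => har_const 0 z) (hN0W hx) hxU
  have hu : ∀ᵐ z ∂volume.restrict (W ∩ Ω), u₁ z = u₂ z := by
    have h3 := ae_restrict_of_ae_restrict_of_subset (Set.inter_subset_left (s := W) (t := Ω)) hUw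
    filter_upwards [h3, ae_restrict_mem (hWo.inter hΩo).measurableSet] with z h4 h5
    have h6 : U z = 0 := (hUW z h5.1).self_of_nhds
    rw [h6, Set.indicator_of_mem h5.2] at h4
    linarith
  exact grad_unique (hWo.inter hΩo)
    (h₁.sob.mono hΩo (hWo.inter hΩo) Set.inter_subset_right)
    (h₂.sob.mono hΩo (hWo.inter hΩo) Set.inter_subset_right) hu

end ED1
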