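import Pool.Agent.H1.ED.T1
import Pool.Agent.H1.ED.Cc
import Pool.Agent.H1.ED.Zx
import Pool.Agent.H1.ED.Tp
import Pool.Agent.H1.ED.Sq

/-!
# Assembly: the second theorem
-/

set_option autoImplicit false

namespace ED1

open Complex Set Filter Topology MeasureTheory MD12
open scoped ComplexConjugate ContDiff Real

theorem trace_symm {Ω : Set ℂ} {u₁ u₂ : ℂ → ℝ} {G₁ G₂ : ℂ → ℂ} (h : SameTrace Ω u₁ u₂ G₁ G₂) :
    SameTrace Ω u₂ u₁ G₂ G₁ := by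
  intro φ hφ v
  have h1 := h φ hφ v
  have e1 : ∫ z in Ω, (u₂ z - u₁ z) * fderiv ℝ φ z v = -∫ z in Ω, (u₁ z - u₂ z) * fderiv ℝ φ z v := by
    rw [← integral_neg]
    congr 1
    funext z
    ring
  have e2 : ∫ z in Ω, (inner ℝ (G₂ z - G₁ z) v : ℝ) * φ z = -∫ z in Ω, (inner ℝ (G₁ z - G₂ z) v : ℝ) * φ z := by
    rw [← integral_neg]
    congr 1
    funext z
    rw [← neg_sub, inner_neg_left]
    ring
  rw [e1, h1, e2]

/-- a focus of the first ellipse is outside the focal segment of the second one -/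
theorem main2a {Ω : Set ℂ} (hΩo : IsOpen Ω) (hΩb : Bornology.IsBounded Ω) (hΩc : IsPreconnected Ω)
    (hσ : μH[1] (frontier Ω) < ⊤) {k k' : ℝ} (hk : 0 < k) (hk1 : k ≠ 1) (hk' : 0 < k') {z₀ b : ℂ} (hb : b ≠ 0) {x : ℝ} (hx : 0 < x)
    (hD : {z | lv z₀ b z ≤ lx b (2 * x)} ⊆ Ω) {z₁ c : ℂ} (hc : c ≠ 0) {x' : ℝ} (hx' : 0 < x')
    (hD' : {z | lv z₁ c z ≤ lx c (2 * x')} ⊆ Ω)
    (hf : z₀ + 2 * b ∉ Sg z₁ c ∨ z₀ - 2 * b ∉ Sg z₁ c)
    {g u₁ u₂ : ℂ → ℝ} {G₁ G₂ : ℂ → ℂ} (hg : MemLp g 2 (μH[1].restrict (frontier Ω)))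
    (h₁ : SolvesC Ω (cond k (De z₀ b x)) g u₁ G₁) (h₂ : SolvesC Ω (cond k' (De z₁ c x')) g u₂ G₂)
    (ht : SameTrace Ω u₁ u₂ G₁ G₂) : g =ᵐ[μH[1].restrict (frontier Ω)] 0 := by
  obtain ⟨y, Fi, Fo, hy, hyΩ, hF⟩ := deep hΩo hk hb hx hD h₁
  obtain ⟨y', Fi', Fo', hy', hyΩ', hF'⟩ := deep hΩo hk' hc hx' hD' h₂
  obtain ⟨C, θ, hθ0, hθ1, hX⟩ := hF.bd hy
  obtain ⟨C', θ', hθ0', hθ1', hX'⟩ := hF'.bd hy'
  obtain ⟨R, hR⟩ := Me hΩo hΩb (De_meas_cond k z₀ b x) (De_meas_cond k' z₁ c x')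
    (M := max (1 + |k - 1|) (1 + |k' - 1|)) (fun z => (TSOB_cond_bdd k (De z₀ b x) z).trans (le_max_left _ _))
    (fun z => (TSOB_cond_bdd k' (De z₁ c x') z).trans (le_max_right _ _)) h₁ h₂ ht
  obtain ⟨C₂, hC₂, hC₂'⟩ := Cc (z₀ := z₁) hc hθ0' hθ1' hX'
  have hK : IsCompact (Sg z₁ c) := by
    unfold Sg
    rw [segment_eq_image]
    exact isCompact_Icc.image (by fun_prop)
  have hKc : Convex ℝ (Sg z₁ c) := convex_segment _ _
  obtain ⟨p, hp, hpK, U, hUo, hUc, hUK, hUS, hUi, hpU⟩ := Tp hb hK hKc hf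
  obtain ⟨S, hS, _⟩ := exists_S z₁ hc
  have hseg : ∃ B, ∀ z ∈ Sg z₁ c, ‖z‖ ≤ B := hK.isBounded.exists_norm_le
  obtain ⟨B, hB⟩ := hseg
  -- large `z` has large `S z`
  have hSl : ∀ z, ‖c‖ * (Real.exp x' + 1) + ‖z₁‖ < ‖z‖ → z ∉ Sg z₁ c → Real.exp x' < ‖S z‖ := by
    intro z hz hzS
    obtain ⟨e1, e2, _⟩ := hS z hzS
    have hc' : 0 < ‖c‖ := norm_pos_iff.2 hc
    have h3 : ‖z‖ ≤ ‖z₁‖ + ‖c‖ * (‖S z‖ + 1) := by
      calc ‖z‖ = ‖z₁ + c * (S z + (S z)⁻¹)‖ := by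
            conv_lhs => rw [← e2]
            rfl
        _ ≤ ‖z₁‖ + ‖c * (S z + (S z)⁻¹)‖ := norm_add_le _ _
        _ ≤ ‖z₁‖ + ‖c‖ * (‖S z‖ + 1) := by
          rw [norm_mul]
          have h4 : ‖S z + (S z)⁻¹‖ ≤ ‖S z‖ + 1 := by
            refine (norm_add_le _ _).trans ?_
            rw [norm_inv]
            have : ‖S z‖⁻¹ ≤ 1 := inv_le_one_of_one_le₀ e1.le
            linarith
          have := mul_le_mul_of_nonneg_left h4 hc'.le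
          linarith
    have h5 : ‖c‖ * (Real.exp x' + 1) < ‖c‖ * (‖S z‖ + 1) := by linarith
    have h6 := lt_of_mul_lt_mul_left h5 hc'.le
    linarith
  have hall := Ev hb hθ0 hθ1 hX hK hC₂
    (R := max (max (Real.exp x) 1) (max ((R + ‖z₀‖) / ‖b‖ + 1)
      (max ((B + ‖z₀‖) / ‖b‖ + 1) ((‖c‖ * (Real.exp x' + 1) + ‖z₁‖ + ‖z₀‖) / ‖b‖ + 1)))) (fun s hs => by
    have hs1 : Real.exp x < ‖s‖ := ((le_max_left _ _).trans (le_max_left _ _)).trans_lt hs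
    have hs2 : 1 < ‖s‖ := ((le_max_right _ _).trans (le_max_left _ _)).trans_lt hs
    have hs3 : (R + ‖z₀‖) / ‖b‖ + 1 < ‖s‖ := ((le_max_left _ _).trans (le_max_right _ _)).trans_lt hs
    have hs4 : (B + ‖z₀‖) / ‖b‖ + 1 < ‖s‖ :=
      ((le_max_left _ _).trans ((le_max_right _ _).trans (le_max_right _ _))).trans_lt hs
    have hs5 : (‖c‖ * (Real.exp x' + 1) + ‖z₁‖ + ‖z₀‖) / ‖b‖ + 1 < ‖s‖ :=
      ((le_max_right _ _).trans ((le_max_right _ _).trans (le_max_right _ _))).trans_lt hs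
    have hz : J z₀ b s ∉ Sg z₁ c := fun h => absurd (hB _ h) (not_le.2 (J_large hb hs2 hs4))
    have hzl := hSl (J z₀ b s) (J_large hb hs2 hs5) hz
    obtain ⟨e1, e2, _⟩ := hS _ hz
    rw [hF.tr hyΩ hΩo hs1, hR _ (J_large hb hs2 hs3)]
    congr 1
    have h6 := hF'.tr hyΩ' hΩo hzl
    rw [hC₂' _ e1, e2] at h6
    have hne : c * (S (J z₀ b s) - (S (J z₀ b s))⁻¹) ≠ 0 := by
      refine mul_ne_zero hc (sub_ne_zero.2 fun h => ?_)
      have h7 : ‖S (J z₀ b s)‖ = ‖S (J z₀ b s)‖⁻¹ := by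
        conv_lhs => rw [h]
        rw [norm_inv]
      have h8 : ‖S (J z₀ b s)‖⁻¹ < 1 := inv_lt_one_of_one_lt₀ e1
      linarith
    exact (mul_left_cancel₀ hne h6).symm) hUo hUc hUK hUS hUi hp hpK hpU
  have hxΩ : De z₀ b x ⊆ Ω := by
    intro z hz
    apply hyΩ
    have h1 : lv z₀ b z < lx b x := hz
    have h2 : lx b x < lx b y := (lx_lt hb hx.le (by linarith)).2 (by linarith)
    exact h1.trans h2
  exact Fg hΩo hΩb hΩc hσ (De_open z₀ b x) (De_nonempty hb hx) hxΩ hg h₁ (hF.zero hk1 hall)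

/-- confocal ellipses -/
theorem main2b {Ω : Set ℂ} (hΩo : IsOpen Ω) (hΩb : Bornology.IsBounded Ω) (hΩc : IsPreconnected Ω)
    (hσ : μH[1] (frontier Ω) < ⊤) {k : ℝ} (hk : 0 < k) (hk1 : k ≠ 1) {z₀ b : ℂ} (hb : b ≠ 0) {x : ℝ} (hx : 0 < x)
    {x' : ℝ} (hxx : x < x') (hD' : {z | lv z₀ b z ≤ lx b (2 * x')} ⊆ Ω)
    {g u₁ u₂ : ℂ → ℝ} {G₁ G₂ : ℂ → ℂ} (hg : MemLp g 2 (μH[1].restrict (frontier Ω)))
    (h₁ : SolvesC Ω (cond k (De z₀ b x)) g u₁ G₁) (h₂ : SolvesC Ω (cond k (De z₀ b x')) g u₂ G₂)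
    (ht : SameTrace Ω u₁ u₂ G₁ G₂) : g =ᵐ[μH[1].restrict (frontier Ω)] 0 := by
  have hx' : 0 < x' := hx.trans hxx
  obtain ⟨y, hy, hyΩ⟩ := Dd hb (by linarith : (0 : ℝ) ≤ 2 * x') hΩo hD'
  obtain ⟨Fi, Fo, hF⟩ := deep' hΩo hk hb hx (by linarith) hyΩ h₁
  obtain ⟨Fi', Fo', hF'⟩ := deep' hΩo hk hb hx' (by linarith) hyΩ h₂
  have hWo : IsOpen {z | lx b x' < lv z₀ b z} := by
    refine isOpen_lt continuous_const ?_
    unfold lv
    fun_prop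
  have hcW : ∀ z ∈ {z | lx b x' < lv z₀ b z}, ∀ t, t ≤ x' → 0 < t → MD12.cond k (De z₀ b t) z = 1 := by
    intro z hz t ht1 ht0
    unfold MD12.cond
    rw [Set.indicator_of_notMem, mul_zero, add_zero]
    intro h
    have h1 : lv z₀ b z < lx b t := h
    have h2 : lx b t ≤ lx b x' := by
      rcases ht1.eq_or_lt with h3 | h3
      · rw [h3]
      · exact ((lx_lt hb ht0.le hx'.le).2 h3).le
    have h3 : lx b x' < lv z₀ b z := hz
    linarith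
  have hWK : Ωᶜ ⊆ {z | lx b x' < lv z₀ b z} := by
    intro z hz
    by_contra h
    have h1 : lv z₀ b z ≤ lx b x' := not_lt.1 h
    have h2 : lx b x' < lx b (2 * x') := (lx_lt hb hx'.le (by linarith)).2 (by linarith)
    exact hz (hD' (h1.trans h2.le))
  have hGG := Zx hΩo hΩb h₁ h₂ ht hWo (out_preconn hb hx'.le) hWK
    (fun z hz => hcW z hz x hxx.le hx) (fun z hz => hcW z hz x' le_rfl hx')
  have hAo : IsOpen (An z₀ b x' y) := An_open z₀ b x' y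
  have hAs : An z₀ b x' y ⊆ An z₀ b x y := fun z hz =>
    ⟨((lx_lt hb hx.le hx'.le).2 hxx).trans hz.1, hz.2⟩
  have hAW : An z₀ b x' y ⊆ {z | lx b x' < lv z₀ b z} ∩ Ω := fun z hz => ⟨hz.1, hyΩ hz.2⟩
  -- the outer fields agree
  have hFF : ∀ z ∈ An z₀ b x' y, Fo z = Fo' z := by
    have hae : ∀ᵐ z ∂volume.restrict (An z₀ b x' y), Fo z = Fo' z := by
      have e1 := ae_restrict_of_ae_restrict_of_subset hAs hF.eo
      have e2 := hF'.eo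
      have e3 := ae_restrict_of_ae_restrict_of_subset hAW hGG
      filter_upwards [e1, e2, e3] with z h1 h2 h3
      have h4 : conj (Fo z) = conj (Fo' z) := by rw [← h1, ← h2, h3]
      exact (starRingEnd ℂ).injective h4
    exact Measure.eqOn_open_of_ae_eq hae hAo ((hF.do'.mono hAs).continuousOn) hF'.do'.continuousOn
  obtain ⟨t, ht1, ht2⟩ : ∃ t, x' < t ∧ t < y := ⟨(x' + y) / 2, by linarith, by linarith⟩
  have hFc : ∀ m, Fc z₀ b Fo t m = Fc z₀ b Fo' t m := by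
    intro m
    unfold Fc
    refine intervalIntegral.integral_congr fun τ _ => ?_
    have hmem : E z₀ b (t + τ * I) ∈ An z₀ b x' y := by
      rw [E_mem_An hb hx'.le (by linarith) (by simp; linarith)]
      simp
      exact ⟨ht1, ht2⟩
    simp only [hFF _ hmem]
  -- the coefficients vanish
  have hpos : ∀ n : ℕ, 1 ≤ n → Fc z₀ b Fi' (x' / 2) n = 0 := by
    intro n hn
    have a1 := Ih hF (n : ℤ) (s := x / 2) (t := t) ⟨by linarith, by linarith⟩ ⟨by linarith, ht2⟩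
    have a2 := Ih hF (-(n : ℤ)) (s := x / 2) (t := t) ⟨by linarith, by linarith⟩ ⟨by linarith, ht2⟩
    have b1 := Ih hF' (n : ℤ) (s := x' / 2) (t := t) ⟨by linarith, by linarith⟩ ⟨ht1, ht2⟩
    have b2 := Ih hF' (-(n : ℤ)) (s := x' / 2) (t := t) ⟨by linarith, by linarith⟩ ⟨ht1, ht2⟩
    rw [Fc_anti hb hF.di (n : ℤ) (by rw [abs_of_pos (by linarith)]; linarith)] at a2
    rw [Fc_anti hb hF'.di (n : ℤ) (by rw [abs_of_pos (by linarith)]; linarith)] at b2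
    rw [hFc] at a1 a2
    refine alg (A := Fc z₀ b Fi (x / 2) n) hk hk1 hx hxx hn ?_ ?_
    · rw [a1] at b1
      push_cast at b1
      exact b1
    · rw [a2] at b2
      push_cast at b2
      simp only [map_neg] at b2
      have e1 : -(2 * -(n : ℂ) * (x : ℂ)) = 2 * n * x := by ring
      have e2 : -(2 * -(n : ℂ) * (x' : ℂ)) = 2 * n * x' := by ring
      rw [e1, e2] at b2
      linear_combination b2
  have hzero : ∀ z ∈ De z₀ b x', Fi' z = 0 := by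
    apply Fc_zero hb hx' hF'.di
    intro s m hs1 hs2
    rw [Fc_const_in hb hF'.di m (s := s) (t := x' / 2) (by rw [abs_of_pos hs1]; exact hs2)
      (by rw [abs_of_pos (by linarith)]; linarith)]
    have habs : |x' / 2| < x' := by rw [abs_of_pos (by linarith)]; linarith
    rcases lt_trichotomy m 0 with hm | hm | hm
    · have h1 := Fc_anti hb hF'.di (-m) habs
      rw [neg_neg] at h1
      rw [h1]
      obtain ⟨n, hn⟩ := Int.eq_ofNat_of_zero_le (by omega : 0 ≤ -m)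
      rw [hn, hpos n (by omega), neg_zero]
    · have h1 := Fc_anti hb hF'.di m habs
      rw [hm] at h1 ⊢
      rw [neg_zero] at h1
      have h2 : 2 * Fc z₀ b Fi' (x' / 2) 0 = 0 := by linear_combination h1
      simpa using h2
    · obtain ⟨n, hn⟩ := Int.eq_ofNat_of_zero_le hm.le
      rw [hn, hpos n (by omega)]
  have hG0 : ∀ᵐ z ∂volume.restrict (De z₀ b x'), G₂ z = 0 := by
    have h3 := hF'.ei
    rw [ae_restrict_iff' (De_open z₀ b x').measurableSet] at h3 ⊢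
    filter_upwards [h3] with w hw hwD
    rw [hw hwD, hzero w hwD, map_zero]
  have hxΩ : De z₀ b x' ⊆ Ω := by
    intro z hz
    apply hyΩ
    have h1 : lv z₀ b z < lx b x' := hz
    have h2 : lx b x' < lx b y := (lx_lt hb hx'.le (by linarith)).2 (by linarith)
    exact h1.trans h2
  exact Fg hΩo hΩb hΩc hσ (De_open z₀ b x') (De_nonempty hb hx') hxΩ hg h₂ hG0

theorem main2 {Ω : Set ℂ} (hΩo : IsOpen Ω) (hΩb : Bornology.IsBounded Ω) (hΩc : IsPreconnected Ω)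
    (hσ : μH[1] (frontier Ω) < ⊤) {k k' : ℝ} (hk : 0 < k) (hk1 : k ≠ 1) (hk' : 0 < k') (hk1' : k' ≠ 1)
    {z₀ b : ℂ} (hb : b ≠ 0) {x : ℝ} (hx : 0 < x)
    (hD : {z | lv z₀ b z ≤ lx b (2 * x)} ⊆ Ω) {z₁ c : ℂ} (hc : c ≠ 0) {x' : ℝ} (hx' : 0 < x')
    (hD' : {z | lv z₁ c z ≤ lx c (2 * x')} ⊆ Ω)
    {g u₁ u₂ : ℂ → ℝ} {G₁ G₂ : ℂ → ℂ} (hg : MemLp g 2 (μH[1].restrict (frontier Ω)))
    (hg0 : ¬ g =ᵐ[μH[1].restrict (frontier Ω)] 0)
    (h₁ : SolvesC Ω (cond k (De z₀ b x)) g u₁ G₁) (h₂ : SolvesC Ω (cond k' (De z₁ c x')) g u₂ G₂)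
    (ht : SameTrace Ω u₁ u₂ G₁ G₂) : z₁ = z₀ ∧ (c = b ∨ c = -b) ∧ (k = k' → x = x') := by
  by_cases hf1 : z₀ + 2 * b ∈ Sg z₁ c
  swap
  · exact absurd (main2a hΩo hΩb hΩc hσ hk hk1 hk' hb hx hD hc hx' hD' (Or.inl hf1) hg h₁ h₂ ht) hg0
  by_cases hf2 : z₀ - 2 * b ∈ Sg z₁ c
  swap
  · exact absurd (main2a hΩo hΩb hΩc hσ hk hk1 hk' hb hx hD hc hx' hD' (Or.inr hf2) hg h₁ h₂ ht) hg0
  by_cases hf3 : z₁ + 2 * c ∈ Sg z₀ b
  swap
  · exact absurd (main2a hΩo hΩb hΩc hσ hk' hk1' hk hc hx' hD' hb hx hD (Or.inl hf3) hg h₂ h₁ (trace_symm ht)) hg0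
  by_cases hf4 : z₁ - 2 * c ∈ Sg z₀ b
  swap
  · exact absurd (main2a hΩo hΩb hΩc hσ hk' hk1' hk hc hx' hD' hb hx hD (Or.inr hf4) hg h₂ h₁ (trace_symm ht)) hg0
  obtain ⟨hz, hcb⟩ := Sg_eq hf1 hf2 hf3 hf4
  refine ⟨hz, hcb, fun hkk => ?_⟩
  subst hkk
  subst hz
  have hl : ∀ z, lv z₁ c z = lv z₁ b z := by
    rcases hcb with h | h
    · rw [h]
      exact fun _ => rfl
    · intro z
      rw [h]
      unfold lv
      rw [mul_neg, sub_neg_eq_add, ← sub_eq_add_neg, add_comm]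
  have hlx : ∀ t, lx c t = lx b t := by
    rcases hcb with h | h
    · rw [h]
      exact fun _ => rfl
    · intro t
      rw [h]
      unfold lx
      rw [norm_neg]
  have hDe : ∀ t, De z₁ c t = De z₁ b t := by
    intro t
    unfold De
    simp only [hl, hlx]
  simp only [hl, hlx] at hD'
  rw [hDe] at h₂
  rcases lt_trichotomy x x' with h | h | h
  · exact absurd (main2b hΩo hΩb hΩc hσ hk hk1 hb hx h hD' hg h₁ h₂ ht) hg0
  · exact h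
  · exact absurd (main2b hΩo hΩb hΩc hσ hk hk1 hb hx' h hD hg h₂ h₁ (trace_symm ht)) hg0

end ED1
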